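import Pool.Agent.Helper37.RS.Full8

/-!
# The case that the integers in the set are `-n, …, n`
-/

set_option autoImplicit false

namespace Pool.Agent.Helper37.RS

open Finset
open scoped Pointwise

theorem three_case : (({-1, 0, 1} : Finset ℚ) + {-1, 0, 1}).card ≤
    (({-1, 0, 1} : Finset ℚ) * {-1, 0, 1} + {-1, 0, 1}).card := by
  decide +kernel

section

variable {A : Finset ℚ} {q : ℕ} {L : ℕ → ℚ} {n : ℕ}

theorem den_int (b : ℚ) (hb : b.den = 1) : ∃ z : ℤ, (z : ℚ) = b :=
  ⟨b.num, (Rat.den_eq_one_iff b).mp hb⟩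

theorem x_one (hx : ∀ z : ℤ, (z : ℚ) ∈ A ↔ |z| ≤ (n : ℤ)) : 1 ∈ A.image Rat.den := by
  refine mem_image.mpr ⟨((0 : ℤ) : ℚ), (hx 0).mpr (by simp), Rat.den_intCast 0⟩

theorem Sel.x_L (h : Sel A q L) (hx : ∀ z : ℤ, (z : ℚ) ∈ A ↔ |z| ≤ (n : ℤ)) : L 1 = n := by
  obtain ⟨h1, h2⟩ := h.Ld (x_one hx)
  obtain ⟨z, hz⟩ := den_int _ h2
  have h3 : |z| ≤ (n : ℤ) := (hx z).mp (by rw [hz]; exact h1)
  have h4 : ((n : ℤ) : ℚ) ∈ A := (hx n).mpr (by simp)
  have h5 := h.le _ h4
  rw [Rat.den_intCast, ← hz] at h5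
  have h6 : |(n : ℤ)| ≤ |z| := by exact_mod_cast h5
  rw [Nat.abs_cast] at h6
  have h7 : |z| = n := le_antisymm h3 h6
  rcases abs_choice z with h8 | h8
  · rw [← hz, ← h8, h7]
    simp
  · have h9 : z = -(n : ℤ) := by omega
    rcases Nat.eq_zero_or_pos n with h0 | h0
    · rw [← hz, h9, h0]
      simp
    · exfalso
      have h10 : L (((n : ℤ) : ℚ)).den < 0 := by
        rw [Rat.den_intCast, ← hz, h9]
        have : (0 : ℚ) < n := by exact_mod_cast h0
        push_cast
        linarith
      have h11 := h.neg _ h4 h10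
      rw [Rat.den_intCast, ← hz, h9] at h11
      apply h11
      push_cast
      rw [neg_neg]
      exact_mod_cast h4

theorem Sel.x_dbig (h : Sel A q L) (hx : ∀ z : ℤ, (z : ℚ) ∈ A ↔ |z| ≤ (n : ℤ)) (hn : 0 < n) :
    1 ∈ dbig A L := by
  rw [mem_dbig]
  refine ⟨x_one hx, ?_⟩
  rw [h.x_L hx, Nat.abs_cast]
  exact_mod_cast hn

theorem x_card (hx : ∀ z : ℤ, (z : ℚ) ∈ A ↔ |z| ≤ (n : ℤ)) :
    (A.filter (fun a => a.den = 1)).card = 2 * n + 1 := by
  classical
  have h1 : A.filter (fun a => a.den = 1) =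
      (Finset.Icc (-(n : ℤ)) n).image (fun z : ℤ => (z : ℚ)) := by
    ext a
    rw [mem_filter, mem_image]
    constructor
    · rintro ⟨ha, hd⟩
      obtain ⟨z, rfl⟩ := den_int a hd
      refine ⟨z, ?_, rfl⟩
      rw [Finset.mem_Icc, ← abs_le]
      exact (hx z).mp ha
    · rintro ⟨z, hz, rfl⟩
      rw [Finset.mem_Icc, ← abs_le] at hz
      exact ⟨(hx z).mpr hz, Rat.den_intCast z⟩
  rw [h1, card_image_of_injective _ Int.cast_injective, Int.card_Icc]
  omega

theorem x_up : (up A 1).card = 0 := by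
  rw [card_eq_zero, eq_empty_iff_forall_notMem]
  intro b hb
  exact up_den hb rfl

theorem x_bo (hx : ∀ z : ℤ, (z : ℚ) ∈ A ↔ |z| ≤ (n : ℤ)) : (bo A 1).card = 1 := by
  classical
  rw [card_eq_one]
  refine ⟨((-(n : ℤ) : ℤ) : ℚ), ?_⟩
  ext b
  rw [mem_bo, mem_singleton]
  constructor
  · rintro ⟨hb, hd, hb1⟩
    obtain ⟨z, rfl⟩ := den_int b hd
    have h1 := (hx z).mp hb
    have h2 : ¬ |z - 1| ≤ (n : ℤ) := by
      intro h3
      apply hb1
      have := (hx (z - 1)).mpr h3
      exact_mod_cast this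
    rw [abs_le] at h1 h2
    have h3 : z = -(n : ℤ) := by omega
    rw [h3]
  · rintro rfl
    refine ⟨(hx _).mpr (by simp), Rat.den_intCast _, ?_⟩
    intro h1
    have h2 : (((-(n : ℤ) - 1 : ℤ)) : ℚ) ∈ A := by exact_mod_cast h1
    have h3 := (hx _).mp h2
    rw [abs_le] at h3
    omega

theorem x_st (hx : ∀ z : ℤ, (z : ℚ) ∈ A ↔ |z| ≤ (n : ℤ)) : (st A 1).card = 2 * n := by
  have h1 := cls_card (A := A) 1
  rw [x_card hx, x_up, x_bo hx] at h1
  omega

theorem Sel.x_am (h : Sel A q L) (hx : ∀ z : ℤ, (z : ℚ) ∈ A ↔ |z| ≤ (n : ℤ)) :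
    (am A L 1).card = 2 * n := by
  have h1 : -L 1 ∈ A.filter (fun a => a.den = 1) := by
    rw [mem_filter, h.x_L hx]
    have h2 : ((-(n : ℤ) : ℤ) : ℚ) ∈ A := (hx _).mpr (by simp)
    constructor
    · exact_mod_cast h2
    · have := Rat.den_intCast (-(n : ℤ))
      push_cast at this
      exact this
  rw [am_eq, card_erase_of_mem h1, x_card hx]
  omega

theorem Sel.x_delta (h : Sel A q L) (hx : ∀ z : ℤ, (z : ℚ) ∈ A ↔ |z| ≤ (n : ℤ)) (hn : 0 < n) :
    ∑ d ∈ dbig A L, (2 * (up A d).card * (gset A L d).card +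
      (st A d).card * ((st A d).card + 1)) ≤
      ∑ d ∈ dbig A L, ((am A L d).card * (am A L d).card - (am A L d).card) + 4 * n := by
  classical
  have h1 : ∑ d ∈ dbig A L, ((am A L d).card * (am A L d).card - (am A L d).card) + 4 * n =
      ∑ d ∈ dbig A L, ((am A L d).card * (am A L d).card - (am A L d).card +
        if d = 1 then 4 * n else 0) := by
    rw [sum_add_distrib, sum_ite_eq', if_pos (h.x_dbig hx hn)]
  rw [h1]
  refine sum_le_sum fun d hd => ?_
  by_cases hd1 : d = 1
  · rw [if_pos hd1, hd1, x_up, x_st hx, h.x_am hx]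
    have : 2 * n * (2 * n) - 2 * n = 2 * n * (2 * n - 1) := by rw [Nat.mul_sub, mul_one]
    rw [this]
    obtain ⟨m, rfl⟩ : ∃ m, n = m + 1 := ⟨n - 1, by omega⟩
    have h3 : 2 * (m + 1) - 1 = 2 * m + 1 := by omega
    rw [h3]
    nlinarith
  · rw [if_neg hd1, add_zero]
    exact h.per hd (fun h2 => absurd h2 hd1)

theorem Sel.x_big (h : Sel A q L) (hx : ∀ z : ℤ, (z : ℚ) ∈ A ↔ |z| ≤ (n : ℤ)) (hn : 0 < n) :
    2 * yy A L + 1 + 2 * n ≤ (big A L).card := by
  classical
  have h1 : ∑ d ∈ dbig A L, (2 * (up A d).card + 1 + if d = 1 then 2 * n else 0) ≤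
      (big A L).card := by
    rw [big_card]
    refine sum_le_sum fun d hd => ?_
    by_cases hd1 : d = 1
    · rw [if_pos hd1, hd1, x_up, x_card hx]
      omega
    · rw [if_neg hd1, add_zero]
      exact h.two_up d hd
  rw [sum_add_distrib, sum_ite_eq', if_pos (h.x_dbig hx hn), sum_add_distrib, ← mul_sum,
    ← card_eq_sum_ones] at h1
  have h2 : 1 ≤ (dbig A L).card := card_pos.mpr ⟨1, h.x_dbig hx hn⟩
  rw [yy]
  omega

theorem Sel.x_zero (h : Sel A q L) (hx : ∀ z : ℤ, (z : ℚ) ∈ A ↔ |z| ≤ (n : ℤ)) (hn : 0 < n) :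
    (0 : ℚ) ∈ big A L := by
  rw [mem_big]
  refine ⟨by exact_mod_cast (hx 0).mpr (by simp), ?_⟩
  rw [Rat.den_zero]
  exact (mem_dbig.mp (h.x_dbig hx hn)).2

theorem Sel.x_qq (h : Sel A q L) (hx : ∀ z : ℤ, (z : ℚ) ∈ A ↔ |z| ≤ (n : ℤ)) (hn : 0 < n)
    (hn2 : n ≤ 2) (hs : sml A L = ∅) (hi : inn A L = ∅) : (qq A L 1).card ≤ n := by
  classical
  have hL := h.x_L hx
  have hnp : (0 : ℚ) < n := by exact_mod_cast hn
  have hn2' : (n : ℚ) ≤ 2 := by exact_mod_cast hn2
  have hinn : ∀ b ∈ A, |b| < 1 → b.den = 1 := by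
    intro b hb hb1
    by_contra hcon
    have h1 : b ∈ inn A L := by
      rw [inn, mem_filter]
      refine ⟨hb, hb1, hcon, ?_, h.x_zero hx hn⟩
      rcases big_or_sml (L := L) hb with h2 | h2
      · exact (mem_big.mp h2).2
      · rw [hs] at h2
        exact absurd h2 (notMem_empty _)
    rw [hi] at h1
    exact notMem_empty _ h1
  have hdata : ∀ x ∈ qq A L 1, x.1.den = 1 ∧ 0 < x.1 ∧ x.1 ≤ n ∧ x.2 = x.1 - n := by
    intro x hx'
    rw [mem_qq, mem_win, mem_win, hL, abs_of_pos hnp] at hx'
    obtain ⟨⟨h1, h2, h3⟩, ⟨h4, h5, h6⟩, h7⟩ := hx'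
    rw [abs_le] at h2 h5
    have h8 : -(n : ℚ) < x.2 := lt_of_le_of_ne h5.1 (Ne.symm h6)
    have h9 : x.2 = x.1 - n := by linarith
    refine ⟨?_, by linarith, h2.2, h9⟩
    have h10 : x.2.den = x.1.den := by
      rw [h9]
      have := Rat.sub_intCast_den x.1 n
      exact_mod_cast this
    by_contra hcon
    have h11 : ¬ |x.1| < 1 := fun h12 => hcon (hinn _ h1 h12)
    have h12 : ¬ |x.2| < 1 := fun h12 => hcon (h10 ▸ hinn _ h4 h12)
    rw [abs_of_pos (by linarith)] at h11
    push Not at h11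
    rcases h11.eq_or_lt with h13 | h13
    · apply hcon
      rw [← h13]
      rfl
    · apply h12
      rw [abs_lt]
      constructor
      · linarith
      · linarith
  have h1 : (qq A L 1).card ≤ (Finset.Icc (1 : ℤ) n).card := by
    refine card_le_card_of_injOn (fun x => x.1.num) ?_ ?_
    · intro x hx'
      obtain ⟨h1, h2, h3, h4⟩ := hdata x (mem_coe.mp hx')
      rw [mem_coe, Finset.mem_Icc]
      have h5 := (Rat.den_eq_one_iff x.1).mp h1
      rw [← h5] at h2 h3
      have h6 : 0 < x.1.num := by exact_mod_cast h2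
      have h7 : x.1.num ≤ n := by exact_mod_cast h3
      refine ⟨?_, h7⟩
      change 1 ≤ x.1.num
      omega
    · intro x hx' y hy' hxy
      obtain ⟨h1, h2, h3, h4⟩ := hdata x (mem_coe.mp hx')
      obtain ⟨k1, k2, k3, k4⟩ := hdata y (mem_coe.mp hy')
      simp only at hxy
      have h5 := (Rat.den_eq_one_iff x.1).mp h1
      have h6 := (Rat.den_eq_one_iff y.1).mp k1
      have h7 : x.1 = y.1 := by rw [← h5, ← h6, hxy]
      refine Prod.ext h7 ?_
      rw [h4, k4, h7]
  rw [Int.card_Icc] at h1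
  omega

theorem Sel.x_full (h : Sel A q L) (hx : ∀ z : ℤ, (z : ℚ) ∈ A ↔ |z| ≤ (n : ℤ)) (hn : 0 < n) :
    (A + A).card ≤ (A * A + A).card := by
  classical
  have h0b := h.x_zero hx hn
  have hneb : (big A L).Nonempty := ⟨0, h0b⟩
  have hneA : A.Nonempty := ⟨0, (mem_big.mp h0b).1⟩
  obtain ⟨a₀, ha₀, hmax⟩ := exists_max_image A (fun a => |a|) hneA
  have hc := h.count (4 * n) (h.x_delta hx hn) a₀ ha₀
  obtain ⟨g1, g2, g3⟩ := h.gain hneb
  have hE := h.den_E a₀ hmax _ h.st_dbig
  have hE2 := h.den_E a₀ hmax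
  set E := (dbig A L).filter (fun d => |L d| < |a₀|) with hEdef
  have hnq : (1 : ℚ) ≤ n := by exact_mod_cast hn
  rcases (sml A L).eq_empty_or_nonempty with hs | hs
  · have h1D := x_one hx
    have hpos : 0 < ∑ d ∈ A.image Rat.den, (st A d).card := by
      refine lt_of_lt_of_le ?_ (single_le_sum (f := fun d => (st A d).card)
        (fun _ _ => Nat.zero_le _) h1D)
      rw [x_st hx]
      omega
    have hds : ∀ d ∈ A.image Rat.den, d ∈ dbig A L := by
      intro d hd
      obtain ⟨b, hb, rfl⟩ := mem_image.mp hd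
      rcases big_or_sml (L := L) hb with h2 | h2
      · exact mem_dbig.mpr ⟨hd, (mem_big.mp h2).2⟩
      · rw [hs] at h2
        exact absurd h2 (notMem_empty _)
    have hE1 : ∀ d ∈ A.image Rat.den, d ≠ 1 → 1 ≤ E.card := by
      intro d hd hd1
      have h2 := hE2 {1, d} (by
        intro t ht
        rw [mem_insert, mem_singleton] at ht
        rcases ht with rfl | rfl
        · exact h.x_dbig hx hn
        · exact hds t hd)
      rw [card_pair (Ne.symm hd1)] at h2
      omega
    obtain ⟨r1, r2, r3⟩ := arith2 (A.image Rat.den) (fun d => (st A d).card)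
      (fun d => (qq A L d).card) (A.filter (fun b => 0 ≤ b ∧ b + 1 ∈ A)).card
      (A.filter (fun b => b + 1 ≤ 0 ∧ b + 1 ∈ A)).card E.card n (st_sum A) h1D (x_st hx) hn hE
    by_cases hthree : n = 1 ∧ inn A L = ∅ ∧ E.card = 0
    · obtain ⟨rfl, hi, hE0⟩ := hthree
      have hA : A = {-1, 0, 1} := by
        ext a
        constructor
        · intro ha
          have hd : a.den = 1 := by
            by_contra hcon
            have := hE1 a.den (mem_image_of_mem _ ha) hcon
            omega
          obtain ⟨z, rfl⟩ := den_int a hd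
          have h2 := (hx z).mp ha
          rw [abs_le] at h2
          have h3 : z = -1 ∨ z = 0 ∨ z = 1 := by omega
          rcases h3 with rfl | rfl | rfl <;> simp
        · intro ha
          rw [mem_insert, mem_insert, mem_singleton] at ha
          rcases ha with rfl | rfl | rfl
          · exact_mod_cast (hx (-1)).mpr (by simp)
          · exact_mod_cast (hx 0).mpr (by simp)
          · exact_mod_cast (hx 1).mpr (by simp)
      rw [hA]
      exact three_case
    · refine h.finish' (fun d => (st A d).card) E.card _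
        (2 * (inn A L).card - 2 * ((zset A L).card * yy A L)) (4 * n)
        (A.filter (fun b => 0 ≤ b ∧ b + 1 ∈ A)) (A.filter (fun b => b + 1 ≤ 0 ∧ b + 1 ∈ A))
        (fun b hb => ⟨(mem_filter.mp hb).2.1, (mem_filter.mp hb).1, (mem_filter.mp hb).2.2⟩)
        (fun b hb => ⟨(mem_filter.mp hb).2.1, (mem_filter.mp hb).1, (mem_filter.mp hb).2.2⟩)
        (st_sum A) hpos ?_ ?_
      · push_cast at hc
        linarith
      · rcases Nat.lt_or_ge 2 n with hn3 | hn3
        · have hn3' : (3 : ℚ) ≤ n := by exact_mod_cast hn3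
          nlinarith
        · rcases (inn A L).eq_empty_or_nonempty with hi | hi
          · have h4 := r3 (h.x_qq hx hn hn3 hs hi)
            have hn12 : n = 1 ∨ n = 2 := by omega
            rcases hn12 with rfl | rfl
            · have h5 : 1 ≤ E.card := by
                by_contra hcon
                exact hthree ⟨rfl, hi, by omega⟩
              have h6 : (1 : ℚ) ≤ E.card := by exact_mod_cast h5
              push_cast at h4 ⊢
              linarith
            · have h6 : (0 : ℚ) ≤ E.card := Nat.cast_nonneg _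
              push_cast at h4 ⊢
              linarith
          · have h5 : 1 ≤ (inn A L).card := card_pos.mpr hi
            have h6 := zset_inn (A := A) (L := L)
            have h7 : (zset A L).card * yy A L + 1 ≤ (inn A L).card := by
              have : (zset A L).card * (2 * yy A L) = 2 * ((zset A L).card * yy A L) := by ring
              omega
            have h8 : ((zset A L).card : ℚ) * yy A L + 1 ≤ (inn A L).card := by exact_mod_cast h7
            obtain ⟨b, hb⟩ := hi
            rw [inn, mem_filter] at hb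
            have h9 := r2 (hE1 b.den (mem_image_of_mem _ hb.1) hb.2.2.1)
            have hn12 : n = 1 ∨ n = 2 := by omega
            rcases hn12 with rfl | rfl
            · push_cast at h9 ⊢
              linarith
            · push_cast at h9 ⊢
              linarith
  · have h4 : (4 * n : ℚ) ≤ (sml A L).card * ((big A L).card - 2 * yy A L - 1) +
        (2 * (ks A L).card - (sml A L).card * A.card) := by
      have h5 : 2 * (yy A L : ℚ) + 1 + 2 * n ≤ (big A L).card := by
        exact_mod_cast h.x_big hx hn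
      have h6 : 1 ≤ (sml A L).card := card_pos.mpr hs
      rcases h6.eq_or_lt with h7 | h7
      · have h8 := h.card_ks
        rw [← h7, one_mul] at h8
        have h9 : A.card ≤ (ks A L).card := by
          rw [ks, card_product] at h8 ⊢
          have hAc : 0 < A.card := card_pos.mpr hneA
          rcases Nat.eq_zero_or_pos ((sml A L).filter (fun b => b - 1 ∉ A)).card with h10 | h10
          · rw [h10] at h8
            omega
          · exact Nat.le_mul_of_pos_left _ h10
        have h10 : (A.card : ℚ) ≤ (ks A L).card := by exact_mod_cast h9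
        have h11 : (A.card : ℚ) = (big A L).card + (sml A L).card := by
          exact_mod_cast card_split (A := A) (L := L)
        have h12 : ((sml A L).card : ℚ) = 1 := by exact_mod_cast h7.symm
        have h13 : (0 : ℚ) ≤ yy A L := Nat.cast_nonneg _
        rw [h12] at h11 ⊢
        linarith
      · have h8 : (2 : ℚ) ≤ (sml A L).card := by exact_mod_cast h7
        nlinarith
    refine h.finish (fun d => (st A d).card) _ _ (A.filter (fun b => 0 ≤ b ∧ b + 1 ∈ A))
      (A.filter (fun b => b + 1 ≤ 0 ∧ b + 1 ∈ A))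
      (fun b hb => ⟨(mem_filter.mp hb).2.1, (mem_filter.mp hb).1, (mem_filter.mp hb).2.2⟩)
      (fun b hb => ⟨(mem_filter.mp hb).2.1, (mem_filter.mp hb).1, (mem_filter.mp hb).2.2⟩)
      (st_sum A) hE ?_
    push_cast at hc
    linarith

end

/-- **All finite sets of rational numbers with unitary denominators.** -/
theorem unitary (A : Finset ℚ) (q : ℕ) (hA : ∀ a ∈ A, a.den ∣ q)
    (hc : ∀ b ∈ A, Nat.Coprime b.den (q / b.den)) : (A + A).card ≤ (A * A + A).card := by
  classical
  obtain ⟨L, h⟩ := exists_Sel A q hA hc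
  rcases (big A L).eq_empty_or_nonempty with hb | hb
  · refine half_fracs A q hA (fun b hb => ⟨b, hb, hc b hb⟩) (crit_of_half A (diam_two A ?_))
    have h1 : ∀ x ∈ A, |x| < 1 := by
      intro x hx
      rcases big_or_sml (L := L) hx with h2 | h2
      · rw [hb] at h2
        exact absurd h2 (notMem_empty _)
      · exact (h.le x hx).trans_lt (mem_sml.mp h2).2
    intro x hx y hy
    have h2 := abs_lt.mp (h1 x hx)
    have h3 := abs_lt.mp (h1 y hy)
    rw [abs_lt]
    constructor
    · linarith [h2.1, h3.2]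
    · linarith [h2.2, h3.1]
  · by_cases hx : ∃ n : ℕ, 0 < n ∧ ∀ z : ℤ, (z : ℚ) ∈ A ↔ |z| ≤ (n : ℤ)
    · obtain ⟨n, hn, hx⟩ := hx
      exact h.x_full hx hn
    · refine h.full hb ?_
      intro hd1 hm hp
      by_contra hcon
      push Not at hcon
      apply hx
      obtain ⟨hd1', -⟩ := mem_dbig.mp hd1
      obtain ⟨h1, h2⟩ := h.Ld hd1'
      obtain ⟨z, hz⟩ := den_int _ h2
      have hz0 : 0 < z := by
        rw [← hz] at hp
        exact_mod_cast hp
      obtain ⟨n, rfl⟩ := Int.eq_ofNat_of_zero_le hz0.le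
      have hn : 0 < n := by exact_mod_cast hz0
      refine ⟨n, hn, fun z => ⟨fun hzA => ?_, fun hzn => ?_⟩⟩
      · have h3 := h.le _ hzA
        rw [Rat.den_intCast, ← hz] at h3
        have h4 : |z| ≤ |(n : ℤ)| := by exact_mod_cast h3
        rwa [Nat.abs_cast] at h4
      · have key : ∀ k : ℕ, k ≤ 2 * n → (((n : ℤ) - k : ℤ) : ℚ) ∈ A := by
          intro k
          induction k with
          | zero =>
            intro _
            rw [← hz] at h1
            simpa using h1
          | succ k ih =>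
            intro hk
            have ih := ih (by omega)
            by_contra hno
            have h5 : (((n : ℤ) - k : ℤ) : ℚ) ∈ bo A 1 := by
              refine mem_bo.mpr ⟨ih, Rat.den_intCast _, ?_⟩
              intro h6
              apply hno
              have h7 : (((n : ℤ) - (k + 1 : ℕ) : ℤ) : ℚ) = (((n : ℤ) - k : ℤ) : ℚ) - 1 := by
                push_cast
                ring
              rw [h7]
              exact h6
            have h6 := hcon _ h5
            rw [← hz] at h6
            have h7 : (n : ℤ) - k = -(n : ℤ) := by exact_mod_cast h6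
            omega
        rw [abs_le] at hzn
        have h8 := key (n - z).toNat (by omega)
        have h9 : ((n : ℤ) - ((n - z).toNat : ℤ)) = z := by omega
        rw [h9] at h8
        exact h8

end Pool.Agent.Helper37.RS
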