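import Mathlib

/-!
# `A * A + A` for finite sets of rational numbers

For a finite set `A` of rational numbers we bound `|A * A + A|` from below by choosing for every
`b` in `A` a multiplier `L b` in `A` that depends only on the denominator of `b`, and by counting
the distinct numbers `L b * b + a`.
-/

set_option autoImplicit false

namespace Pool.Agent.Helper37.RS

open Finset
open scoped Pointwise

/-- `q a` is an integer if the denominator of `a` divides `q` -/
theorem int_of_den_dvd (q : ℕ) (a : ℚ) (h : a.den ∣ q) : ∃ u : ℤ, (q : ℚ) * a = u := by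
  obtain ⟨e, he⟩ := h
  refine ⟨e * a.num, ?_⟩
  have h1 : (a.den : ℚ) * a = a.num := Rat.den_mul_eq_num a
  rw [he]
  push_cast
  rw [← h1]
  ring

/-- the coprimality facts behind the multiplier -/
theorem cop (q : ℕ) (l b : ℚ) (hl : l.den ∣ q) (hb : b.den ∣ q)
    (h : Nat.Coprime b.den (q / l.den)) (n : ℤ) (hn : IsCoprime (b.den : ℤ) n) :
    IsCoprime (b.den : ℤ) (((q / l.den : ℕ) : ℤ) * l.num * n) := by
  have h1 : IsCoprime (b.den : ℤ) ((q / l.den : ℕ) : ℤ) := Nat.isCoprime_iff_coprime.mpr h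
  have h2 : b.den ∣ l.den := by
    have h3 : l.den * (q / l.den) = q := Nat.mul_div_cancel' hl
    rw [← h3] at hb
    exact h.dvd_of_dvd_mul_right hb
  have h4 : IsCoprime (l.den : ℤ) l.num := (Rat.isCoprime_num_den l).symm
  have h5 : IsCoprime (b.den : ℤ) l.num :=
    h4.of_isCoprime_of_dvd_left (Int.natCast_dvd_natCast.mpr h2)
  exact (h1.mul_right h5).mul_right hn

/-- the basic identity -/
theorem basic (q : ℕ) (l b : ℚ) (hl : l.den ∣ q) :
    (q : ℚ) * (l * b) * b.den = ((((q / l.den : ℕ) : ℤ) * l.num * b.num : ℤ) : ℚ) := by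
  have h3 : l.den * (q / l.den) = q := Nat.mul_div_cancel' hl
  have h1 : (l.den : ℚ) * l = l.num := Rat.den_mul_eq_num l
  have h2 : (b.den : ℚ) * b = b.num := Rat.den_mul_eq_num b
  generalize q / l.den = e at *
  subst h3
  push_cast
  rw [← h1, ← h2]
  ring

/-- the value `l b + a` sees the denominator of `b` -/
theorem den_dvd (q : ℕ) (l b a l' b' a' : ℚ) (hl : l.den ∣ q) (hl' : l'.den ∣ q)
    (hb : b.den ∣ q) (ha : a.den ∣ q) (ha' : a'.den ∣ q)
    (hc : Nat.Coprime b.den (q / l.den)) (h : l * b + a = l' * b' + a') : b.den ∣ b'.den := by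
  obtain ⟨u, hu⟩ := int_of_den_dvd q a ha
  obtain ⟨v, hv⟩ := int_of_den_dvd q a' ha'
  have e1 := basic q l b hl
  have e2 := basic q l' b' hl'
  have hcop := cop q l b hl hb hc b.num (Rat.isCoprime_num_den b).symm
  set E := ((q / l.den : ℕ) : ℤ) * l.num * b.num with hE
  set E' := ((q / l'.den : ℕ) : ℤ) * l'.num * b'.num with hE'
  have h1 : (E : ℚ) * b'.den + u * b.den * b'.den = E' * b.den + v * b.den * b'.den := by
    rw [← e1, ← e2, ← hu, ← hv]
    have h2 : (q : ℚ) * (l * b + a) = q * (l' * b' + a') := by rw [h]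
    linear_combination (b.den : ℚ) * b'.den * h2
  have h3 : E * b'.den + u * b.den * b'.den = E' * b.den + v * b.den * b'.den := by
    exact_mod_cast h1
  have h4 : (b.den : ℤ) ∣ E * b'.den :=
    ⟨E' + v * b'.den - u * b'.den, by linear_combination h3⟩
  exact Int.natCast_dvd_natCast.mp (hcop.dvd_of_dvd_mul_left h4)

/-- with the same multiplier the difference of the `b`s is an integer -/
theorem int_sub (q : ℕ) (l b a b' a' : ℚ) (hl : l.den ∣ q)
    (hb : b.den ∣ q) (ha : a.den ∣ q) (ha' : a'.den ∣ q) (hd : b.den = b'.den)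
    (hc : Nat.Coprime b.den (q / l.den)) (h : l * b + a = l * b' + a') :
    ∃ z : ℤ, b = b' + z := by
  obtain ⟨u, hu⟩ := int_of_den_dvd q a ha
  obtain ⟨v, hv⟩ := int_of_den_dvd q a' ha'
  have e1 := basic q l b hl
  have e2 := basic q l b' hl
  have hcop := cop q l b hl hb hc 1 isCoprime_one_right
  have h1 : (((q / l.den : ℕ) : ℤ) * l.num * 1 * (b.num - b'.num) : ℚ) = (v - u) * b.den := by
    have h2 : (q : ℚ) * (l * b + a) = q * (l * b' + a') := by rw [h]
    rw [← hd] at e2
    push_cast at e1 e2 ⊢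
    linear_combination (b.den : ℚ) * h2 - e1 + e2 + (b.den : ℚ) * hv - (b.den : ℚ) * hu
  have h3 : ((q / l.den : ℕ) : ℤ) * l.num * 1 * (b.num - b'.num) = (v - u) * b.den := by
    exact_mod_cast h1
  have h4 : (b.den : ℤ) ∣ b.num - b'.num :=
    hcop.dvd_of_dvd_mul_left ⟨v - u, by linear_combination h3⟩
  obtain ⟨z, hz⟩ := h4
  refine ⟨z, ?_⟩
  have h5 : (b.den : ℚ) * b = b.num := Rat.den_mul_eq_num b
  have h6 : (b.den : ℚ) * b' = b'.num := by rw [hd]; exact Rat.den_mul_eq_num b'
  have h7 : (b.den : ℚ) ≠ 0 := Nat.cast_ne_zero.mpr b.den_nz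
  have h8 : (b.num : ℚ) - b'.num = b.den * z := by exact_mod_cast hz
  apply mul_left_cancel₀ h7
  linear_combination h5 - h6 + h8

/-- if all six numbers have denominators `d` and `d'`, the value sees `d` -/
theorem den_dvd_sq (l b a l' b' a' : ℚ) (h1 : l.den = b.den) (h2 : a.den = b.den)
    (h1' : l'.den = b'.den) (h2' : a'.den = b'.den) (h : l * b + a = l' * b' + a') :
    b.den ∣ b'.den := by
  have k1 : (b.den : ℚ) * l = l.num := by rw [← h1]; exact Rat.den_mul_eq_num l
  have k2 : (b.den : ℚ) * b = b.num := Rat.den_mul_eq_num b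
  have k3 : (b.den : ℚ) * a = a.num := by rw [← h2]; exact Rat.den_mul_eq_num a
  have k1' : (b'.den : ℚ) * l' = l'.num := by rw [← h1']; exact Rat.den_mul_eq_num l'
  have k2' : (b'.den : ℚ) * b' = b'.num := Rat.den_mul_eq_num b'
  have k3' : (b'.den : ℚ) * a' = a'.num := by rw [← h2']; exact Rat.den_mul_eq_num a'
  have c1 : IsCoprime (b.den : ℤ) l.num := by rw [← h1]; exact (Rat.isCoprime_num_den l).symm
  have c2 : IsCoprime (b.den : ℤ) b.num := (Rat.isCoprime_num_den b).symm
  have c3 : IsCoprime (b.den : ℤ) (l.num * b.num + b.den * a.num) :=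
    (c1.mul_right c2).add_mul_left_right a.num
  have e : ((l.num * b.num + b.den * a.num) * (b'.den : ℤ) ^ 2 : ℚ)
      = (l'.num * b'.num + b'.den * a'.num) * (b.den : ℤ) ^ 2 := by
    push_cast
    rw [← k1, ← k2, ← k3, ← k1', ← k2', ← k3']
    linear_combination (b.den : ℚ) ^ 2 * (b'.den : ℚ) ^ 2 * h
  have e' : (l.num * b.num + b.den * a.num) * (b'.den : ℤ) ^ 2
      = (l'.num * b'.num + b'.den * a'.num) * (b.den : ℤ) ^ 2 := by exact_mod_cast e
  have h40 : (b.den : ℤ) ^ 2 ∣ (l.num * b.num + b.den * a.num) * (b'.den : ℤ) ^ 2 :=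
    ⟨l'.num * b'.num + b'.den * a'.num, by linear_combination e'⟩
  have h4 : (b.den : ℤ) ^ 2 ∣ (b'.den : ℤ) ^ 2 :=
    (IsCoprime.pow_left c3).dvd_of_dvd_mul_left h40
  have h5 : b.den ^ 2 ∣ b'.den ^ 2 := by exact_mod_cast h4
  exact (Nat.pow_dvd_pow_iff two_ne_zero).mp h5

/-- the step from an integer difference to equality -/
theorem inj_core (e l b b' a a' : ℚ) (he : e = 1 ∨ e = -1) (z : ℤ) (hz : b = b' + z)
    (h : l * b + a = l * b' + a') (h1 : 0 < e * a) (h2 : e * a ≤ |l|) (h1' : 0 < e * a')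
    (h2' : e * a' ≤ |l|) : b = b' ∧ a = a' := by
  have hl : 0 < |l| := h1.trans_le h2
  have h3 : l * z = a' - a := by
    rw [hz] at h
    linear_combination h
  have h4 : |a' - a| < |l| := by
    rcases he with rfl | rfl
    · rw [abs_lt]; constructor <;> linarith
    · rw [abs_lt]; constructor <;> linarith
  rw [← h3, abs_mul] at h4
  have h5 : |(z : ℚ)| < 1 := by
    by_contra hcon
    push Not at hcon
    nlinarith
  have h6 : |z| < 1 := by exact_mod_cast h5
  have h7 : z = 0 := Int.abs_lt_one_iff.mp h6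
  subst h7
  simp only [Int.cast_zero, add_zero] at hz
  refine ⟨hz, ?_⟩
  rw [hz] at h
  linarith

/-- the choice of the multipliers -/
theorem exists_sel (A : Finset ℚ) (R : ℕ → ℚ → Prop) :
    ∃ L : ℕ → ℚ, ∀ d, (∃ c ∈ A, R d c) →
      L d ∈ A ∧ R d (L d) ∧ ∀ c ∈ A, R d c → |c| ≤ |L d| := by
  classical
  have h : ∀ d, ∃ l : ℚ, (∃ c ∈ A, R d c) → l ∈ A ∧ R d l ∧ ∀ c ∈ A, R d c → |c| ≤ |l| := by
    intro d
    by_cases hd : ∃ c ∈ A, R d c
    · obtain ⟨c, hc, hR⟩ := hd
      obtain ⟨l, hl, hmax⟩ := exists_max_image (A.filter (R d)) (fun c => |c|)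
        ⟨c, mem_filter.mpr ⟨hc, hR⟩⟩
      rw [mem_filter] at hl
      exact ⟨l, fun _ => ⟨hl.1, hl.2, fun c hc hR => hmax c (mem_filter.mpr ⟨hc, hR⟩)⟩⟩
    · exact ⟨0, fun h => absurd h hd⟩
  choose L hL using h
  exact ⟨L, hL⟩

/-- the value of a pair -/
def val (L : ℕ → ℚ) (x : ℚ × ℚ) : ℚ := L x.1.den * x.1 + x.2

theorem val_mem (A : Finset ℚ) (L : ℕ → ℚ) (x : ℚ × ℚ) (h1 : x.1 ∈ A) (h2 : x.2 ∈ A)
    (h3 : L x.1.den ∈ A) : val L x ∈ A * A + A :=
  add_mem_add (mul_mem_mul h3 h1) h2

/-- counting values -/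
theorem card_le (A : Finset ℚ) (L : ℕ → ℚ) (P : Finset (ℚ × ℚ))
    (hP : ∀ x ∈ P, x.1 ∈ A ∧ x.2 ∈ A ∧ L x.1.den ∈ A)
    (hinj : ∀ x ∈ P, ∀ y ∈ P, val L x = val L y → x = y) :
    P.card ≤ (A * A + A).card := by
  refine card_le_card_of_injOn (val L) ?_ ?_
  · intro x hx
    obtain ⟨h1, h2, h3⟩ := hP x hx
    exact val_mem A L x h1 h2 h3
  · intro x hx y hy h
    exact hinj x hx y hy h

/-- the pairs `(b, a)` with `a` of sign `e` and at most the multiplier of `b` -/
def sg (A : Finset ℚ) (L : ℕ → ℚ) (e : ℚ) : Finset (ℚ × ℚ) :=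
  (A ×ˢ A).filter (fun x => 0 < e * x.2 ∧ e * x.2 ≤ |L x.1.den|)

/-- the values of the pairs in `sg` are distinct -/
theorem sg_inj (A : Finset ℚ) (q : ℕ) (hA : ∀ a ∈ A, a.den ∣ q) (L : ℕ → ℚ)
    (hL : ∀ b ∈ A, L b.den ∈ A ∧ Nat.Coprime b.den (q / (L b.den).den)) (e : ℚ)
    (he : e = 1 ∨ e = -1) (x y : ℚ × ℚ) (hx : x ∈ sg A L e) (hy : y ∈ sg A L e)
    (h : val L x = val L y) : x = y := by
  obtain ⟨b, a⟩ := x
  obtain ⟨b', a'⟩ := y
  simp only [sg, mem_filter, mem_product] at hx hy
  obtain ⟨⟨hb, ha⟩, h1, h2⟩ := hx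
  obtain ⟨⟨hb', ha'⟩, h1', h2'⟩ := hy
  simp only [val] at h
  have l1 := hL b hb
  have l2 := hL b' hb'
  have d1 := den_dvd q (L b.den) b a (L b'.den) b' a' (hA _ l1.1) (hA _ l2.1) (hA _ hb)
    (hA _ ha) (hA _ ha') l1.2 h
  have d2 := den_dvd q (L b'.den) b' a' (L b.den) b a (hA _ l2.1) (hA _ l1.1) (hA _ hb')
    (hA _ ha') (hA _ ha) l2.2 h.symm
  have d : b.den = b'.den := Nat.dvd_antisymm d1 d2
  rw [← d] at h h2'
  obtain ⟨z, hz⟩ := int_sub q (L b.den) b a b' a' (hA _ l1.1) (hA _ hb) (hA _ ha) (hA _ ha') d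
    l1.2 h
  obtain ⟨r1, r2⟩ := inj_core e (L b.den) b b' a a' he z hz h h1 h2 h1' h2'
  rw [r1, r2]

theorem sg_card (A : Finset ℚ) (q : ℕ) (hA : ∀ a ∈ A, a.den ∣ q) (L : ℕ → ℚ)
    (hL : ∀ b ∈ A, L b.den ∈ A ∧ Nat.Coprime b.den (q / (L b.den).den)) (e : ℚ)
    (he : e = 1 ∨ e = -1) : (sg A L e).card ≤ (A * A + A).card := by
  refine card_le A L _ ?_ (fun x hx y hy => sg_inj A q hA L hL e he x y hx hy)
  intro x hx
  simp only [sg, mem_filter, mem_product] at hx
  exact ⟨hx.1.1, hx.1.2, (hL _ hx.1.1).1⟩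

/-- two more elements per pair: the pairs in `sg` are at least half of all pairs -/
theorem count_pairs (A : Finset ℚ) (L : ℕ → ℚ) (hL : ∀ b ∈ A, |b| ≤ |L b.den|)
    (hL1 : ∀ b ∈ A, |b| ≤ |L 1|) :
    A.card * (A.card + 1) ≤
      2 * ((sg A L 1).card + (sg A L (-1)).card) + 2 * (A.filter (fun a => a = 0)).card := by
  classical
  set P := (A ×ˢ A).filter (fun x : ℚ × ℚ => x.2 ≠ 0 ∧ |x.2| ≤ |L x.1.den|) with hP
  set Q := P.image Prod.swap with hQ
  set D := A.image (fun a => (a, a)) with hD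
  set Z := (A.filter (fun a => a = 0)).image (fun a => (a, a)) with hZ
  have hQc : Q.card = P.card := card_image_of_injective _ Prod.swap_injective
  have hDc : D.card = A.card := card_image_of_injective _ (fun a b h => (Prod.ext_iff.mp h).1)
  have hZc : Z.card ≤ (A.filter (fun a => a = 0)).card := card_image_le
  have hcov : ∀ a ∈ A, ∀ b ∈ A, ¬ (a = 0 ∧ b = 0) →
      (b ≠ 0 ∧ |b| ≤ |L a.den|) ∨ (a ≠ 0 ∧ |a| ≤ |L b.den|) := by
    intro a ha b hb hab
    by_cases h0 : b = 0
    · have ha0 : a ≠ 0 := fun h => hab ⟨h, h0⟩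
      right
      refine ⟨ha0, ?_⟩
      rw [h0]
      exact hL1 a ha
    · by_cases h1 : a = 0
      · left
        refine ⟨h0, ?_⟩
        rw [h1]
        exact hL1 b hb
      · by_cases h2 : |b| ≤ |L a.den|
        · exact Or.inl ⟨h0, h2⟩
        · right
          refine ⟨h1, ?_⟩
          push Not at h2
          exact (hL a ha).trans (h2.le.trans (hL b hb))
  have hmP : ∀ a ∈ A, ∀ b ∈ A, b ≠ 0 → |b| ≤ |L a.den| → (a, b) ∈ P := by
    intro a ha b hb h0 h1
    rw [hP, mem_filter, mem_product]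
    exact ⟨⟨ha, hb⟩, h0, h1⟩
  have hmQ : ∀ a ∈ A, ∀ b ∈ A, a ≠ 0 → |a| ≤ |L b.den| → (a, b) ∈ Q := by
    intro a ha b hb h0 h1
    rw [hQ, mem_image]
    exact ⟨(b, a), hmP b hb a ha h0 h1, rfl⟩
  have h1 : A ×ˢ A ⊆ (P ∪ Q) ∪ Z := by
    rintro ⟨a, b⟩ hab
    rw [mem_product] at hab
    rw [mem_union, mem_union]
    by_cases h0 : a = 0 ∧ b = 0
    · right
      obtain ⟨rfl, rfl⟩ := h0
      rw [hZ, mem_image]
      exact ⟨0, mem_filter.mpr ⟨hab.1, rfl⟩, rfl⟩
    · left
      rcases hcov a hab.1 b hab.2 h0 with h | h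
      · exact Or.inl (hmP a hab.1 b hab.2 h.1 h.2)
      · exact Or.inr (hmQ a hab.1 b hab.2 h.1 h.2)
  have h2 : D ⊆ (P ∩ Q) ∪ Z := by
    intro x hx
    rw [hD, mem_image] at hx
    obtain ⟨a, ha, rfl⟩ := hx
    rw [mem_union, mem_inter]
    by_cases h0 : a = 0
    · right
      rw [hZ, mem_image]
      exact ⟨a, mem_filter.mpr ⟨ha, h0⟩, rfl⟩
    · left
      exact ⟨hmP a ha a ha h0 (hL a ha), hmQ a ha a ha h0 (hL a ha)⟩
  have h3 : (A ×ˢ A).card = A.card * A.card := card_product A A
  have h4 := (card_le_card h1).trans (card_union_le _ _)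
  have h5 := (card_le_card h2).trans (card_union_le _ _)
  have h6 := card_union_add_card_inter P Q
  have h7 : P ⊆ sg A L 1 ∪ sg A L (-1) := by
    rintro ⟨b, a⟩ hx
    rw [hP, mem_filter, mem_product] at hx
    obtain ⟨⟨hb, ha⟩, h0, hle⟩ := hx
    simp only at h0 hle hb ha
    rw [mem_union]
    rcases lt_or_gt_of_ne h0 with hneg | hpos
    · right
      simp only [sg, mem_filter, mem_product]
      refine ⟨⟨hb, ha⟩, by linarith, ?_⟩
      rw [abs_of_neg hneg] at hle
      linarith
    · left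
      simp only [sg, mem_filter, mem_product]
      refine ⟨⟨hb, ha⟩, by linarith, ?_⟩
      rw [abs_of_pos hpos] at hle
      linarith
  have h8 := (card_le_card h7).trans (card_union_le _ _)
  rw [h3] at h4
  nlinarith

/-- the sumset has at most `N (N + 1) / 2` elements -/
theorem card_add_self (A : Finset ℚ) : 2 * (A + A).card ≤ A.card * (A.card + 1) := by
  classical
  let f : Sym2 ℚ → ℚ := Sym2.lift ⟨fun a b => a + b, fun a b => add_comm a b⟩
  have hcard : 2 * A.sym2.card = A.card * (A.card + 1) := by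
    rw [Finset.card_sym2, Nat.choose_two_right]
    have h2 : 2 ∣ (A.card + 1) * (A.card + 1 - 1) := by
      rw [Nat.add_sub_cancel, mul_comm]
      exact (Nat.even_mul_succ_self A.card).two_dvd
    rw [Nat.mul_div_cancel' h2, Nat.add_sub_cancel, mul_comm]
  have h1 : A + A ⊆ A.sym2.image f := by
    intro z hz
    obtain ⟨a, ha, b, hb, rfl⟩ := mem_add.mp hz
    exact mem_image.mpr ⟨s(a, b), mk_mem_sym2_iff.mpr ⟨ha, hb⟩, rfl⟩
  have h2 := (card_le_card h1).trans card_image_le
  omega

/-- the sumset bound with the gain from the pairs of elements with difference `1` -/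
theorem card_add_steps (A : Finset ℚ) (Q : Finset ℚ) (hQ : ∀ b ∈ Q, b ∈ A ∧ b + 1 ∈ A) :
    2 * (A + A).card + Q.card * (Q.card - 1) ≤ A.card * (A.card + 1) := by
  classical
  let f : Sym2 ℚ → ℚ := Sym2.lift ⟨fun a b => a + b, fun a b => add_comm a b⟩
  have hf : ∀ a b : ℚ, f s(a, b) = a + b := fun a b => rfl
  have hcard : 2 * A.sym2.card = A.card * (A.card + 1) := by
    rw [Finset.card_sym2, Nat.choose_two_right]
    have h2 : 2 ∣ (A.card + 1) * (A.card + 1 - 1) := by
      rw [Nat.add_sub_cancel, mul_comm]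
      exact (Nat.even_mul_succ_self A.card).two_dvd
    rw [Nat.mul_div_cancel' h2, Nat.add_sub_cancel, mul_comm]
  set T := (Q ×ˢ Q).filter (fun x : ℚ × ℚ => x.1 < x.2) with hT
  set R := T.image (fun x : ℚ × ℚ => s(x.1, x.2 + 1)) with hR
  have hTR : R.card = T.card := by
    apply card_image_of_injOn
    rintro ⟨a, b⟩ h1 ⟨a', b'⟩ h2 h
    simp only [hT, coe_filter, mem_product, Set.mem_ofPred_eq] at h1 h2
    simp only [Sym2.eq_iff] at h
    rcases h with ⟨rfl, h⟩ | ⟨h3, h4⟩
    · have : b = b' := by linarith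
      rw [this]
    · exfalso
      linarith [h1.2, h2.2]
  have hTc : 2 * T.card = Q.card * (Q.card - 1) := by
    have h1 : (Q.offDiag).card = Q.card * Q.card - Q.card := offDiag_card Q
    have h2 : Q.offDiag = T ∪ T.image Prod.swap := by
      ext ⟨a, b⟩
      simp only [mem_offDiag, mem_union, mem_image, hT, mem_filter, mem_product]
      constructor
      · rintro ⟨ha, hb, hab⟩
        rcases lt_or_gt_of_ne hab with h | h
        · exact Or.inl ⟨⟨ha, hb⟩, h⟩
        · exact Or.inr ⟨(b, a), ⟨⟨hb, ha⟩, h⟩, rfl⟩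
      · rintro (⟨⟨ha, hb⟩, h⟩ | ⟨⟨c, d⟩, ⟨⟨hc, hd⟩, h⟩, he⟩)
        · exact ⟨ha, hb, ne_of_lt h⟩
        · simp only [Prod.swap_prod_mk, Prod.mk.injEq] at he
          obtain ⟨rfl, rfl⟩ := he
          exact ⟨hd, hc, ne_of_gt h⟩
    have h3 : Disjoint T (T.image Prod.swap) := by
      rw [disjoint_left]
      rintro ⟨a, b⟩ h4 h5
      obtain ⟨⟨c, d⟩, h6, h7⟩ := mem_image.mp h5
      simp only [Prod.swap_prod_mk, Prod.mk.injEq] at h7
      obtain ⟨rfl, rfl⟩ := h7
      exact lt_asymm (mem_filter.mp h4).2 (mem_filter.mp h6).2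
    rw [h2, card_union_of_disjoint h3, card_image_of_injective _ Prod.swap_injective] at h1
    rw [Nat.mul_sub_one]
    omega
  have hRsub : R ⊆ A.sym2 := by
    intro x hx
    obtain ⟨⟨a, b⟩, h1, rfl⟩ := mem_image.mp hx
    simp only [hT, mem_filter, mem_product] at h1
    exact mk_mem_sym2_iff.mpr ⟨(hQ _ h1.1.1).1, (hQ _ h1.1.2).2⟩
  have hcov : A + A ⊆ (A.sym2 \ R).image f := by
    intro z hz
    obtain ⟨a, ha, b, hb, hab⟩ := mem_add.mp hz
    obtain ⟨⟨u, v⟩, huv, hmin⟩ := exists_min_image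
      ((A ×ˢ A).filter (fun x : ℚ × ℚ => x.1 + x.2 = z)) (fun x => |x.1 - x.2|)
      ⟨(a, b), mem_filter.mpr ⟨mem_product.mpr ⟨ha, hb⟩, hab⟩⟩
    rw [mem_filter, mem_product] at huv
    obtain ⟨⟨hu, hv⟩, hs⟩ := huv
    refine mem_image.mpr ⟨s(u, v), ?_, hs⟩
    rw [mem_sdiff]
    refine ⟨mk_mem_sym2_iff.mpr ⟨hu, hv⟩, ?_⟩
    intro hcon
    obtain ⟨⟨c, d⟩, h1, h2⟩ := mem_image.mp hcon
    simp only [hT, mem_filter, mem_product] at h1
    obtain ⟨⟨hc, hd⟩, hcd⟩ := h1
    have h3 : c + (d + 1) = z := by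
      rw [← hs]
      have h4 := congrArg f h2
      rw [hf, hf] at h4
      exact h4
    have h5 : |u - v| = d + 1 - c := by
      simp only [Sym2.eq_iff] at h2
      rcases h2 with ⟨rfl, rfl⟩ | ⟨rfl, rfl⟩
      · rw [abs_sub_comm, abs_of_pos (by linarith)]
      · rw [abs_of_pos (by linarith)]
    have h6 := hmin (c + 1, d) (mem_filter.mpr ⟨mem_product.mpr ⟨(hQ c hc).2, (hQ d hd).1⟩, by
      simp only; linarith⟩)
    simp only at h6
    rw [h5] at h6
    have h7 : |c + 1 - d| < d + 1 - c := by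
      rw [abs_lt]
      constructor <;> linarith
    linarith
  have h1 := (card_le_card hcov).trans card_image_le
  rw [card_sdiff_of_subset hRsub, hTR] at h1
  have h2 := card_le_card hRsub
  rw [hTR] at h2
  omega

theorem zero_card (A : Finset ℚ) : (A.filter (fun a => a = 0)).card ≤ 1 := by
  refine card_le_one.mpr ?_
  intro a ha b hb
  rw [(mem_filter.mp ha).2, (mem_filter.mp hb).2]

/-- sets in which every `b` is dominated -/
theorem dominated (A : Finset ℚ) (q : ℕ) (hA : ∀ a ∈ A, a.den ∣ q)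
    (hD : ∀ b ∈ A, ∃ c ∈ A, |b| ≤ |c| ∧ Nat.Coprime b.den (q / c.den)) :
    A.card * (A.card + 1) ≤ 4 * (A * A + A).card + 2 * (A.filter (fun a => a = 0)).card ∧
    (((∀ a ∈ A, 0 ≤ a) ∨ (∀ a ∈ A, a < 0)) →
      A.card * (A.card + 1) ≤ 2 * (A * A + A).card) := by
  classical
  obtain ⟨L, hL⟩ := exists_sel A (fun d c => Nat.Coprime d (q / c.den))
  have h1 : ∀ b ∈ A, L b.den ∈ A ∧ Nat.Coprime b.den (q / (L b.den).den) := by
    intro b hb
    obtain ⟨c, hc, -, h⟩ := hD b hb
    have h2 := hL b.den ⟨c, hc, h⟩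
    exact ⟨h2.1, h2.2.1⟩
  have h2 : ∀ b ∈ A, |b| ≤ |L b.den| := by
    intro b hb
    obtain ⟨c, hc, hbc, h⟩ := hD b hb
    exact hbc.trans ((hL b.den ⟨c, hc, h⟩).2.2 c hc h)
  have h3 : ∀ b ∈ A, |b| ≤ |L 1| := by
    intro b hb
    exact (hL 1 ⟨b, hb, Nat.coprime_one_left _⟩).2.2 b hb (Nat.coprime_one_left _)
  have hcount := count_pairs A L h2 h3
  have p1 := sg_card A q hA L h1 1 (Or.inl rfl)
  have p2 := sg_card A q hA L h1 (-1) (Or.inr rfl)
  refine ⟨by omega, ?_⟩
  rintro (hpos | hneg)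
  · have e2 : sg A L (-1) = ∅ := by
      rw [sg, filter_eq_empty_iff]
      rintro x hx ⟨h, -⟩
      have := hpos x.2 (mem_product.mp hx).2
      linarith
    rw [e2, card_empty] at hcount
    by_cases h0 : (0 : ℚ) ∈ A
    · have hz := zero_card A
      have h4 : (insert ((0 : ℚ), (0 : ℚ)) (sg A L 1)).card ≤ (A * A + A).card := by
        have hv0 : val L (0, 0) = 0 := by simp [val]
        have hvp : ∀ x ∈ sg A L 1, 0 < val L x := by
          intro x hx
          simp only [sg, mem_filter, mem_product] at hx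
          have k1 := hpos _ (h1 _ hx.1.1).1
          have k2 := hpos _ hx.1.1
          have k3 := mul_nonneg k1 k2
          simp only [val]
          linarith [hx.2.1]
        refine card_le A L _ ?_ ?_
        · intro x hx
          rcases mem_insert.mp hx with rfl | hx
          · exact ⟨h0, h0, (h1 0 h0).1⟩
          · simp only [sg, mem_filter, mem_product] at hx
            exact ⟨hx.1.1, hx.1.2, (h1 _ hx.1.1).1⟩
        · intro x hx y hy h
          rcases mem_insert.mp hx with rfl | hx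
          · rcases mem_insert.mp hy with rfl | hy
            · rfl
            · have := hvp y hy
              rw [← h, hv0] at this
              exact absurd this (lt_irrefl _)
          · rcases mem_insert.mp hy with rfl | hy
            · have := hvp x hx
              rw [h, hv0] at this
              exact absurd this (lt_irrefl _)
            · exact sg_inj A q hA L h1 1 (Or.inl rfl) x y hx hy h
      rw [card_insert_of_notMem (by simp [sg])] at h4
      omega
    · have hz : (A.filter (fun a => a = 0)).card = 0 := by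
        rw [card_eq_zero, filter_eq_empty_iff]
        rintro x hx rfl
        exact h0 hx
      omega
  · have e2 : sg A L 1 = ∅ := by
      rw [sg, filter_eq_empty_iff]
      rintro x hx ⟨h, -⟩
      have := hneg x.2 (mem_product.mp hx).2
      linarith
    have hz : (A.filter (fun a => a = 0)).card = 0 := by
      rw [card_eq_zero, filter_eq_empty_iff]
      rintro x hx rfl
      exact absurd (hneg 0 hx) (lt_irrefl _)
    rw [e2, card_empty] at hcount
    omega

/-- dominated sets of arbitrary signs without two elements at distance `1` or `2` -/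
theorem dominated_gap (A : Finset ℚ) (q : ℕ) (hA : ∀ a ∈ A, a.den ∣ q)
    (hD : ∀ b ∈ A, ∃ c ∈ A, |b| ≤ |c| ∧ Nat.Coprime b.den (q / c.den))
    (hg : ∀ x ∈ A, ∀ y ∈ A, x - y ≠ 1 ∧ x - y ≠ 2) :
    A.card * (A.card + 1) ≤ 2 * (A * A + A).card := by
  classical
  obtain ⟨L, hL⟩ := exists_sel A (fun d c => Nat.Coprime d (q / c.den))
  have h1 : ∀ b ∈ A, L b.den ∈ A ∧ Nat.Coprime b.den (q / (L b.den).den) := by
    intro b hb
    obtain ⟨c, hc, -, h⟩ := hD b hb
    have h2 := hL b.den ⟨c, hc, h⟩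
    exact ⟨h2.1, h2.2.1⟩
  have h2 : ∀ b ∈ A, |b| ≤ |L b.den| := by
    intro b hb
    obtain ⟨c, hc, hbc, h⟩ := hD b hb
    exact hbc.trans ((hL b.den ⟨c, hc, h⟩).2.2 c hc h)
  set P := (A ×ˢ A).filter (fun x : ℚ × ℚ => |x.2| ≤ |L x.1.den|) with hP
  set Q := P.image Prod.swap with hQ
  set D := A.image (fun a => (a, a)) with hD'
  have hQc : Q.card = P.card := card_image_of_injective _ Prod.swap_injective
  have hDc : D.card = A.card := card_image_of_injective _ (fun a b h => (Prod.ext_iff.mp h).1)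
  have hm : ∀ a ∈ A, ∀ b ∈ A, |b| ≤ |L a.den| → (a, b) ∈ P := by
    intro a ha b hb h
    rw [hP, mem_filter, mem_product]
    exact ⟨⟨ha, hb⟩, h⟩
  have k1 : A ×ˢ A ⊆ P ∪ Q := by
    rintro ⟨a, b⟩ hab
    rw [mem_product] at hab
    rw [mem_union]
    by_cases h : |b| ≤ |L a.den|
    · exact Or.inl (hm a hab.1 b hab.2 h)
    · right
      push Not at h
      rw [hQ, mem_image]
      exact ⟨(b, a), hm b hab.2 a hab.1 ((h2 a hab.1).trans (h.le.trans (h2 b hab.2))), rfl⟩
  have k2 : D ⊆ P ∩ Q := by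
    intro x hx
    obtain ⟨a, ha, rfl⟩ := mem_image.mp hx
    rw [mem_inter]
    refine ⟨hm a ha a ha (h2 a ha), ?_⟩
    rw [hQ, mem_image]
    exact ⟨(a, a), hm a ha a ha (h2 a ha), rfl⟩
  have k3 : (A ×ˢ A).card = A.card * A.card := card_product A A
  have k4 := card_le_card k1
  have k5 := card_le_card k2
  have k6 := card_union_add_card_inter P Q
  have k7 : P.card ≤ (A * A + A).card := by
    refine card_le A L P ?_ ?_
    · intro x hx
      rw [hP, mem_filter, mem_product] at hx
      exact ⟨hx.1.1, hx.1.2, (h1 _ hx.1.1).1⟩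
    · rintro ⟨b, a⟩ hx ⟨b', a'⟩ hy h
      simp only [hP, mem_filter, mem_product] at hx hy
      obtain ⟨⟨hb, ha⟩, m1⟩ := hx
      obtain ⟨⟨hb', ha'⟩, m1'⟩ := hy
      simp only [val] at h
      have l1 := h1 b hb
      have l2 := h1 b' hb'
      have d : b.den = b'.den := Nat.dvd_antisymm
        (den_dvd q _ b a _ b' a' (hA _ l1.1) (hA _ l2.1) (hA _ hb) (hA _ ha) (hA _ ha') l1.2 h)
        (den_dvd q _ b' a' _ b a (hA _ l2.1) (hA _ l1.1) (hA _ hb') (hA _ ha') (hA _ ha) l2.2
          h.symm)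
      rw [← d] at h m1'
      obtain ⟨z, hz⟩ := int_sub q (L b.den) b a b' a' (hA _ l1.1) (hA _ hb) (hA _ ha)
        (hA _ ha') d l1.2 h
      have h3 : L b.den * (b - b') = a' - a := by linear_combination h
      have h4 : b - b' = z := by rw [hz]; ring
      by_cases hL0 : L b.den = 0
      · rw [hL0, zero_mul, zero_mul, zero_add, zero_add] at h
        have hb0 := h2 b hb
        have hb0' := h2 b' hb'
        rw [← d] at hb0'
        rw [hL0, abs_zero] at hb0 hb0'
        rw [abs_nonpos_iff.mp hb0, abs_nonpos_iff.mp hb0', h]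
      have hLp : 0 < |L b.den| := abs_pos.mpr hL0
      have h5 : |L b.den| * |(z : ℚ)| ≤ |L b.den| * 2 := by
        rw [← abs_mul, ← h4, h3]
        calc |a' - a| ≤ |a'| + |a| := abs_sub a' a
          _ ≤ |L b.den| * 2 := by linarith
      have h6 : |(z : ℚ)| ≤ 2 := le_of_mul_le_mul_left h5 hLp
      have h7 : |z| ≤ 2 := by exact_mod_cast h6
      have g1 := hg b hb b' hb'
      have g2 := hg b' hb' b hb
      have h8 : b' - b = -z := by rw [← h4]; ring
      rw [h4] at g1
      rw [h8] at g2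
      have e1 : z ≠ 1 := fun h => g1.1 (by rw [h]; norm_num)
      have e2 : z ≠ 2 := fun h => g1.2 (by rw [h]; norm_num)
      have e3 : z ≠ -1 := fun h => g2.1 (by rw [h]; norm_num)
      have e4 : z ≠ -2 := fun h => g2.2 (by rw [h]; norm_num)
      rw [abs_le] at h7
      have h9 : z = 0 := by omega
      rw [h9, Int.cast_zero, sub_eq_zero] at h4
      subst h4
      rw [sub_self, mul_zero] at h3
      rw [sub_eq_zero.mp h3.symm]
  rw [k3] at k4
  nlinarith

/-- the pairs with equal denominators -/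
theorem sum_sq (A : Finset ℚ) :
    ∑ d ∈ A.image Rat.den, (A.filter (fun a => a.den = d)).card ^ 2
      = ((A ×ˢ A).filter (fun x : ℚ × ℚ => x.1.den = x.2.den)).card := by
  classical
  rw [card_eq_sum_card_fiberwise (f := fun x : ℚ × ℚ => x.1.den) (t := A.image Rat.den)]
  · refine sum_congr rfl (fun d _ => ?_)
    rw [sq, ← card_product]
    congr 1
    ext ⟨a, b⟩
    simp only [mem_product, mem_filter]
    constructor
    · rintro ⟨⟨h1, h2⟩, h3, h4⟩
      exact ⟨⟨⟨h1, h3⟩, h2.trans h4.symm⟩, h2⟩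
    · rintro ⟨⟨⟨h1, h3⟩, h5⟩, h2⟩
      exact ⟨⟨h1, h2⟩, h3, h5.symm.trans h2⟩
  · intro x hx
    have hx' := (mem_filter.mp hx).1
    exact mem_image_of_mem _ (mem_product.mp hx').1

theorem sq_card (A : Finset ℚ) : A.card ^ 2 ≤ (A.image Rat.den).card *
    ∑ d ∈ A.image Rat.den, (A.filter (fun a => a.den = d)).card ^ 2 := by
  have h := card_eq_sum_card_image Rat.den A
  have h2 : (∑ d ∈ A.image Rat.den, (A.filter (fun a => a.den = d)).card) ^ 2
      ≤ (A.image Rat.den).card *
        ∑ d ∈ A.image Rat.den, (A.filter (fun a => a.den = d)).card ^ 2 :=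
    sq_sum_le_card_mul_sum_sq
  rw [← h] at h2
  exact h2

theorem same_den_inj (A : Finset ℚ) (L : ℕ → ℚ)
    (hL : ∀ b ∈ A, L b.den ∈ A ∧ (L b.den).den = b.den ∧
      ∀ c ∈ A, c.den = b.den → |c| ≤ |L b.den|) (e : ℚ) (he : e = 1 ∨ e = -1) :
    ∀ x ∈ (A ×ˢ A).filter (fun x : ℚ × ℚ => x.1.den = x.2.den ∧ 0 < e * x.2),
    ∀ y ∈ (A ×ˢ A).filter (fun x : ℚ × ℚ => x.1.den = x.2.den ∧ 0 < e * x.2),
    val L x = val L y → x = y := by
  rintro ⟨b, a⟩ hx ⟨b', a'⟩ hy h
  simp only [mem_filter, mem_product] at hx hy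
  obtain ⟨⟨hb, ha⟩, hba, h1⟩ := hx
  obtain ⟨⟨hb', ha'⟩, hba', h1'⟩ := hy
  simp only [val] at h
  obtain ⟨m1, m2, m3⟩ := hL b hb
  obtain ⟨m1', m2', m3'⟩ := hL b' hb'
  have d : b.den = b'.den := Nat.dvd_antisymm
    (den_dvd_sq _ b a _ b' a' m2 hba.symm m2' hba'.symm h)
    (den_dvd_sq _ b' a' _ b a m2' hba'.symm m2 hba.symm h.symm)
  rw [← d] at h
  have hle : ∀ t ∈ A, t.den = b.den → e * t ≤ |L b.den| := by
    intro t ht htd
    refine le_trans ?_ (m3 t ht htd)
    rcases he with rfl | rfl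
    · rw [one_mul]
      exact le_abs_self t
    · have := neg_le_abs t
      linarith
  obtain ⟨z, hz⟩ := int_sub b.den (L b.den) b a b' a' (by rw [m2]) dvd_rfl (by rw [hba])
    (by rw [← hba', d]) d (by rw [m2, Nat.div_self b.den_pos]; exact Nat.coprime_one_right _) h
  obtain ⟨r1, r2⟩ := inj_core e (L b.den) b b' a a' he z hz h h1 (hle a ha hba.symm) h1'
    (hle a' ha' (by rw [← hba', d]))
  rw [r1, r2]

theorem same_den (A : Finset ℚ) (L : ℕ → ℚ)
    (hL : ∀ b ∈ A, L b.den ∈ A ∧ (L b.den).den = b.den ∧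
      ∀ c ∈ A, c.den = b.den → |c| ≤ |L b.den|) (e : ℚ) (he : e = 1 ∨ e = -1) :
    ((A ×ˢ A).filter (fun x : ℚ × ℚ => x.1.den = x.2.den ∧ 0 < e * x.2)).card
      ≤ (A * A + A).card := by
  refine card_le A L _ ?_ (same_den_inj A L hL e he)
  intro x hx
  rw [mem_filter, mem_product] at hx
  exact ⟨hx.1.1, hx.1.2, (hL _ hx.1.1).1⟩

/-- every finite set of rational numbers without `0` -/
theorem any_den (A : Finset ℚ) (h0 : (0 : ℚ) ∉ A) :
    (∑ d ∈ A.image Rat.den, (A.filter (fun a => a.den = d)).card ^ 2 ≤ 2 * (A * A + A).card) ∧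
    (((∀ a ∈ A, 0 < a) ∨ (∀ a ∈ A, a < 0)) →
      ∑ d ∈ A.image Rat.den, (A.filter (fun a => a.den = d)).card ^ 2 ≤ (A * A + A).card) := by
  classical
  obtain ⟨L, hL⟩ := exists_sel A (fun d c => c.den = d)
  have hL' : ∀ b ∈ A, L b.den ∈ A ∧ (L b.den).den = b.den ∧
      ∀ c ∈ A, c.den = b.den → |c| ≤ |L b.den| := fun b hb => hL b.den ⟨b, hb, rfl⟩
  have p1 := same_den A L hL' 1 (Or.inl rfl)
  have p2 := same_den A L hL' (-1) (Or.inr rfl)
  rw [sum_sq]
  constructor
  · have h1 : (A ×ˢ A).filter (fun x : ℚ × ℚ => x.1.den = x.2.den) ⊆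
        (A ×ˢ A).filter (fun x : ℚ × ℚ => x.1.den = x.2.den ∧ 0 < 1 * x.2) ∪
        (A ×ˢ A).filter (fun x : ℚ × ℚ => x.1.den = x.2.den ∧ 0 < (-1) * x.2) := by
      intro x hx
      rw [mem_filter] at hx
      rw [mem_union, mem_filter, mem_filter]
      have hne : x.2 ≠ 0 := fun h => h0 (h ▸ (mem_product.mp hx.1).2)
      rcases lt_or_gt_of_ne hne with h | h
      · exact Or.inr ⟨hx.1, hx.2, by linarith⟩
      · exact Or.inl ⟨hx.1, hx.2, by linarith⟩
    have h2 := (card_le_card h1).trans (card_union_le _ _)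
    omega
  · rintro (hp | hn)
    · refine le_trans (card_le_card ?_) p1
      intro x hx
      rw [mem_filter] at hx ⊢
      exact ⟨hx.1, hx.2, by linarith [hp _ (mem_product.mp hx.1).2]⟩
    · refine le_trans (card_le_card ?_) p2
      intro x hx
      rw [mem_filter] at hx ⊢
      exact ⟨hx.1, hx.2, by linarith [hn _ (mem_product.mp hx.1).2]⟩

/-- the elements that are smallest in their class modulo `1` -/
def bot (A : Finset ℚ) : Finset ℚ :=
  A.filter (fun b => ∀ b' ∈ A, Int.fract b' = Int.fract b → b ≤ b')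

theorem bot_card (A : Finset ℚ) : (bot A).card = (A.image Int.fract).card := by
  classical
  have h1 : (bot A).image Int.fract = A.image Int.fract := by
    apply Subset.antisymm
    · exact image_subset_image (filter_subset _ _)
    · intro f hf
      obtain ⟨a, ha, rfl⟩ := mem_image.mp hf
      obtain ⟨b, hb, hmin⟩ := exists_min_image (A.filter (fun b => Int.fract b = Int.fract a)) id
        ⟨a, mem_filter.mpr ⟨ha, rfl⟩⟩
      rw [mem_filter] at hb
      refine mem_image.mpr ⟨b, ?_, hb.2⟩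
      rw [bot, mem_filter]
      refine ⟨hb.1, fun b' hb' h => hmin b' (mem_filter.mpr ⟨hb', h.trans hb.2⟩)⟩
  rw [← h1]
  refine (card_image_of_injOn ?_).symm
  intro b hb b' hb' h
  have hb := mem_filter.mp hb
  have hb' := mem_filter.mp hb'
  exact le_antisymm (hb.2 b' hb'.1 h.symm) (hb'.2 b hb.1 h)

/-- the bound by the number of fractional parts -/
theorem fracs (A : Finset ℚ) (q : ℕ) (hA : ∀ a ∈ A, a.den ∣ q)
    (hC : ∀ b ∈ A, ∃ c ∈ A, Nat.Coprime b.den (q / c.den)) :
    A.card * (A.image Int.fract).card + A.card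
      ≤ (A * A + A).card + (A.image Int.fract).card := by
  classical
  rcases A.eq_empty_or_nonempty with rfl | hne
  · simp
  by_cases hz : ∀ a ∈ A, a = 0
  · have hA0 : A = {0} := eq_singleton_iff_nonempty_unique_mem.mpr ⟨hne, hz⟩
    subst hA0
    simp
  obtain ⟨L, hL⟩ := exists_sel A (fun d c => Nat.Coprime d (q / c.den))
  have h1 : ∀ b ∈ A, L b.den ∈ A ∧ Nat.Coprime b.den (q / (L b.den).den) := by
    intro b hb
    obtain ⟨c, hc, h⟩ := hC b hb
    have h2 := hL b.den ⟨c, hc, h⟩
    exact ⟨h2.1, h2.2.1⟩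
  have hL0 : ∀ b ∈ A, L b.den ≠ 0 := by
    intro b hb h0
    obtain ⟨c, hc, h⟩ := hC b hb
    obtain ⟨k1, k2, k3⟩ := hL b.den ⟨c, hc, h⟩
    simp only [h0, Rat.den_zero, Nat.div_one] at k2
    have hb1 : b.den = 1 := Nat.Coprime.eq_one_of_dvd k2 (hA b hb)
    apply hz
    intro a ha
    have h4 := k3 a ha (by simp only [hb1]; exact Nat.coprime_one_left _)
    rw [h0, abs_zero] at h4
    exact abs_nonpos_iff.mp h4
  have hs : ∀ d, ∃ s ∈ A, ∀ a ∈ A, L d * a ≤ L d * s :=
    fun d => exists_max_image A (fun a => L d * a) hne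
  choose s hsA hsmax using hs
  have key : ∀ x y : ℚ × ℚ, x.1 ∈ A → x.2 ∈ A → y.1 ∈ A → y.2 ∈ A → val L x = val L y →
      x.1.den = y.1.den ∧ Int.fract x.1 = Int.fract y.1 := by
    rintro ⟨b, a⟩ ⟨b', a'⟩ hb ha hb' ha' h
    simp only [val] at h hb ha hb' ha'
    have l1 := h1 b hb
    have l2 := h1 b' hb'
    have d : b.den = b'.den := Nat.dvd_antisymm
      (den_dvd q _ b a _ b' a' (hA _ l1.1) (hA _ l2.1) (hA _ hb) (hA _ ha) (hA _ ha') l1.2 h)
      (den_dvd q _ b' a' _ b a (hA _ l2.1) (hA _ l1.1) (hA _ hb') (hA _ ha') (hA _ ha) l2.2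
        h.symm)
    rw [← d] at h
    obtain ⟨z, hz⟩ := int_sub q (L b.den) b a b' a' (hA _ l1.1) (hA _ hb) (hA _ ha) (hA _ ha') d
      l1.2 h
    refine ⟨d, ?_⟩
    rw [hz]
    exact Int.fract_add_intCast b' z
  set B := bot A with hB
  have hBA : B ⊆ A := filter_subset _ _
  have hmin : ∀ b ∈ B, ∀ b' ∈ A, Int.fract b' = Int.fract b → b ≤ b' :=
    fun b hb => (mem_filter.mp hb).2
  set P := (B ×ˢ A) ∪ ((A \ B).image (fun b => (b, s b.den))) with hP
  have hPc : P.card = B.card * A.card + (A.card - B.card) := by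
    rw [hP, card_union_of_disjoint, card_product, card_image_of_injective,
      card_sdiff_of_subset hBA]
    · intro b b' h
      exact (Prod.ext_iff.mp h).1
    · rw [disjoint_left]
      rintro ⟨b, a⟩ hx hy
      rw [mem_image] at hy
      obtain ⟨b', hb', h⟩ := hy
      rw [Prod.mk.injEq] at h
      rw [mem_product] at hx
      exact (mem_sdiff.mp hb').2 (h.1 ▸ hx.1)
  have hmix : ∀ b ∈ A \ B, ∀ y ∈ B ×ˢ A, val L (b, s b.den) ≠ val L y := by
    intro b hb y hy h
    rw [mem_sdiff] at hb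
    rw [mem_product] at hy
    obtain ⟨k1, k2⟩ := key (b, s b.den) y hb.1 (hsA _) (hBA hy.1) hy.2 h
    simp only at k1 k2
    simp only [val] at h
    rw [← k1] at h
    have h3 : y.1 ≤ b := hmin y.1 hy.1 b hb.1 k2
    have h4 : y.1 ≠ b := fun h5 => hb.2 (h5 ▸ hy.1)
    have h5 : y.1 < b := lt_of_le_of_ne h3 h4
    have h6 := hsmax b.den y.2 hy.2
    have h7 : 0 < L b.den * L b.den := mul_self_pos.mpr (hL0 b hb.1)
    have h8 : 0 < L b.den * L b.den * (b - y.1) := mul_pos h7 (sub_pos.mpr h5)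
    have h9 : L b.den * L b.den * (b - y.1) = L b.den * y.2 - L b.den * s b.den := by
      linear_combination L b.den * h
    linarith
  have h2 : P.card ≤ (A * A + A).card := by
    refine card_le A L P ?_ ?_
    · intro x hx
      rcases mem_union.mp hx with hx | hx
      · rw [mem_product] at hx
        exact ⟨hBA hx.1, hx.2, (h1 _ (hBA hx.1)).1⟩
      · obtain ⟨b, hb, rfl⟩ := mem_image.mp hx
        exact ⟨(mem_sdiff.mp hb).1, hsA _, (h1 _ (mem_sdiff.mp hb).1).1⟩
    · intro x hx y hy h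
      rcases mem_union.mp hx with hx | hx
      · rcases mem_union.mp hy with hy | hy
        · rw [mem_product] at hx hy
          obtain ⟨k1, k2⟩ := key x y (hBA hx.1) hx.2 (hBA hy.1) hy.2 h
          have h3 : x.1 = y.1 :=
            le_antisymm (hmin x.1 hx.1 y.1 (hBA hy.1) k2.symm) (hmin y.1 hy.1 x.1 (hBA hx.1) k2)
          simp only [val] at h
          rw [h3] at h
          exact Prod.ext h3 (add_left_cancel h)
        · obtain ⟨b, hb, rfl⟩ := mem_image.mp hy
          exact absurd h.symm (hmix b hb x hx)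
      · obtain ⟨b, hb, rfl⟩ := mem_image.mp hx
        rcases mem_union.mp hy with hy | hy
        · exact absurd h (hmix b hb y hy)
        · obtain ⟨b', hb', rfl⟩ := mem_image.mp hy
          rw [mem_sdiff] at hb hb'
          obtain ⟨k1, -⟩ := key _ _ hb.1 (hsA _) hb'.1 (hsA _) h
          simp only [val] at h k1
          rw [← k1] at h
          have h3 : L b.den * b = L b.den * b' := add_right_cancel h
          have h4 : b = b' := mul_left_cancel₀ (hL0 b hb.1) h3
          rw [h4]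
  have h3 : B.card ≤ A.card := card_le_card hBA
  rw [← bot_card A, ← hB, mul_comm]
  omega

/-- the number of classes of `A` modulo `c ℤ` -/
def cls (A : Finset ℚ) (c : ℚ) : ℕ := (A.image (fun a => Int.fract (a / c))).card

/-- the elements for which `l a` is largest in their class modulo `l ℤ` -/
def top (A : Finset ℚ) (l : ℚ) : Finset ℚ :=
  A.filter (fun a => ∀ a' ∈ A, Int.fract (a' / l) = Int.fract (a / l) → l * a' ≤ l * a)

theorem top_card (A : Finset ℚ) (l : ℚ) : cls A l ≤ (top A l).card := by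
  classical
  have h1 : A.image (fun a => Int.fract (a / l)) ⊆ (top A l).image (fun a => Int.fract (a / l)) := by
    intro f hf
    obtain ⟨a, ha, rfl⟩ := mem_image.mp hf
    obtain ⟨b, hb, hmax⟩ := exists_max_image
      (A.filter (fun b => Int.fract (b / l) = Int.fract (a / l))) (fun b => l * b)
      ⟨a, mem_filter.mpr ⟨ha, rfl⟩⟩
    rw [mem_filter] at hb
    refine mem_image.mpr ⟨b, ?_, hb.2⟩
    rw [top, mem_filter]
    exact ⟨hb.1, fun b' hb' h => hmax b' (mem_filter.mpr ⟨hb', h.trans hb.2⟩)⟩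
  exact (card_le_card h1).trans card_image_le

/-- the bound by the numbers of classes modulo `1` and modulo the multipliers -/
theorem two_sided (A : Finset ℚ) (q k : ℕ) (hA : ∀ a ∈ A, a.den ∣ q)
    (hC : ∀ b ∈ A, ∃ c ∈ A, c ≠ 0 ∧ Nat.Coprime b.den (q / c.den) ∧ k ≤ cls A c) :
    A.card * ((A.image Int.fract).card + k)
      ≤ (A * A + A).card + (A.image Int.fract).card * k := by
  classical
  obtain ⟨L, hL⟩ := exists_sel A (fun d c => c ≠ 0 ∧ Nat.Coprime d (q / c.den) ∧ k ≤ cls A c)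
  have h1 : ∀ b ∈ A, L b.den ∈ A ∧ L b.den ≠ 0 ∧ Nat.Coprime b.den (q / (L b.den).den) ∧
      k ≤ cls A (L b.den) := by
    intro b hb
    obtain ⟨c, hc, h⟩ := hC b hb
    have h2 := hL b.den ⟨c, hc, h⟩
    exact ⟨h2.1, h2.2.1⟩
  have key : ∀ x y : ℚ × ℚ, x.1 ∈ A → x.2 ∈ A → y.1 ∈ A → y.2 ∈ A → val L x = val L y →
      x.1.den = y.1.den ∧ Int.fract x.1 = Int.fract y.1 ∧
      Int.fract (x.2 / L x.1.den) = Int.fract (y.2 / L x.1.den) := by
    rintro ⟨b, a⟩ ⟨b', a'⟩ hb ha hb' ha' h
    simp only [val] at h hb ha hb' ha'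
    have l1 := h1 b hb
    have l2 := h1 b' hb'
    have d : b.den = b'.den := Nat.dvd_antisymm
      (den_dvd q _ b a _ b' a' (hA _ l1.1) (hA _ l2.1) (hA _ hb) (hA _ ha) (hA _ ha')
        l1.2.2.1 h)
      (den_dvd q _ b' a' _ b a (hA _ l2.1) (hA _ l1.1) (hA _ hb') (hA _ ha') (hA _ ha)
        l2.2.2.1 h.symm)
    rw [← d] at h
    obtain ⟨z, hz⟩ := int_sub q (L b.den) b a b' a' (hA _ l1.1) (hA _ hb) (hA _ ha) (hA _ ha') d
      l1.2.2.1 h
    refine ⟨d, ?_, ?_⟩
    · rw [hz]
      exact Int.fract_add_intCast b' z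
    · simp only
      have h3 : a' = a + z * L b.den := by
        have hz' : b - b' = z := by rw [hz]; ring
        rw [← hz']
        linear_combination -h
      rw [h3, add_div, mul_div_cancel_right₀ _ l1.2.1]
      exact (Int.fract_add_intCast _ z).symm
  set B := bot A with hB
  have hBA : B ⊆ A := filter_subset _ _
  have hmin : ∀ b ∈ B, ∀ b' ∈ A, Int.fract b' = Int.fract b → b ≤ b' :=
    fun b hb => (mem_filter.mp hb).2
  set P := (A ×ˢ A).filter (fun x : ℚ × ℚ => x.1 ∈ B ∨ x.2 ∈ top A (L x.1.den)) with hP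
  have hPc : B.card * A.card + (A.card - B.card) * k ≤ P.card := by
    rw [card_eq_sum_card_fiberwise (s := P) (f := Prod.fst) (t := A)
      (fun x hx => (mem_product.mp (mem_filter.mp hx).1).1)]
    rw [← sum_sdiff hBA, add_comm]
    apply Nat.add_le_add
    · rw [← card_sdiff_of_subset hBA, ← smul_eq_mul]
      refine card_nsmul_le_sum _ _ _ ?_
      intro b hb
      rw [mem_sdiff] at hb
      refine (h1 b hb.1).2.2.2.trans ((top_card A _).trans ?_)
      refine card_le_card_of_injOn (fun a => (b, a)) ?_ ?_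
      · intro a ha
        rw [mem_coe, mem_filter, hP, mem_filter, mem_product]
        exact ⟨⟨⟨hb.1, (mem_filter.mp ha).1⟩, Or.inr ha⟩, rfl⟩
      · intro a _ a' _ h
        exact (Prod.ext_iff.mp h).2
    · rw [← smul_eq_mul]
      refine card_nsmul_le_sum _ _ _ ?_
      intro b hb
      refine card_le_card_of_injOn (fun a => (b, a)) ?_ ?_
      · intro a ha
        rw [mem_coe, mem_filter, hP, mem_filter, mem_product]
        exact ⟨⟨⟨hBA hb, ha⟩, Or.inl hb⟩, rfl⟩
      · intro a _ a' _ h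
        exact (Prod.ext_iff.mp h).2
  have hmix : ∀ x y : ℚ × ℚ, x.1 ∈ A → x.2 ∈ top A (L x.1.den) → x.1 ∉ B → y.1 ∈ B → y.2 ∈ A →
      val L x ≠ val L y := by
    intro x y hx hxt hxB hyB hy h
    have hxA : x.2 ∈ A := (mem_filter.mp hxt).1
    obtain ⟨k1, k2, k3⟩ := key x y hx hxA (hBA hyB) hy h
    simp only [val] at h
    rw [← k1] at h
    have h3 : y.1 ≤ x.1 := hmin y.1 hyB x.1 hx k2
    have h4 : y.1 ≠ x.1 := fun h5 => hxB (h5 ▸ hyB)
    have h5 : y.1 < x.1 := lt_of_le_of_ne h3 h4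
    have h6 := (mem_filter.mp hxt).2 y.2 hy k3.symm
    have h7 : 0 < L x.1.den * L x.1.den := mul_self_pos.mpr (h1 _ hx).2.1
    have h8 : 0 < L x.1.den * L x.1.den * (x.1 - y.1) := mul_pos h7 (sub_pos.mpr h5)
    have h9 : L x.1.den * L x.1.den * (x.1 - y.1) = L x.1.den * y.2 - L x.1.den * x.2 := by
      linear_combination L x.1.den * h
    linarith
  have h2 : P.card ≤ (A * A + A).card := by
    refine card_le A L P ?_ ?_
    · intro x hx
      rw [hP, mem_filter, mem_product] at hx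
      exact ⟨hx.1.1, hx.1.2, (h1 _ hx.1.1).1⟩
    · intro x hx y hy h
      rw [hP, mem_filter, mem_product] at hx hy
      obtain ⟨k1, k2, k3⟩ := key x y hx.1.1 hx.1.2 hy.1.1 hy.1.2 h
      by_cases hxB : x.1 ∈ B
      · by_cases hyB : y.1 ∈ B
        · have h3 : x.1 = y.1 :=
            le_antisymm (hmin x.1 hxB y.1 hy.1.1 k2.symm) (hmin y.1 hyB x.1 hx.1.1 k2)
          simp only [val] at h
          rw [h3] at h
          exact Prod.ext h3 (add_left_cancel h)
        · exact absurd h.symm (hmix y x hy.1.1 (hy.2.resolve_left hyB) hyB hxB hx.1.2)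
      · by_cases hyB : y.1 ∈ B
        · exact absurd h (hmix x y hx.1.1 (hx.2.resolve_left hxB) hxB hyB hy.1.2)
        · have t1 := hx.2.resolve_left hxB
          have t2 := hy.2.resolve_left hyB
          rw [← k1] at t2
          have h3 : L x.1.den * x.2 = L x.1.den * y.2 :=
            le_antisymm ((mem_filter.mp t2).2 x.2 hx.1.2 k3)
              ((mem_filter.mp t1).2 y.2 hy.1.2 k3.symm)
          have h4 : x.2 = y.2 := mul_left_cancel₀ (h1 _ hx.1.1).2.1 h3
          simp only [val] at h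
          rw [← k1, h4] at h
          exact Prod.ext (mul_left_cancel₀ (h1 _ hx.1.1).2.1 (add_right_cancel h)) h4
  have h3 : B.card ≤ A.card := card_le_card hBA
  rw [← bot_card A, ← hB]
  obtain ⟨m, hm⟩ := Nat.exists_eq_add_of_le h3
  rw [hm] at hPc ⊢
  rw [Nat.add_sub_cancel_left] at hPc
  nlinarith

/-- the case of two denominators -/
theorem two_aux (l b a' x₁ x₂ a : ℚ) (hl : l.den = b.den) (ha' : a'.den = b.den)
    (h1 : x₁.den = b.den) (ha : a.den = b.den ∨ a.den = x₂.den)
    (h : l * b + a' = x₁ * x₂ + a) : b.den ∣ x₂.den ∧ Nat.Coprime b.den (x₂.den / b.den) := by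
  have k1 : (b.den : ℚ) * l = l.num := by rw [← hl]; exact Rat.den_mul_eq_num l
  have k2 : (b.den : ℚ) * b = b.num := Rat.den_mul_eq_num b
  have k3 : (b.den : ℚ) * a' = a'.num := by rw [← ha']; exact Rat.den_mul_eq_num a'
  have k4 : (b.den : ℚ) * x₁ = x₁.num := by rw [← h1]; exact Rat.den_mul_eq_num x₁
  have k5 : (x₂.den : ℚ) * x₂ = x₂.num := Rat.den_mul_eq_num x₂
  have c1 : IsCoprime (b.den : ℤ) l.num := by rw [← hl]; exact (Rat.isCoprime_num_den l).symm
  have c2 : IsCoprime (b.den : ℤ) b.num := (Rat.isCoprime_num_den b).symm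
  have c3 : IsCoprime (b.den : ℤ) (l.num * b.num + b.den * a'.num) :=
    (c1.mul_right c2).add_mul_left_right a'.num
  have c4 : IsCoprime (b.den : ℤ) x₁.num := by rw [← h1]; exact (Rat.isCoprime_num_den x₁).symm
  have c5 : IsCoprime (x₂.den : ℤ) x₂.num := (Rat.isCoprime_num_den x₂).symm
  obtain ⟨w, hw, hw'⟩ : ∃ w : ℤ, (b.den : ℚ) * x₂.den * a = w ∧
      (b.den ∣ x₂.den → (b.den : ℤ) ∣ w) := by
    have k6 : (a.den : ℚ) * a = a.num := Rat.den_mul_eq_num a
    rcases ha with ha | ha
    · refine ⟨x₂.den * a.num, ?_, fun hd => Dvd.dvd.mul_right (by exact_mod_cast hd) _⟩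
      push_cast
      rw [← k6, ha]
      ring
    · refine ⟨b.den * a.num, ?_, fun _ => dvd_mul_right _ _⟩
      push_cast
      rw [← k6, ha]
      ring
  have e : ((x₂.den : ℤ) * (l.num * b.num + b.den * a'.num) : ℚ)
      = b.den * (x₁.num * x₂.num + w) := by
    push_cast
    rw [← k1, ← k2, ← k3, ← k4, ← k5, ← hw]
    linear_combination (b.den : ℚ) ^ 2 * (x₂.den : ℚ) * h
  have e' : (x₂.den : ℤ) * (l.num * b.num + b.den * a'.num)
      = b.den * (x₁.num * x₂.num + w) := by exact_mod_cast e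
  have hd' : (b.den : ℤ) ∣ (x₂.den : ℤ) := c3.dvd_of_dvd_mul_right ⟨_, e'⟩
  have hd : b.den ∣ x₂.den := Int.natCast_dvd_natCast.mp hd'
  refine ⟨hd, ?_⟩
  obtain ⟨g, hg⟩ := hd
  rw [hg, Nat.mul_div_cancel_left g b.den_pos]
  obtain ⟨w', hw'⟩ := hw' ⟨g, hg⟩
  have hb0 : (b.den : ℤ) ≠ 0 := by exact_mod_cast b.den_nz
  have e2 : (g : ℤ) * (l.num * b.num + b.den * a'.num) = x₁.num * x₂.num + b.den * w' := by
    apply mul_left_cancel₀ hb0
    rw [← hw', ← e', hg]
    push_cast
    ring
  have c6 : IsCoprime (b.den : ℤ) x₂.num :=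
    c5.of_isCoprime_of_dvd_left hd'
  have c7 : IsCoprime (b.den : ℤ) (x₁.num * x₂.num + b.den * w') :=
    (c4.mul_right c6).add_mul_left_right w'
  rw [← e2] at c7
  exact Nat.isCoprime_iff_coprime.mp (IsCoprime.of_mul_right_left c7)

/-- the case of two denominators, values with a denominator equal to the first one -/
theorem two_aux_pair (A : Finset ℚ) (x₁ x₂ : ℚ)
    (hA : ∀ a ∈ A, a.den = x₁.den ∨ a.den = x₂.den) (l b a' a : ℚ)
    (hb : b.den = x₁.den) (hl : l.den = b.den) (ha' : a'.den = b.den) (ha : a ∈ A)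
    (h : l * b + a' = x₁ * x₂ + a) :
    ∀ b ∈ A, ∃ c ∈ A, |b| ≤ |c| ∧ Nat.Coprime b.den (x₂.den / c.den) := by
  obtain ⟨-, h3⟩ := two_aux l b a' x₁ x₂ a hl ha' hb.symm (by rw [hb]; exact hA a ha) h
  intro c hc
  refine ⟨c, hc, le_rfl, ?_⟩
  rcases hA c hc with h4 | h4
  · rw [h4, ← hb]
    exact h3
  · rw [h4, Nat.div_self x₂.den_pos]
    exact Nat.coprime_one_right _

/-- sets with at most two denominators -/
theorem two_den (A : Finset ℚ) (hs : (∀ a ∈ A, 0 < a) ∨ (∀ a ∈ A, a < 0))
    (hr : (A.image Rat.den).card ≤ 2) :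
    A.card * (A.card + 1) ≤ 2 * (A * A + A).card := by
  classical
  have hs' : (∀ a ∈ A, 0 ≤ a) ∨ (∀ a ∈ A, a < 0) := by
    rcases hs with h | h
    · exact Or.inl (fun a ha => (h a ha).le)
    · exact Or.inr h
  rcases A.eq_empty_or_nonempty with rfl | ⟨x₁, h₁⟩
  · simp
  by_cases hone : ∀ a ∈ A, a.den = x₁.den
  · refine (dominated A x₁.den (fun a ha => by rw [hone a ha]) ?_).2 hs'
    intro b hb
    refine ⟨b, hb, le_rfl, ?_⟩
    rw [hone b hb, Nat.div_self x₁.den_pos]
    exact Nat.coprime_one_right _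
  push Not at hone
  obtain ⟨x₂, h₂, hne⟩ := hone
  have hA : ∀ a ∈ A, a.den = x₁.den ∨ a.den = x₂.den := by
    intro a ha
    by_contra hcon
    push Not at hcon
    have h3 : ({a.den, x₁.den, x₂.den} : Finset ℕ) ⊆ A.image Rat.den := by
      intro t ht
      simp only [mem_insert, mem_singleton] at ht
      rcases ht with rfl | rfl | rfl
      · exact mem_image_of_mem _ ha
      · exact mem_image_of_mem _ h₁
      · exact mem_image_of_mem _ h₂
    have h4 := card_le_card h3
    rw [card_insert_of_notMem (by simp [hcon.1, hcon.2]), card_pair hne.symm] at h4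
    omega
  obtain ⟨e, he, hse⟩ : ∃ e : ℚ, (e = 1 ∨ e = -1) ∧ ∀ a ∈ A, 0 < e * a := by
    rcases hs with h | h
    · exact ⟨1, Or.inl rfl, fun a ha => by rw [one_mul]; exact h a ha⟩
    · exact ⟨-1, Or.inr rfl, fun a ha => by linarith [h a ha]⟩
  obtain ⟨L, hL⟩ := exists_sel A (fun d c => c.den = d)
  have hL' : ∀ b ∈ A, L b.den ∈ A ∧ (L b.den).den = b.den ∧
      ∀ c ∈ A, c.den = b.den → |c| ≤ |L b.den| := fun b hb => hL b.den ⟨b, hb, rfl⟩
  by_cases hcol : ∃ b ∈ A, ∃ a' ∈ A, ∃ a ∈ A, a'.den = b.den ∧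
      L b.den * b + a' = x₁ * x₂ + a
  · obtain ⟨b, hb, a', _, a, ha, hd, h⟩ := hcol
    have hq : (∃ q : ℕ, (∀ a ∈ A, a.den ∣ q) ∧
        ∀ b ∈ A, ∃ c ∈ A, |b| ≤ |c| ∧ Nat.Coprime b.den (q / c.den)) := by
      rcases hA b hb with hb1 | hb2
      · refine ⟨x₂.den, ?_, two_aux_pair A x₁ x₂ hA _ b a' a hb1 (hL' b hb).2.1 hd ha h⟩
        have h5 := (two_aux _ b a' x₁ x₂ a (hL' b hb).2.1 hd hb1.symm
          (by rw [hb1]; exact hA a ha) h).1
        intro c hc
        rcases hA c hc with h6 | h6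
        · rw [h6, ← hb1]
          exact h5
        · rw [h6]
      · rw [mul_comm x₁ x₂] at h
        have hA' : ∀ a ∈ A, a.den = x₂.den ∨ a.den = x₁.den := fun a ha => (hA a ha).symm
        refine ⟨x₁.den, ?_, two_aux_pair A x₂ x₁ hA' _ b a' a hb2 (hL' b hb).2.1 hd ha h⟩
        have h5 := (two_aux _ b a' x₂ x₁ a (hL' b hb).2.1 hd hb2.symm
          (by rw [hb2]; exact hA' a ha) h).1
        intro c hc
        rcases hA c hc with h6 | h6
        · rw [h6]
        · rw [h6, ← hb2]
          exact h5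
    obtain ⟨q, hq1, hq2⟩ := hq
    exact (dominated A q hq1 hq2).2 hs'
  · push Not at hcol
    have hsub : (A ×ˢ A).filter (fun x : ℚ × ℚ => x.1.den = x.2.den) ⊆
        (A ×ˢ A).filter (fun x : ℚ × ℚ => x.1.den = x.2.den ∧ 0 < e * x.2) := by
      intro x hx
      rw [mem_filter] at hx ⊢
      exact ⟨hx.1, hx.2, hse _ (mem_product.mp hx.1).2⟩
    set P := (A ×ˢ A).filter (fun x : ℚ × ℚ => x.1.den = x.2.den ∧ 0 < e * x.2) with hP
    have hinj := same_den_inj A L hL' e he
    have h3 : (P.image (val L) ∪ A.image (fun a => x₁ * x₂ + a)) ⊆ A * A + A := by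
      apply union_subset
      · intro z hz
        obtain ⟨x, hx, rfl⟩ := mem_image.mp hz
        rw [hP, mem_filter, mem_product] at hx
        exact val_mem A L x hx.1.1 hx.1.2 (hL' _ hx.1.1).1
      · intro z hz
        obtain ⟨a, ha, rfl⟩ := mem_image.mp hz
        exact add_mem_add (mul_mem_mul h₁ h₂) ha
    have h4 := card_le_card h3
    rw [card_union_of_disjoint, card_image_of_injOn (fun x hx y hy h => hinj x hx y hy h),
      card_image_of_injective _ (add_right_injective _)] at h4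
    · have h5 := sum_sq A
      have h6 := card_le_card hsub
      rw [← h5] at h6
      have h7 := sq_card A
      have h8 : (A.image Rat.den).card *
          ∑ d ∈ A.image Rat.den, (A.filter (fun a => a.den = d)).card ^ 2 ≤ 2 *
          ∑ d ∈ A.image Rat.den, (A.filter (fun a => a.den = d)).card ^ 2 :=
        Nat.mul_le_mul_right _ hr
      have h9 : P.card + A.card ≤ (A * A + A).card := h4
      nlinarith
    · rw [disjoint_left]
      intro z hz hz'
      obtain ⟨x, hx, rfl⟩ := mem_image.mp hz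
      obtain ⟨a, ha, h⟩ := mem_image.mp hz'
      rw [hP, mem_filter, mem_product] at hx
      exact hcol x.1 hx.1.1 x.2 hx.1.2 a ha hx.2.1.symm h.symm

/-- the numbers `x / 2 ^ i` with `i` between `m` and `2 m` and `x` up to `2 ^ (3 m + 1)` -/
def dy (m : ℕ) : Finset ℚ :=
  ((Icc m (2 * m)) ×ˢ (Icc 1 (2 ^ (3 * m + 1)))).image (fun x : ℕ × ℕ => (x.2 : ℚ) / 2 ^ x.1)

theorem dy_den (m : ℕ) (a : ℚ) (ha : a ∈ dy m) : 0 < a ∧ ∃ k ≤ 2 * m, a.den = 2 ^ k := by
  obtain ⟨⟨i, x⟩, hx, rfl⟩ := mem_image.mp ha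
  simp only [mem_product, mem_Icc] at hx ⊢
  obtain ⟨⟨h1, h2⟩, h3, -⟩ := hx
  constructor
  · have : (0 : ℚ) < x := by exact_mod_cast h3
    positivity
  · have h4 : (((((x : ℤ) : ℚ) / ((2 ^ i : ℕ) : ℤ)) : ℚ).den : ℤ) ∣ ((2 ^ i : ℕ) : ℤ) := by
      have h6 := Rat.den_dvd (x : ℤ) ((2 ^ i : ℕ) : ℤ)
      rwa [Rat.divInt_eq_div] at h6
    have h5 : ((((x : ℤ) : ℚ) / ((2 ^ i : ℕ) : ℤ)) : ℚ) = (x : ℚ) / 2 ^ i := by push_cast; ring
    rw [h5] at h4
    obtain ⟨k, hk, hk'⟩ := (Nat.dvd_prime_pow Nat.prime_two).mp (Int.natCast_dvd_natCast.mp h4)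
    exact ⟨k, hk.trans h2, hk'⟩

theorem dy_upper (m : ℕ) : (dy m * dy m + dy m).card ≤ (2 * m + 1) * (6 * 2 ^ (6 * m)) := by
  classical
  have h1 : dy m * dy m + dy m ⊆ ((Icc (2 * m) (4 * m)) ×ˢ (Icc 1 (6 * 2 ^ (6 * m)))).image
      (fun x : ℕ × ℕ => (x.2 : ℚ) / 2 ^ x.1) := by
    intro z hz
    obtain ⟨u, hu, w, hw, rfl⟩ := mem_add.mp hz
    obtain ⟨v, hv, t, ht, rfl⟩ := mem_mul.mp hu
    obtain ⟨⟨i, x⟩, hx, rfl⟩ := mem_image.mp hv
    obtain ⟨⟨j, y⟩, hy, rfl⟩ := mem_image.mp ht
    obtain ⟨⟨k, c⟩, hc, rfl⟩ := mem_image.mp hw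
    simp only [mem_product, mem_Icc] at hx hy hc
    obtain ⟨⟨i1, i2⟩, x1, x2⟩ := hx
    obtain ⟨⟨j1, j2⟩, y1, y2⟩ := hy
    obtain ⟨⟨k1, k2⟩, c1, c2⟩ := hc
    obtain ⟨s, hs⟩ : ∃ s, i + j = k + s := ⟨i + j - k, by omega⟩
    have hs3 : s ≤ 3 * m := by omega
    refine mem_image.mpr ⟨(i + j, x * y + c * 2 ^ s), ?_, ?_⟩
    · simp only [mem_product, mem_Icc]
      refine ⟨⟨by omega, by omega⟩, ?_, ?_⟩
      · have : 1 ≤ x * y := Nat.mul_pos x1 y1
        omega
      · have p1 : x * y ≤ 2 ^ (3 * m + 1) * 2 ^ (3 * m + 1) := Nat.mul_le_mul x2 y2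
        have p2 : c * 2 ^ s ≤ 2 ^ (3 * m + 1) * 2 ^ (3 * m) :=
          Nat.mul_le_mul c2 (Nat.pow_le_pow_right (by norm_num) hs3)
        have p3 : 2 ^ (3 * m + 1) * 2 ^ (3 * m + 1) = 4 * 2 ^ (6 * m) := by
          rw [← pow_add, show 3 * m + 1 + (3 * m + 1) = 6 * m + 2 by ring, pow_add]
          ring
        have p4 : 2 ^ (3 * m + 1) * 2 ^ (3 * m) = 2 * 2 ^ (6 * m) := by
          rw [← pow_add, show 3 * m + 1 + 3 * m = 6 * m + 1 by ring, pow_add]
          ring
        omega
    · simp only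
      push_cast
      rw [hs, pow_add]
      have e1 : (2 : ℚ) ^ k * 2 ^ s = 2 ^ i * 2 ^ j := by rw [← pow_add, ← pow_add, hs]
      have e2 : (2 : ℚ) ^ i ≠ 0 := by positivity
      have e3 : (2 : ℚ) ^ j ≠ 0 := by positivity
      have e4 : (2 : ℚ) ^ k ≠ 0 := by positivity
      have e5 : (2 : ℚ) ^ s ≠ 0 := by positivity
      rw [div_mul_div_comm, ← e1]
      field_simp
  refine (card_le_card h1).trans (card_image_le.trans ?_)
  rw [card_product, Nat.card_Icc, Nat.card_Icc]
  apply le_of_eq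
  congr 1
  omega

theorem dy_lower (m : ℕ) : (m + 1) * 2 ^ (3 * m) ≤ (dy m).card := by
  classical
  have h1 : ((Icc m (2 * m)) ×ˢ (range (2 ^ (3 * m)))).image
      (fun x : ℕ × ℕ => ((2 * x.2 + 1 : ℕ) : ℚ) / 2 ^ x.1) ⊆ dy m := by
    intro z hz
    obtain ⟨⟨i, t⟩, hx, rfl⟩ := mem_image.mp hz
    simp only [mem_product, mem_Icc, mem_range] at hx
    refine mem_image.mpr ⟨(i, 2 * t + 1), ?_, rfl⟩
    simp only [mem_product, mem_Icc]
    refine ⟨hx.1, by omega, ?_⟩
    rw [pow_succ]
    omega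
  have h2 := card_le_card h1
  rw [card_image_of_injOn] at h2
  · rw [card_product, Nat.card_Icc, card_range] at h2
    refine le_trans (le_of_eq ?_) h2
    congr 1
    omega
  · rintro ⟨i, t⟩ hx ⟨j, u⟩ hy h
    simp only at h
    have e : ∀ i j t u : ℕ, i < j →
        ((2 * t + 1 : ℕ) : ℚ) / 2 ^ i ≠ ((2 * u + 1 : ℕ) : ℚ) / 2 ^ j := by
      intro i j t u hij h
      obtain ⟨k, rfl⟩ := Nat.exists_eq_add_of_lt hij
      have e2 : (2 : ℚ) ^ i ≠ 0 := by positivity
      have e3 : (2 : ℚ) ^ (i + k + 1) ≠ 0 := by positivity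
      rw [div_eq_div_iff e2 e3] at h
      have h3 : (2 * t + 1) * 2 ^ (i + k + 1) = (2 * u + 1) * 2 ^ i := by exact_mod_cast h
      have h4 : 2 ^ i * ((2 * t + 1) * 2 ^ (k + 1)) = 2 ^ i * (2 * u + 1) := by
        rw [mul_comm (2 ^ i) (2 * u + 1), ← h3, show i + k + 1 = i + (k + 1) by ring, pow_add]
        ring
      have h5 := Nat.eq_of_mul_eq_mul_left (by positivity) h4
      have h6 : 2 * ((2 * t + 1) * 2 ^ k) = 2 * u + 1 := by
        rw [← h5, pow_succ]
        ring
      generalize (2 * t + 1) * 2 ^ k = w at h6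
      omega
    rcases lt_trichotomy i j with h3 | h3 | h3
    · exact absurd h (e i j t u h3)
    · subst h3
      have e2 : (2 : ℚ) ^ i ≠ 0 := by positivity
      rw [div_left_inj' e2] at h
      have h4 : 2 * t + 1 = 2 * u + 1 := by exact_mod_cast h
      have h5 : t = u := by omega
      rw [h5]
    · exact absurd h.symm (e j i u t h3)

/-- the example -/
theorem dyadic (m : ℕ) : ∃ A : Finset ℚ, A.Nonempty ∧ (∀ a ∈ A, 0 < a ∧ ∃ k : ℕ, a.den = 2 ^ k) ∧
    (m + 1) * (A * A + A).card ≤ 12 * A.card ^ 2 ∧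
    (A.image Rat.den).card * (A * A + A).card ≤ 24 * A.card ^ 2 := by
  classical
  have hu := dy_upper m
  have hl := dy_lower m
  have hpow : 2 ^ (6 * m) = 2 ^ (3 * m) * 2 ^ (3 * m) := by
    rw [← pow_add]
    congr 1
    ring
  have hsq : ((m + 1) * 2 ^ (3 * m)) ^ 2 ≤ (dy m).card ^ 2 := Nat.pow_le_pow_left hl 2
  have hr : ((dy m).image Rat.den).card ≤ 2 * m + 1 := by
    have h1 : (dy m).image Rat.den ⊆ (range (2 * m + 1)).image (fun k => 2 ^ k) := by
      intro d hd
      obtain ⟨a, ha, rfl⟩ := mem_image.mp hd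
      obtain ⟨-, k, hk, h⟩ := dy_den m a ha
      exact mem_image.mpr ⟨k, mem_range.mpr (by omega), h.symm⟩
    refine (card_le_card h1).trans (card_image_le.trans ?_)
    rw [card_range]
  refine ⟨dy m, ?_, ?_, ?_, ?_⟩
  · rw [← card_pos]
    refine lt_of_lt_of_le ?_ hl
    positivity
  · intro a ha
    obtain ⟨h1, k, -, h2⟩ := dy_den m a ha
    exact ⟨h1, k, h2⟩
  · calc (m + 1) * (dy m * dy m + dy m).card
        ≤ (m + 1) * ((2 * m + 1) * (6 * 2 ^ (6 * m))) := Nat.mul_le_mul_left _ hu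
      _ ≤ (m + 1) * ((2 * m + 2) * (6 * 2 ^ (6 * m))) :=
          Nat.mul_le_mul_left _ (Nat.mul_le_mul_right _ (by omega))
      _ = 12 * ((m + 1) * 2 ^ (3 * m)) ^ 2 := by rw [hpow]; ring
      _ ≤ 12 * (dy m).card ^ 2 := Nat.mul_le_mul_left _ hsq
  · calc ((dy m).image Rat.den).card * (dy m * dy m + dy m).card
        ≤ (2 * m + 1) * ((2 * m + 1) * (6 * 2 ^ (6 * m))) := Nat.mul_le_mul hr hu
      _ ≤ (2 * m + 2) * ((2 * m + 2) * (6 * 2 ^ (6 * m))) :=
          Nat.mul_le_mul (by omega) (Nat.mul_le_mul_right _ (by omega))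
      _ = 24 * ((m + 1) * 2 ^ (3 * m)) ^ 2 := by rw [hpow]; ring
      _ ≤ 24 * (dy m).card ^ 2 := Nat.mul_le_mul_left _ hsq

/-- a set of diameter less than `2` has at most two elements per class modulo `1` -/
theorem diam_two (A : Finset ℚ) (h : ∀ x ∈ A, ∀ y ∈ A, |x - y| < 2) :
    A.card ≤ 2 * (A.image Int.fract).card := by
  classical
  refine card_le_mul_card_image A 2 ?_
  intro f _
  by_contra hcon
  push Not at hcon
  obtain ⟨a, b, c, ha, hb, hc, hab, hac, hbc⟩ := two_lt_card_iff.mp hcon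
  rw [mem_filter] at ha hb hc
  obtain ⟨z₁, h₁⟩ := Int.fract_eq_fract.mp (ha.2.trans hb.2.symm)
  obtain ⟨z₂, h₂⟩ := Int.fract_eq_fract.mp (hb.2.trans hc.2.symm)
  have k1 := h a ha.1 b hb.1
  have k2 := h b hb.1 c hc.1
  have k3 := h a ha.1 c hc.1
  have h₃ : a - c = ((z₁ + z₂ : ℤ) : ℚ) := by
    push_cast
    linarith
  rw [h₁] at k1
  rw [h₂] at k2
  rw [h₃] at k3
  have m1 : |z₁| < 2 := by exact_mod_cast k1
  have m2 : |z₂| < 2 := by exact_mod_cast k2
  have m3 : |z₁ + z₂| < 2 := by exact_mod_cast k3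
  have n1 : z₁ ≠ 0 := by
    rintro rfl
    rw [Int.cast_zero, sub_eq_zero] at h₁
    exact hab h₁
  have n2 : z₂ ≠ 0 := by
    rintro rfl
    rw [Int.cast_zero, sub_eq_zero] at h₂
    exact hbc h₂
  have n3 : z₁ + z₂ ≠ 0 := by
    intro h0
    rw [h0, Int.cast_zero, sub_eq_zero] at h₃
    exact hac h₃
  rw [abs_lt] at m1 m2 m3
  omega

/-- the criterion with the steps: `s` is the number of `b` in `A` with `b + 1` in `A` -/
theorem half_fracs (A : Finset ℚ) (q : ℕ) (hA : ∀ a ∈ A, a.den ∣ q)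
    (hC : ∀ b ∈ A, ∃ c ∈ A, Nat.Coprime b.den (q / c.den))
    (h : (A.card - (A.image Int.fract).card) * (A.card - (A.image Int.fract).card - 1) ≤
      (A.image Int.fract).card * ((A.image Int.fract).card - 1) +
      (A.filter (fun b => b + 1 ∈ A)).card * ((A.filter (fun b => b + 1 ∈ A)).card - 1)) :
    (A + A).card ≤ (A * A + A).card := by
  rcases A.eq_empty_or_nonempty with rfl | hne
  · simp
  have hk : 0 < (A.image Int.fract).card := card_pos.mpr (hne.image _)
  have h1 := fracs A q hA hC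
  have h2 := card_add_steps A (A.filter (fun b => b + 1 ∈ A)) (fun b hb => mem_filter.mp hb)
  have h3 : (A.image Int.fract).card ≤ A.card := card_image_le
  obtain ⟨u, hu⟩ := Nat.exists_eq_add_of_le h3
  generalize (A.image Int.fract).card = k at *
  generalize (A.filter (fun b => b + 1 ∈ A)).card * ((A.filter (fun b => b + 1 ∈ A)).card - 1)
    = t at *
  rw [hu] at h h1 h2
  rw [Nat.add_sub_cancel_left] at h
  obtain ⟨l, rfl⟩ : ∃ l, k = l + 1 := ⟨k - 1, by omega⟩
  rcases Nat.eq_zero_or_pos u with rfl | hu0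
  · simp only [add_zero] at h1 h2
    nlinarith
  · obtain ⟨v, rfl⟩ : ∃ v, u = v + 1 := ⟨u - 1, by omega⟩
    rw [Nat.add_sub_cancel, Nat.add_sub_cancel] at h
    nlinarith

theorem crit_of_half (A : Finset ℚ) (h : A.card ≤ 2 * (A.image Int.fract).card) :
    (A.card - (A.image Int.fract).card) * (A.card - (A.image Int.fract).card - 1) ≤
      (A.image Int.fract).card * ((A.image Int.fract).card - 1) +
      (A.filter (fun b => b + 1 ∈ A)).card * ((A.filter (fun b => b + 1 ∈ A)).card - 1) := by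
  have h1 : A.card - (A.image Int.fract).card ≤ (A.image Int.fract).card := by omega
  exact (Nat.mul_le_mul h1 (Nat.sub_le_sub_right h1 1)).trans (Nat.le_add_right _ _)

/-- all classes modulo `1` consist of consecutive elements -/
theorem crit_of_nogap (A : Finset ℚ) (h : ∀ x ∈ A, ∀ k : ℕ, x + k + 1 ∈ A → x + 1 ∈ A) :
    (A.card - (A.image Int.fract).card) * (A.card - (A.image Int.fract).card - 1) ≤
      (A.image Int.fract).card * ((A.image Int.fract).card - 1) +
      (A.filter (fun b => b + 1 ∈ A)).card * ((A.filter (fun b => b + 1 ∈ A)).card - 1) := by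
  classical
  have hBA : bot A ⊆ A := filter_subset _ _
  have h1 : A.card - (A.image Int.fract).card ≤ (A.filter (fun b => b + 1 ∈ A)).card := by
    rw [← bot_card A, ← card_sdiff_of_subset hBA]
    refine card_le_card_of_injOn (fun b => b - 1) ?_ ?_
    · intro b hb
      have hb := mem_sdiff.mp hb
      have h2 : ∃ b' ∈ A, Int.fract b' = Int.fract b ∧ b' < b := by
        by_contra hcon
        push Not at hcon
        exact hb.2 (mem_filter.mpr ⟨hb.1, hcon⟩)
      obtain ⟨b', hb', hf, hlt⟩ := h2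
      obtain ⟨z, hz⟩ := Int.fract_eq_fract.mp hf.symm
      have hz0 : (0 : ℚ) < z := by rw [← hz]; linarith
      have hz1 : 0 < z := by exact_mod_cast hz0
      obtain ⟨n, hn⟩ : ∃ n : ℕ, z = n + 1 := ⟨(z - 1).toNat, by omega⟩
      rw [hn] at hz
      push_cast at hz
      have h3 : ∀ i : ℕ, i ≤ n → b' + i ∈ A := by
        intro i
        induction i with
        | zero => intro _; simpa using hb'
        | succ i ih =>
          intro hi
          have h4 := ih (by omega)
          have h5 := h (b' + i) h4 (n - i) (by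
            have : b' + (i : ℚ) + ((n - i : ℕ) : ℚ) + 1 = b := by
              rw [Nat.cast_sub (by omega)]
              linarith
            rw [this]
            exact hb.1)
          push_cast
          rw [← add_assoc]
          exact h5
      have h4 := h3 n le_rfl
      have h5 : b - 1 = b' + n := by linarith
      have h6 : b - 1 ∈ A.filter (fun b => b + 1 ∈ A) := by
        rw [mem_filter]
        refine ⟨by rw [h5]; exact h4, ?_⟩
        rw [sub_add_cancel]
        exact hb.1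
      exact h6
    · intro b _ b' _ hbb
      simp only at hbb
      linarith
  exact (Nat.mul_le_mul h1 (Nat.sub_le_sub_right h1 1)).trans (Nat.le_add_left _ _)

theorem sqf (A : Finset ℚ) (h : ∀ a ∈ A, Squarefree a.den) :
    ∃ q : ℕ, (∀ a ∈ A, a.den ∣ q) ∧ ∀ b ∈ A, Nat.Coprime b.den (q / b.den) := by
  have h1 : ∀ a ∈ A, a.den ∣ primorial (A.sup Rat.den) := fun a ha =>
    (h a ha).dvd_primorial.trans (primorial_dvd_primorial (le_sup (f := Rat.den) ha))
  refine ⟨primorial (A.sup Rat.den), h1, ?_⟩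
  intro b hb
  have h2 := squarefree_primorial (A.sup Rat.den)
  rw [← Nat.mul_div_cancel' (h1 b hb)] at h2
  exact (Nat.squarefree_mul_iff.mp h2).1

theorem ppow (A : Finset ℚ) (p : ℕ) (hp : p.Prime) (h : ∀ a ∈ A, ∃ k : ℕ, a.den = p ^ k) :
    ∃ q : ℕ, (∀ a ∈ A, a.den ∣ q) ∧ ∀ b ∈ A, ∃ c ∈ A, Nat.Coprime b.den (q / c.den) := by
  rcases A.eq_empty_or_nonempty with rfl | hne
  · exact ⟨1, by simp, by simp⟩
  · obtain ⟨c, hc, hmax⟩ := exists_max_image A Rat.den hne
    refine ⟨c.den, ?_, ?_⟩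
    · intro a ha
      obtain ⟨k, hk⟩ := h a ha
      obtain ⟨l, hl⟩ := h c hc
      have h1 := hmax a ha
      rw [hk, hl] at h1 ⊢
      exact pow_dvd_pow p ((Nat.pow_le_pow_iff_right hp.one_lt).mp h1)
    · intro b _
      exact ⟨c, hc, by rw [Nat.div_self c.den_pos]; exact Nat.coprime_one_right _⟩

/-- arithmetic for `single` -/
theorem num_aux (N S T s p e : ℕ) (h1 : N * N ≤ S + s * p + e)
    (h2 : 2 * T + s * (s - 1) ≤ N * (N + 1)) (hs : s + 1 ≤ N)
    (h : (2 * p ≤ N + 1 ∧ s + e + 1 ≤ N ∧ 3 ≤ N) ∨ (2 * p + 2 ≤ N ∧ e + 1 ≤ N) ∨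
      (2 * p ≤ N ∧ e = 0)) : T ≤ S := by
  obtain ⟨u, rfl⟩ := Nat.exists_eq_add_of_le hs
  rcases h with ⟨hp, he, h3⟩ | ⟨hp, he⟩ | ⟨hp, he⟩
  · have k1 : 2 * (s * p) ≤ s * (s + 1 + u + 1) := by nlinarith
    rcases Nat.eq_zero_or_pos s with rfl | h0
    · simp at h2 k1 h1
      nlinarith
    · obtain ⟨r, rfl⟩ : ∃ r, s = r + 1 := ⟨s - 1, by omega⟩
      rw [Nat.add_sub_cancel] at h2
      have h4 : 1 ≤ r + u := by omega
      nlinarith [Nat.zero_le (r * u), Nat.zero_le r, Nat.zero_le u, mul_self_nonneg ((r : ℤ) - u)]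
  · have k1 : 2 * (s * p) + 2 * s ≤ s * (s + 1 + u) := by nlinarith
    rcases Nat.eq_zero_or_pos s with rfl | h0
    · simp at h2 k1 h1
      nlinarith
    · obtain ⟨r, rfl⟩ : ∃ r, s = r + 1 := ⟨s - 1, by omega⟩
      rw [Nat.add_sub_cancel] at h2
      nlinarith [Nat.zero_le (r * u), Nat.zero_le r, Nat.zero_le u]
  · have k1 : 2 * (s * p) ≤ s * (s + 1 + u) := by nlinarith
    rcases Nat.eq_zero_or_pos s with rfl | h0
    · simp at h2 k1 h1
      nlinarith
    · obtain ⟨r, rfl⟩ : ∃ r, s = r + 1 := ⟨s - 1, by omega⟩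
      rw [Nat.add_sub_cancel] at h2
      nlinarith [Nat.zero_le (r * u), Nat.zero_le r, Nat.zero_le u]

/-- one element dominates all others, arbitrary signs -/
theorem single (A : Finset ℚ) (c : ℚ) (hc : c ∈ A) (hle : ∀ a ∈ A, |a| ≤ |c|)
    (hden : ∀ a ∈ A, a.den ∣ c.den) : (A + A).card ≤ (A * A + A).card := by
  classical
  by_cases hc0 : c = 0
  · have hz : A = {0} := by
      refine eq_singleton_iff_nonempty_unique_mem.mpr ⟨⟨c, hc⟩, fun a ha => ?_⟩
      have h := hle a ha
      rw [hc0, abs_zero] at h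
      exact abs_nonpos_iff.mp h
    rw [hz]
    simp
  set Q := A.filter (fun b => b + 1 ∈ A) with hQ
  set Pp := A.filter (fun a => a - c ∈ A) with hPp
  set R1 := (A ×ˢ A).filter (fun x : ℚ × ℚ => x.1 - 1 ∈ A ∧ x.2 + c ∈ A) with hR1
  set R2 := (A ×ˢ A).filter (fun x : ℚ × ℚ => (x.1 - 2 ∈ A ∧ x.2 + 2 * c ∈ A) ∧
    ¬ (x.1 - 1 ∈ A ∧ x.2 + c ∈ A)) with hR2
  set P := ((A ×ˢ A) \ R1) \ R2 with hP
  have hR1c : R1.card ≤ Q.card * Pp.card := by
    rw [← card_product]
    refine card_le_card_of_injOn (fun x => (x.1 - 1, x.2 + c)) ?_ ?_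
    · intro x hx
      have hx' := mem_filter.mp hx
      rw [mem_product] at hx'
      simp only [coe_product, Set.mem_prod, mem_coe, hQ, hPp, mem_filter]
      exact ⟨⟨hx'.2.1, by rw [sub_add_cancel]; exact hx'.1.1⟩, hx'.2.2, by
        rw [add_sub_cancel_right]; exact hx'.1.2⟩
    · intro x _ y _ h
      simp only [Prod.mk.injEq] at h
      exact Prod.ext (by linarith [h.1]) (by linarith [h.2])
  have hcount : A.card * A.card ≤ (A * A + A).card + Q.card * Pp.card + R2.card := by
    have h1 : (A ×ˢ A).card ≤ P.card + R1.card + R2.card := by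
      have h2 : A ×ˢ A ⊆ (P ∪ R1) ∪ R2 := by
        intro x hx
        rw [mem_union, mem_union, hP, mem_sdiff, mem_sdiff]
        by_cases h3 : x ∈ R1
        · exact Or.inl (Or.inr h3)
        · by_cases h4 : x ∈ R2
          · exact Or.inr h4
          · exact Or.inl (Or.inl ⟨⟨hx, h3⟩, h4⟩)
      exact (card_le_card h2).trans ((card_union_le _ _).trans
        (Nat.add_le_add_right (card_union_le _ _) _))
    rw [card_product] at h1
    have h5 : P.card ≤ (A * A + A).card := by
      refine card_le_card_of_injOn (fun x => c * x.1 + x.2) ?_ ?_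
      · intro x hx
        have hx' := (mem_sdiff.mp (mem_sdiff.mp hx).1).1
        rw [mem_product] at hx'
        exact add_mem_add (mul_mem_mul hc hx'.1) hx'.2
      · have main : ∀ x ∈ P, ∀ y ∈ P, c * x.1 + x.2 = c * y.1 + y.2 → ¬ y.1 < x.1 := by
          rintro ⟨b, a⟩ hx ⟨b', a'⟩ hy h hlt
          simp only at h hlt
          rw [hP, mem_sdiff, mem_sdiff, mem_product] at hx hy
          obtain ⟨⟨⟨hb, ha⟩, n1⟩, n2⟩ := hx
          obtain ⟨⟨⟨hb', ha'⟩, -⟩, -⟩ := hy
          simp only at hb ha hb' ha'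
          have d1 := den_dvd c.den c b a c b' a' dvd_rfl dvd_rfl (hden b hb) (hden a ha)
            (hden a' ha') (by rw [Nat.div_self c.den_pos]; exact Nat.coprime_one_right _) h
          have d2 := den_dvd c.den c b' a' c b a dvd_rfl dvd_rfl (hden b' hb') (hden a' ha')
            (hden a ha) (by rw [Nat.div_self c.den_pos]; exact Nat.coprime_one_right _) h.symm
          obtain ⟨z, hz⟩ := int_sub c.den c b a b' a' dvd_rfl (hden b hb) (hden a ha)
            (hden a' ha') (Nat.dvd_antisymm d1 d2)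
            (by rw [Nat.div_self c.den_pos]; exact Nat.coprime_one_right _) h
          have h4 : b - b' = z := by rw [hz]; ring
          have h3 : c * z = a' - a := by rw [← h4]; linear_combination h
          have hLp : 0 < |c| := abs_pos.mpr hc0
          have h5 : |c| * |(z : ℚ)| ≤ |c| * 2 := by
            rw [← abs_mul, h3]
            calc |a' - a| ≤ |a'| + |a| := abs_sub a' a
              _ ≤ |c| * 2 := by linarith [hle a ha, hle a' ha']
          have h6 : |(z : ℚ)| ≤ 2 := le_of_mul_le_mul_left h5 hLp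
          have h7 : |z| ≤ 2 := by exact_mod_cast h6
          have h8 : (0 : ℚ) < z := by rw [← h4]; linarith
          have h9 : 0 < z := by exact_mod_cast h8
          rw [abs_le] at h7
          have h10 : z = 1 ∨ z = 2 := by omega
          rcases h10 with rfl | rfl
          · apply n1
            rw [hR1, mem_filter, mem_product]
            refine ⟨⟨hb, ha⟩, ?_, ?_⟩
            · simp only
              have : b - 1 = b' := by push_cast at hz; linarith
              rw [this]
              exact hb'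
            · simp only
              have : a + c = a' := by push_cast at h3; linarith
              rw [this]
              exact ha'
          · by_cases h11 : b - 1 ∈ A ∧ a + c ∈ A
            · apply n1
              rw [hR1, mem_filter, mem_product]
              exact ⟨⟨hb, ha⟩, h11⟩
            · apply n2
              rw [hR2, mem_filter, mem_product]
              refine ⟨⟨hb, ha⟩, ⟨?_, ?_⟩, h11⟩
              · simp only
                have : b - 2 = b' := by push_cast at hz; linarith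
                rw [this]
                exact hb'
              · simp only
                have : a + 2 * c = a' := by push_cast at h3; linarith
                rw [this]
                exact ha'
        intro x hx y hy h
        have e1 := main x hx y hy h
        have e2 := main y hy x hx h.symm
        have e3 : x.1 = y.1 := le_antisymm (not_lt.mp e1) (not_lt.mp e2)
        simp only at h
        rw [e3] at h
        exact Prod.ext e3 (add_left_cancel h)
    omega
  have hsteps := card_add_steps A Q (fun b hb => mem_filter.mp hb)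
  have hR2c : ∀ x ∈ R2, x.2 = -c := by
    intro x hx
    rw [hR2, mem_filter, mem_product] at hx
    have l1 := hle _ hx.1.2
    have l2 := hle _ hx.2.1.2
    rcases lt_or_gt_of_ne hc0 with hneg | hpos
    · rw [abs_of_neg hneg, abs_le] at l1 l2
      linarith [l1.1, l1.2, l2.1, l2.2]
    · rw [abs_of_pos hpos, abs_le] at l1 l2
      linarith [l1.1, l1.2, l2.1, l2.2]
  have hAne : A.Nonempty := ⟨c, hc⟩
  obtain ⟨mx, hmx, hmax⟩ := exists_max_image A id hAne
  obtain ⟨mn, hmn, hmin⟩ := exists_min_image A id hAne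
  simp only [id_eq] at hmax hmin
  have hQs : Q.card + 1 ≤ A.card := by
    have h1 : Q ⊆ A.erase mx := by
      intro b hb
      rw [hQ, mem_filter] at hb
      rw [mem_erase]
      refine ⟨?_, hb.1⟩
      rintro rfl
      have := hmax _ hb.2
      linarith
    have h2 := card_le_card h1
    rw [card_erase_of_mem hmx] at h2
    have h3 : 0 < A.card := card_pos.mpr hAne
    omega
  -- the elements `a` and `a - c`
  have hPi : ∀ t ∈ Pp, t ∈ Pp.image (fun a => a - c) → t = 0 := by
    intro t h1 h2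
    obtain ⟨a, ha, rfl⟩ := mem_image.mp h2
    rw [hPp, mem_filter] at h1 ha
    have l1 := hle _ h1.2
    have l2 := hle _ ha.1
    rcases lt_or_gt_of_ne hc0 with hneg | hpos
    · rw [abs_of_neg hneg, abs_le] at l1 l2
      linarith [l1.1, l1.2, l2.1, l2.2]
    · rw [abs_of_pos hpos, abs_le] at l1 l2
      linarith [l1.1, l1.2, l2.1, l2.2]
  have hPim : (Pp.image (fun a => a - c)).card = Pp.card :=
    card_image_of_injective _ (sub_left_injective)
  have hPsub : Pp ∪ Pp.image (fun a => a - c) ⊆ A := by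
    apply union_subset (filter_subset _ _)
    intro t ht
    obtain ⟨a, ha, rfl⟩ := mem_image.mp ht
    exact (mem_filter.mp ha).2
  have hPui := card_union_add_card_inter Pp (Pp.image (fun a => a - c))
  apply num_aux A.card _ _ Q.card Pp.card R2.card hcount hsteps hQs
  by_cases hmc : -c ∈ A
  · by_cases h0 : (0 : ℚ) ∈ A
    · left
      refine ⟨?_, ?_, ?_⟩
      · have h1 : (Pp ∩ Pp.image (fun a => a - c)).card ≤ 1 := by
          apply card_le_one.mpr
          intro x hx y hy
          rw [mem_inter] at hx hy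
          rw [hPi x hx.1 hx.2, hPi y hy.1 hy.2]
        have h2 := card_le_card hPsub
        omega
      · have h1 : R2.card ≤ (A.filter (fun b => b + 2 ∈ A ∧ b + 1 ∉ A)).card := by
          refine card_le_card_of_injOn (fun x => x.1 - 2) ?_ ?_
          · intro x hx
            have hx2 := hR2c x hx
            have hx' := mem_filter.mp hx
            rw [mem_product] at hx'
            rw [mem_coe, mem_filter]
            refine ⟨hx'.2.1.1, by rw [sub_add_cancel]; exact hx'.1.1, ?_⟩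
            intro h3
            apply hx'.2.2
            refine ⟨?_, ?_⟩
            · have : x.1 - 1 = x.1 - 2 + 1 := by ring
              rw [this]
              exact h3
            · rw [hx2, neg_add_cancel]
              exact h0
          · intro x hx y hy h
            simp only at h
            exact Prod.ext (by linarith) ((hR2c x hx).trans (hR2c y hy).symm)
        have h2 : Disjoint Q (A.filter (fun b => b + 2 ∈ A ∧ b + 1 ∉ A)) := by
          rw [disjoint_left]
          intro b hb hb'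
          exact (mem_filter.mp hb').2.2 (mem_filter.mp hb).2
        have h3 : Q ∪ A.filter (fun b => b + 2 ∈ A ∧ b + 1 ∉ A) ⊆ A.erase mx := by
          intro b hb
          rw [mem_erase]
          rcases mem_union.mp hb with hb | hb
          · have hb' := mem_filter.mp hb
            refine ⟨?_, hb'.1⟩
            rintro rfl
            have := hmax _ hb'.2
            linarith
          · have hb' := mem_filter.mp hb
            refine ⟨?_, hb'.1⟩
            rintro rfl
            have := hmax _ hb'.2.1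
            linarith
        have h4 := card_le_card h3
        rw [card_union_of_disjoint h2, card_erase_of_mem hmx] at h4
        have h5 : 0 < A.card := card_pos.mpr hAne
        omega
      · have h1 : ({0, c, -c} : Finset ℚ) ⊆ A := by
          intro t ht
          simp only [mem_insert, mem_singleton] at ht
          rcases ht with rfl | rfl | rfl
          · exact h0
          · exact hc
          · exact hmc
        have h2 := card_le_card h1
        have h3 : c ≠ -c := fun h => hc0 (by linarith)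
        have h4 : (0 : ℚ) ≠ -c := fun h => hc0 (by linarith)
        rw [card_insert_of_notMem (by simp [Ne.symm hc0, hc0]), card_pair h3] at h2
        exact h2
    · right; left
      constructor
      · have h1 : Pp ∩ Pp.image (fun a => a - c) = ∅ := by
          apply eq_empty_of_forall_notMem
          intro x hx
          rw [mem_inter] at hx
          have h2 := hPi x hx.1 hx.2
          rw [h2] at hx
          exact h0 (mem_filter.mp hx.1).1
        have h2 : Pp ∪ Pp.image (fun a => a - c) ⊆ (A.erase c).erase (-c) := by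
          intro t ht
          rw [mem_erase, mem_erase]
          have htA := hPsub ht
          rcases mem_union.mp ht with ht | ht
          · rw [hPp, mem_filter] at ht
            refine ⟨?_, ?_, htA⟩
            · rintro rfl
              have := hle _ ht.2
              rw [← neg_add', abs_neg, ← two_mul, abs_mul] at this
              have h3 : 0 < |c| := abs_pos.mpr hc0
              norm_num at this
              linarith
            · rintro rfl
              exact h0 (by rw [← sub_self t]; exact ht.2)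
          · obtain ⟨a, ha, hac⟩ := mem_image.mp ht
            rw [hPp, mem_filter] at ha
            refine ⟨?_, ?_, htA⟩
            · intro h3
              have h4 : a = 0 := by linarith
              rw [h4] at ha
              exact h0 ha.1
            · intro h3
              have h4 : a = 2 * c := by linarith
              have := hle _ ha.1
              rw [h4, abs_mul] at this
              have h3 : 0 < |c| := abs_pos.mpr hc0
              norm_num at this
              linarith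
        have h3 := card_le_card h2
        have h5 : c ≠ -c := fun h => hc0 (by linarith)
        have h6 : -c ∈ A.erase c := mem_erase.mpr ⟨fun h => h5 h.symm, hmc⟩
        rw [card_erase_of_mem h6, card_erase_of_mem hc] at h3
        rw [h1, card_empty] at hPui
        have h7 : 2 ≤ A.card := by
          have h8 : ({c, -c} : Finset ℚ) ⊆ A := by
            intro t ht
            simp only [mem_insert, mem_singleton] at ht
            rcases ht with rfl | rfl
            · exact hc
            · exact hmc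
          have h9 := card_le_card h8
          rwa [card_pair h5] at h9
        omega
      · have h1 : R2.card ≤ (A.erase mn).card := by
          refine card_le_card_of_injOn (fun x => x.1) ?_ ?_
          · intro x hx
            have hx' := mem_filter.mp hx
            rw [mem_product] at hx'
            rw [mem_coe, mem_erase]
            refine ⟨?_, hx'.1.1⟩
            intro h
            have := hmin _ hx'.2.1.1
            linarith
          · intro x hx y hy h
            exact Prod.ext h ((hR2c x hx).trans (hR2c y hy).symm)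
        rw [card_erase_of_mem hmn] at h1
        have h5 : 0 < A.card := card_pos.mpr hAne
        omega
  · right; right
    have hR2e : R2 = ∅ := by
      apply eq_empty_of_forall_notMem
      intro x hx
      apply hmc
      rw [← hR2c x hx]
      exact (mem_product.mp (mem_filter.mp hx).1).2
    refine ⟨?_, by rw [hR2e, card_empty]⟩
    have h1 : Pp ∩ Pp.image (fun a => a - c) = ∅ := by
      apply eq_empty_of_forall_notMem
      intro x hx
      rw [mem_inter] at hx
      have h2 := hPi x hx.1 hx.2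
      rw [h2] at hx
      have h3 := (mem_filter.mp hx.1).2
      rw [zero_sub] at h3
      exact hmc h3
    have h2 := card_le_card hPsub
    rw [h1, card_empty] at hPui
    omega

/-- dense subsets of `{1 / q, ..., n / q}` -/
theorem dense (A : Finset ℚ) (hs : ∀ a ∈ A, 0 < a) (q n : ℕ) (hq : 0 < q)
    (h : ∀ a ∈ A, ∃ k : ℕ, k ≤ n ∧ a = (k : ℚ) / q)
    (hN : 2 * n * (A.image Rat.den).card ≤ A.card ^ 2) :
    (A + A).card ≤ (A * A + A).card := by
  classical
  rcases A.eq_empty_or_nonempty with rfl | hne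
  · simp
  have h0 : (0 : ℚ) ∉ A := fun h0 => lt_irrefl _ (hs 0 h0)
  have h1 := (sq_card A).trans (Nat.mul_le_mul_left _ ((any_den A h0).2 (Or.inl hs)))
  have hq' : (0 : ℚ) < q := by exact_mod_cast hq
  have h2 : A + A ⊆ (Icc 1 (2 * n)).image (fun k : ℕ => (k : ℚ) / q) := by
    intro z hz
    obtain ⟨a, ha, b, hb, rfl⟩ := mem_add.mp hz
    obtain ⟨k, hk, hka⟩ := h a ha
    obtain ⟨l, hl, hlb⟩ := h b hb
    refine mem_image.mpr ⟨k + l, ?_, ?_⟩
    · rw [mem_Icc]
      refine ⟨?_, by omega⟩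
      by_contra hcon
      have hk0 : k = 0 := by omega
      have := hs a ha
      rw [hka, hk0] at this
      simp at this
    · rw [hka, hlb]
      push_cast
      ring
  have h3 := (card_le_card h2).trans card_image_le
  rw [Nat.card_Icc, Nat.add_sub_cancel] at h3
  have h4 : 0 < (A.image Rat.den).card := card_pos.mpr (hne.image _)
  have h5 : (A.image Rat.den).card * (A + A).card ≤
      (A.image Rat.den).card * (A * A + A).card := by
    calc (A.image Rat.den).card * (A + A).card ≤ (A.image Rat.den).card * (2 * n) :=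
          Nat.mul_le_mul_left _ h3
      _ = 2 * n * (A.image Rat.den).card := mul_comm _ _
      _ ≤ A.card ^ 2 := hN
      _ ≤ _ := h1
  exact Nat.le_of_mul_le_mul_left h5 h4

theorem two_sided_ineq (A : Finset ℚ) (q k : ℕ) (hA : ∀ a ∈ A, a.den ∣ q)
    (hC : ∀ b ∈ A, ∃ c ∈ A, c ≠ 0 ∧ Nat.Coprime b.den (q / c.den) ∧ k ≤ cls A c)
    (h : A.card * (A.card + 1) + 2 * ((A.image Int.fract).card * k)
      ≤ 2 * (A.card * ((A.image Int.fract).card + k)) +
        (A.filter (fun b => b + 1 ∈ A)).card * ((A.filter (fun b => b + 1 ∈ A)).card - 1)) :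
    (A + A).card ≤ (A * A + A).card := by
  have h1 := two_sided A q k hA hC
  have h2 := card_add_steps A (A.filter (fun b => b + 1 ∈ A)) (fun b hb => mem_filter.mp hb)
  omega

end Pool.Agent.Helper37.RS
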