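import Pool.Agent.Helper37.RS.Mixed

/-!
# Sets of rational numbers of both signs, with steps across `0`
-/

set_option autoImplicit false

namespace Pool.Agent.Helper37.RS

open Finset
open scoped Pointwise

/-- the elements with large multipliers -/
def big (A : Finset ℚ) (L : ℕ → ℚ) : Finset ℚ := A.filter (fun a => 1 ≤ |L a.den|)

/-- the elements with small multipliers -/
def sml (A : Finset ℚ) (L : ℕ → ℚ) : Finset ℚ := A.filter (fun a => |L a.den| < 1)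

/-- the pairs that are counted in the other order -/
def drp (A : Finset ℚ) (L : ℕ → ℚ) (b a : ℚ) : Prop :=
  |b| < 1 ∧ a ∈ big A L ∧ a.den ≠ b.den ∧ (1 ≤ |a| ∨ (0 < b ∧ a < 0) ∨ (0 < a * b ∧ |b| < |a|))

instance (A : Finset ℚ) (L : ℕ → ℚ) (b a : ℚ) : Decidable (drp A L b a) := by
  unfold drp
  infer_instance

/-- the pairs used for large multipliers -/
def kb (A : Finset ℚ) (L : ℕ → ℚ) : Finset (ℚ × ℚ) :=
  (od A L).filter (fun x => x.1 ∈ big A L ∧ ¬ drp A L x.1 x.2)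

/-- the pairs used for small multipliers -/
def ks (A : Finset ℚ) (L : ℕ → ℚ) : Finset (ℚ × ℚ) :=
  ((sml A L).filter (fun b => b - 1 ∉ A)) ×ˢ A

/-- the pairs left out -/
def rb (A : Finset ℚ) (L : ℕ → ℚ) : Finset (ℚ × ℚ) :=
  (kb A L).filter (fun x => (x.1 - 1, x.2 + L x.1.den) ∈ kb A L)

/-- the steps not across `0` -/
def st (A : Finset ℚ) (d : ℕ) : Finset ℚ :=
  A.filter (fun b => b.den = d ∧ b - 1 ∈ A ∧ ¬ (b - 1 < 0 ∧ 0 < b))

/-- the steps across `0` -/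
def up (A : Finset ℚ) (d : ℕ) : Finset ℚ :=
  A.filter (fun b => b.den = d ∧ b - 1 ∈ A ∧ (b - 1 < 0 ∧ 0 < b))

/-- the elements without a step -/
def bo (A : Finset ℚ) (d : ℕ) : Finset ℚ := A.filter (fun b => b.den = d ∧ b - 1 ∉ A)

section

variable {A : Finset ℚ} {q : ℕ} {L : ℕ → ℚ}

theorem mem_kb {x : ℚ × ℚ} : x ∈ kb A L ↔ x ∈ od A L ∧ x.1 ∈ big A L ∧ ¬ drp A L x.1 x.2 := by
  simp [kb]

theorem mem_big {a : ℚ} : a ∈ big A L ↔ a ∈ A ∧ 1 ≤ |L a.den| := by simp [big]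

theorem mem_sml {a : ℚ} : a ∈ sml A L ↔ a ∈ A ∧ |L a.den| < 1 := by simp [sml]

theorem mem_rb {x : ℚ × ℚ} : x ∈ rb A L ↔ x ∈ kb A L ∧ (x.1 - 1, x.2 + L x.1.den) ∈ kb A L := by
  simp [rb]

theorem big_or_sml {a : ℚ} (ha : a ∈ A) : a ∈ big A L ∨ a ∈ sml A L := by
  rw [mem_big, mem_sml]
  rcases le_or_gt 1 |L a.den| with h | h
  · exact Or.inl ⟨ha, h⟩
  · exact Or.inr ⟨ha, h⟩

/-- a general form of the count of the values -/
theorem Sel.values_gen (h : Sel A q L) (P : Finset (ℚ × ℚ)) (hP : ∀ x ∈ P, x.1 ∈ A ∧ x.2 ∈ A)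
    (hinj : ∀ x ∈ P, ∀ y ∈ P, val L x = val L y → x = y) (a₀ : ℚ) (ha₀ : a₀ ∈ A)
    (E : Finset ℕ) (hED : E ⊆ A.image Rat.den) (hE : ∀ d ∈ E, |L d| < |a₀| ∧
      ∀ x ∈ P, x.1.den = d → |x.2| ≤ |L d|) : P.card + E.card ≤ (A * A + A).card := by
  classical
  have hsel : ∀ d : ℕ, ∃ b : ℚ, d ∈ A.image Rat.den → b ∈ A ∧ b.den = d ∧
      ∀ b' ∈ A, b'.den = d → 0 ≤ a₀ * (L d * b - L d * b') := by
    intro d
    by_cases hd : d ∈ A.image Rat.den
    · obtain ⟨b₁, hb₁, hd₁⟩ := mem_image.mp hd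
      obtain ⟨b, hb, hmax⟩ := exists_max_image (A.filter (fun a => a.den = d))
        (fun b => a₀ * (L d * b)) ⟨b₁, mem_filter.mpr ⟨hb₁, hd₁⟩⟩
      rw [mem_filter] at hb
      refine ⟨b, fun _ => ⟨hb.1, hb.2, fun b' hb' hd' => ?_⟩⟩
      have := hmax b' (mem_filter.mpr ⟨hb', hd'⟩)
      rw [mul_sub]
      linarith
    · exact ⟨0, fun h' => absurd h' hd⟩
  choose β hβ using hsel
  set X := E.image (fun d => (β d, a₀)) with hX
  have hXm : ∀ x ∈ X, x.1 ∈ A ∧ x.2 = a₀ ∧ x.1.den ∈ E ∧ β x.1.den = x.1 := by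
    intro x hx
    rw [hX, mem_image] at hx
    obtain ⟨d, hd, rfl⟩ := hx
    obtain ⟨h1, h2, h3⟩ := hβ d (hED hd)
    refine ⟨h1, rfl, ?_, ?_⟩
    · simp only; rw [h2]; exact hd
    · simp only; rw [h2]
  have hXc : X.card = E.card := by
    rw [hX]
    apply card_image_of_injOn
    intro d hd d' hd' hdd
    simp only [Prod.mk.injEq, and_true] at hdd
    rw [← (hβ d (hED hd)).2.1, ← (hβ d' (hED hd')).2.1, hdd]
  have hdist : ∀ x ∈ P, ∀ y ∈ X, val L x ≠ val L y := by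
    intro x hx y hy hv
    obtain ⟨k1, k2, k3, k4⟩ := hXm y hy
    obtain ⟨hx1, hx2⟩ := hP x hx
    simp only [val] at hv
    obtain ⟨hd, z, hz, hL⟩ := h.eq x.1 x.2 y.1 y.2 hx1 hx2 k1 (by rw [k2]; exact ha₀) hv
    obtain ⟨k5, k6⟩ := hE _ k3
    have hx4 := k6 x hx hd
    have h5 := (hβ y.1.den (mem_image_of_mem _ k1)).2.2 x.1 hx1 hd
    rw [k4] at h5
    rw [hd, k2] at hv
    have h6 : L y.1.den * y.1 - L y.1.den * x.1 = x.2 - a₀ := by linarith
    rw [h6] at h5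
    have h7 : |x.2| < |a₀| := hx4.trans_lt k5
    rcases abs_cases a₀ with ⟨h8, h9⟩ | ⟨h8, h9⟩
    · rw [h8] at h7
      rw [abs_lt] at h7
      have h10 : 0 < a₀ := by linarith [h7.1, h7.2]
      nlinarith [h7.1, h7.2]
    · rw [h8] at h7
      rw [abs_lt] at h7
      nlinarith [h7.1, h7.2]
  have hXinj : ∀ x ∈ X, ∀ y ∈ X, val L x = val L y → x = y := by
    intro x hx y hy hv
    obtain ⟨k1, k2, k3, k4⟩ := hXm x hx
    obtain ⟨k1', k2', k3', k4'⟩ := hXm y hy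
    simp only [val] at hv
    obtain ⟨hd, -⟩ := h.eq x.1 x.2 y.1 y.2 k1 (by rw [k2]; exact ha₀) k1'
      (by rw [k2']; exact ha₀) hv
    refine Prod.ext ?_ (k2.trans k2'.symm)
    rw [← k4, ← k4', hd]
  have hdisj : Disjoint P X := by
    rw [disjoint_left]
    intro x hx hx'
    exact hdist x hx x hx' rfl
  have h1 := card_le A L (P ∪ X) (by
    intro x hx
    rcases mem_union.mp hx with hx | hx
    · exact ⟨(hP x hx).1, (hP x hx).2, h.mem _ (hP x hx).1⟩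
    · obtain ⟨k1, k2, k3, k4⟩ := hXm x hx
      exact ⟨k1, by rw [k2]; exact ha₀, h.mem _ k1⟩) (by
    intro x hx y hy hv
    rcases mem_union.mp hx with hx | hx
    · rcases mem_union.mp hy with hy | hy
      · exact hinj x hx y hy hv
      · exact absurd hv (hdist x hx y hy)
    · rcases mem_union.mp hy with hy | hy
      · exact absurd hv.symm (hdist y hy x hx)
      · exact hXinj x hx y hy hv)
  rwa [card_union_of_disjoint hdisj, hXc] at h1

theorem Sel.inj_full (h : Sel A q L) (x y : ℚ × ℚ) (hx : x ∈ (kb A L \ rb A L) ∪ ks A L)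
    (hy : y ∈ (kb A L \ rb A L) ∪ ks A L) (hv : val L x = val L y) : x = y := by
  have hks : ∀ x ∈ ks A L, x.1 ∈ A ∧ x.2 ∈ A ∧ |L x.1.den| < 1 ∧ x.1 - 1 ∉ A := by
    intro x hx
    rw [ks, mem_product, mem_filter, mem_sml] at hx
    exact ⟨hx.1.1.1, hx.2, hx.1.1.2, hx.1.2⟩
  have hkb : ∀ x ∈ kb A L \ rb A L, x.1 ∈ A ∧ x.2 ∈ A ∧ 1 ≤ |L x.1.den| := by
    intro x hx
    rw [mem_sdiff, mem_kb, mem_od, mem_big] at hx
    exact ⟨hx.1.1.1, hx.1.1.2.1, hx.1.2.1.2⟩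
  have hv' := hv
  simp only [val] at hv'
  rw [mem_union] at hx hy
  rcases hx with hx | hx
  · rcases hy with hy | hy
    · rw [mem_sdiff] at hx hy
      rcases h.coll x y (mem_kb.mp hx.1).1 (mem_kb.mp hy.1).1 hv with h1 | h1 | h1
      · exact h1
      · exfalso
        exact hx.2 (mem_rb.mpr ⟨hx.1, by rw [h1]; exact hy.1⟩)
      · exfalso
        exact hy.2 (mem_rb.mpr ⟨hy.1, by rw [h1]; exact hx.1⟩)
    · exfalso
      obtain ⟨a1, a2, a3⟩ := hkb x hx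
      obtain ⟨b1, b2, b3, b4⟩ := hks y hy
      obtain ⟨hd, -⟩ := h.eq x.1 x.2 y.1 y.2 a1 a2 b1 b2 hv'
      rw [← hd] at b3
      linarith
  · rcases hy with hy | hy
    · exfalso
      obtain ⟨a1, a2, a3⟩ := hkb y hy
      obtain ⟨b1, b2, b3, b4⟩ := hks x hx
      obtain ⟨hd, -⟩ := h.eq x.1 x.2 y.1 y.2 b1 b2 a1 a2 hv'
      rw [hd] at b3
      linarith
    · obtain ⟨a1, a2, a3, a4⟩ := hks x hx
      obtain ⟨b1, b2, b3, b4⟩ := hks y hy
      obtain ⟨hd, z, hz, hL⟩ := h.eq x.1 x.2 y.1 y.2 a1 a2 b1 b2 hv'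
      have h1 := h.le _ a1
      have h2 := h.le _ b1
      have h3 : |x.1| < 1 := h1.trans_lt a3
      have h4 : |y.1| < 1 := h2.trans_lt b3
      rw [abs_lt] at h3 h4
      have h5 : (z : ℚ) < 2 := by linarith [h3.2, h4.1]
      have h6 : (-2 : ℚ) < z := by linarith [h3.1, h4.2]
      have h7 : z < 2 := by exact_mod_cast h5
      have h8 : -2 < z := by exact_mod_cast h6
      have h9 : z = 0 ∨ z = 1 ∨ z = -1 := by omega
      rcases h9 with rfl | rfl | rfl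
      · simp only [Int.cast_zero, add_zero, mul_zero] at hz hL
        refine Prod.ext hz ?_
        linarith
      · exfalso
        apply a4
        simp only [Int.cast_one] at hz
        rw [hz, add_sub_cancel_right]
        exact b1
      · exfalso
        apply b4
        simp only [Int.cast_neg, Int.cast_one] at hz
        have : y.1 - 1 = x.1 := by linarith
        rw [this]
        exact a1

end

end Pool.Agent.Helper37.RS
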