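import Pool.Agent.Helper37.RS.Full

/-!
# The counts for sets of both signs
-/

set_option autoImplicit false

namespace Pool.Agent.Helper37.RS

open Finset
open scoped Pointwise

/-- the large denominators -/
def dbig (A : Finset ℚ) (L : ℕ → ℚ) : Finset ℕ := (A.image Rat.den).filter (fun d => 1 ≤ |L d|)

/-- the elements close to `0`, if `0` has a large multiplier -/
def inn (A : Finset ℚ) (L : ℕ → ℚ) : Finset ℚ :=
  A.filter (fun b => |b| < 1 ∧ b.den ≠ 1 ∧ 1 ≤ |L b.den| ∧ (0 : ℚ) ∈ big A L)

section

variable {A : Finset ℚ} {q : ℕ} {L : ℕ → ℚ}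

theorem Sel.mem_od_ne (h : Sel A q L) {b a : ℚ} (hb : b ∈ A) (ha : a ∈ A) (hd : a.den ≠ b.den)
    (hle : |a| ≤ |L b.den|) : (b, a) ∈ od A L := by
  rw [mem_od]
  refine ⟨hb, ha, Or.inl (mem_win.mpr ⟨ha, hle, ?_⟩)⟩
  intro h1
  apply hd
  simp only at h1
  rw [h1, Rat.neg_den, h.den b hb]

theorem Sel.od_cover (h : Sel A q L) (x y : ℚ) (hx : x ∈ A) (hy : y ∈ A) :
    (x, y) ∈ od A L ∨ (y, x) ∈ od A L := by
  rw [mem_od, mem_od]
  simp only
  have key : ∀ x y : ℚ, x ∈ A → y ∈ A → |x| ≤ |y| →
      (x ∈ win A L y.den ∨ (y = x ∧ y = -L y.den)) ∨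
      (y ∈ win A L x.den ∨ (x = y ∧ x = -L x.den)) := by
    intro x y hx hy hxy
    by_cases h2 : x = -L y.den
    · by_cases h3 : x = y
      · left; right
        exact ⟨h3.symm, by rw [← h3] at h2 ⊢; exact h2⟩
      · right; left
        have h4 : x.den = y.den := by rw [h2, Rat.neg_den, h.den y hy]
        have h5 := h.le y hy
        have h6 : |x| = |L y.den| := by rw [h2, abs_neg]
        rw [mem_win, h4]
        refine ⟨hy, h5, ?_⟩
        intro h7
        exact h3 (h2.trans h7.symm)
    · left; left
      exact mem_win.mpr ⟨hx, hxy.trans (h.le y hy), h2⟩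
  rcases le_total |x| |y| with h2 | h2
  · rcases key x y hx hy h2 with h3 | h3
    · exact Or.inr ⟨hy, hx, h3⟩
    · exact Or.inl ⟨hx, hy, h3⟩
  · rcases key y x hy hx h2 with h3 | h3
    · exact Or.inl ⟨hx, hy, h3⟩
    · exact Or.inr ⟨hy, hx, h3⟩

theorem Sel.kb_cover (h : Sel A q L) (x y : ℚ) (hx : x ∈ A) (hy : y ∈ A)
    (hxy : x ∈ big A L ∨ y ∈ big A L) : (x, y) ∈ kb A L ∨ (y, x) ∈ kb A L := by
  have key1 : ∀ x y : ℚ, x ∈ big A L → y ∈ sml A L → (x, y) ∈ kb A L := by
    intro x y hx hy
    have hx' := mem_big.mp hx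
    have hy' := mem_sml.mp hy
    have h1 : |y| < 1 := (h.le y hy'.1).trans_lt hy'.2
    rw [mem_kb, mem_od]
    refine ⟨⟨hx'.1, hy'.1, Or.inl (mem_win.mpr ⟨hy'.1, by linarith [hx'.2], ?_⟩)⟩, hx, ?_⟩
    · intro h2
      simp only at h2
      rw [h2, abs_neg] at h1
      linarith [hx'.2]
    · intro h2
      have h3 := (mem_big.mp h2.2.1).2
      simp only at h3
      linarith [hy'.2]
  by_cases hxb : x ∈ big A L
  · by_cases hyb : y ∈ big A L
    · have hx' := (mem_big.mp hxb).2
      have hy' := (mem_big.mp hyb).2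
      by_cases hd : x.den = y.den
      · rcases h.od_cover x y hx hy with h1 | h1
        · left
          exact mem_kb.mpr ⟨h1, hxb, fun h2 => h2.2.2.1 hd.symm⟩
        · right
          exact mem_kb.mpr ⟨h1, hyb, fun h2 => h2.2.2.1 hd⟩
      · by_cases hx1 : |x| < 1
        · by_cases hy1 : |y| < 1
          · have o1 : (x, y) ∈ od A L := h.mem_od_ne hx hy (Ne.symm hd) (by linarith)
            have o2 : (y, x) ∈ od A L := h.mem_od_ne hy hx hd (by linarith)
            by_cases hdr : drp A L x y
            · right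
              refine mem_kb.mpr ⟨o2, hyb, ?_⟩
              intro h2
              obtain ⟨-, -, -, c1⟩ := hdr
              obtain ⟨-, -, -, c2⟩ := h2
              simp only at c2
              rcases c1 with c1 | c1 | c1
              · linarith
              · rcases c2 with c2 | c2 | c2
                · linarith
                · linarith [c1.1, c2.2]
                · have := mul_neg_of_pos_of_neg c1.1 c1.2
                  linarith [c2.1]
              · rcases c2 with c2 | c2 | c2
                · linarith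
                · have := mul_neg_of_pos_of_neg c2.1 c2.2
                  linarith [c1.1]
                · linarith [c1.2, c2.2]
            · left
              exact mem_kb.mpr ⟨o1, hxb, hdr⟩
          · right
            exact mem_kb.mpr ⟨h.mem_od_ne hy hx hd (by linarith), hyb, fun h2 => hy1 h2.1⟩
        · by_cases hy1 : |y| < 1
          · left
            exact mem_kb.mpr ⟨h.mem_od_ne hx hy (Ne.symm hd) (by linarith), hxb,
              fun h2 => hx1 h2.1⟩
          · rcases le_total |x| |y| with h2 | h2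
            · right
              exact mem_kb.mpr ⟨h.mem_od_ne hy hx hd (h2.trans (h.le y hy)), hyb,
                fun h2 => hy1 h2.1⟩
            · left
              exact mem_kb.mpr ⟨h.mem_od_ne hx hy (Ne.symm hd) (h2.trans (h.le x hx)), hxb,
                fun h2 => hx1 h2.1⟩
    · left
      exact key1 x y hxb ((big_or_sml hy).resolve_left hyb)
  · have hyb := hxy.resolve_left hxb
    right
    exact key1 y x hyb ((big_or_sml hx).resolve_left hxb)

theorem Sel.card_kb (h : Sel A q L) : A.card * A.card + ((big A L).card +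
    ∑ d ∈ dbig A L, ((am A L d).card * (am A L d).card - (am A L d).card) + 2 * (inn A L).card)
      ≤ 2 * (kb A L).card + (sml A L).card * (sml A L).card := by
  classical
  set O := kb A L with hO
  set T := O.image Prod.swap with hT
  have hTc : T.card = O.card := card_image_of_injective _ Prod.swap_injective
  have hmT : ∀ x : ℚ × ℚ, x ∈ T ↔ x.swap ∈ O := by
    intro x
    rw [hT, mem_image]
    constructor
    · rintro ⟨y, hy, rfl⟩
      rwa [Prod.swap_swap]
    · intro hx
      exact ⟨x.swap, hx, Prod.swap_swap x⟩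
  have h1 : A ×ˢ A ⊆ (O ∪ T) ∪ sml A L ×ˢ sml A L := by
    rintro ⟨x, y⟩ hxy
    rw [mem_product] at hxy
    obtain ⟨hx, hy⟩ := hxy
    simp only at hx hy
    rw [mem_union, mem_union, hmT, Prod.swap_prod_mk, hO, mem_product]
    rcases big_or_sml (L := L) hx with h2 | h2
    · left
      exact h.kb_cover x y hx hy (Or.inl h2)
    · rcases big_or_sml (L := L) hy with h3 | h3
      · left
        exact h.kb_cover x y hx hy (Or.inr h3)
      · right
        exact ⟨h2, h3⟩
  set J1 := (big A L).diag with hJ1
  set J2 := (dbig A L).biUnion (fun d => (am A L d).offDiag) with hJ2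
  set J3 := inn A L ×ˢ ({0} : Finset ℚ) with hJ3
  set J4 := ({0} : Finset ℚ) ×ˢ inn A L with hJ4
  have hin : ∀ b ∈ inn A L, (b, (0 : ℚ)) ∈ O ∧ ((0 : ℚ), b) ∈ O := by
    intro b hb
    rw [inn, mem_filter] at hb
    obtain ⟨hb, hb1, hbd, hbL, h0⟩ := hb
    have h0' := mem_big.mp h0
    have hbb : b ∈ big A L := mem_big.mpr ⟨hb, hbL⟩
    constructor
    · refine mem_kb.mpr ⟨h.mem_od_ne hb h0'.1 (by simpa using Ne.symm hbd) ?_, hbb, ?_⟩
      · rw [abs_zero]; linarith
      · intro h2
        obtain ⟨-, -, -, c⟩ := h2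
        simp at c
        linarith
    · refine mem_kb.mpr ⟨h.mem_od_ne h0'.1 hb (by simpa using hbd) (by linarith [h0'.2]), h0, ?_⟩
      intro h2
      obtain ⟨-, -, -, c⟩ := h2
      simp at c
      linarith
  have h2 : (J1 ∪ J2) ∪ (J3 ∪ J4) ⊆ O ∩ T := by
    rintro ⟨x, y⟩ hxy
    rw [mem_inter, hmT, Prod.swap_prod_mk]
    rw [mem_union, mem_union, mem_union] at hxy
    rcases hxy with (hxy | hxy) | (hxy | hxy)
    · rw [hJ1, mem_diag] at hxy
      obtain ⟨hx, hxy⟩ := hxy
      simp only at hx hxy
      subst hxy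
      have hxA := (mem_big.mp hx).1
      have h3 : (x, x) ∈ O := by
        rcases h.kb_cover x x hxA hxA (Or.inl hx) with h4 | h4
        · exact h4
        · exact h4
      exact ⟨h3, h3⟩
    · rw [hJ2, mem_biUnion] at hxy
      obtain ⟨d, hd, hxy⟩ := hxy
      rw [dbig, mem_filter] at hd
      rw [mem_offDiag] at hxy
      obtain ⟨hx, hy, -⟩ := hxy
      simp only [am, mem_filter] at hx hy
      obtain ⟨hx, hxd, hx'⟩ := hx
      obtain ⟨hy, hyd, hy'⟩ := hy
      have h5 := h.le x hx
      have h6 := h.le y hy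
      rw [hxd] at h5
      rw [hyd] at h6
      constructor
      · refine mem_kb.mpr ⟨mem_od.mpr ⟨hx, hy, Or.inl ?_⟩, mem_big.mpr ⟨hx, ?_⟩, ?_⟩
        · simp only
          rw [hxd]
          exact mem_win.mpr ⟨hy, h6, hy'⟩
        · simp only
          rw [hxd]
          exact hd.2
        · intro h7
          exact h7.2.2.1 (hyd.trans hxd.symm)
      · refine mem_kb.mpr ⟨mem_od.mpr ⟨hy, hx, Or.inl ?_⟩, mem_big.mpr ⟨hy, ?_⟩, ?_⟩
        · simp only
          rw [hyd]
          exact mem_win.mpr ⟨hx, h5, hx'⟩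
        · simp only
          rw [hyd]
          exact hd.2
        · intro h7
          exact h7.2.2.1 (hxd.trans hyd.symm)
    · rw [hJ3, mem_product, mem_singleton] at hxy
      obtain ⟨hx, hy⟩ := hxy
      simp only at hx hy
      subst hy
      exact hin x hx
    · rw [hJ4, mem_product, mem_singleton] at hxy
      obtain ⟨hx, hy⟩ := hxy
      simp only at hx hy
      subst hx
      exact (hin y hy).symm
  have hsame : ∀ x ∈ J1 ∪ J2, x.1.den = x.2.den := by
    intro x hx
    rw [mem_union] at hx
    rcases hx with hx | hx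
    · rw [hJ1, mem_diag] at hx
      rw [hx.2]
    · rw [hJ2, mem_biUnion] at hx
      obtain ⟨d, -, hx⟩ := hx
      rw [mem_offDiag] at hx
      simp only [am, mem_filter] at hx
      rw [hx.1.2.1, hx.2.1.2.1]
  have hi1 : ∀ b ∈ inn A L, b.den ≠ 1 := fun b hb => (mem_filter.mp hb).2.2.1
  have h3 : ((J1 ∪ J2) ∪ (J3 ∪ J4)).card = (big A L).card +
      ∑ d ∈ dbig A L, ((am A L d).card * (am A L d).card - (am A L d).card) +
      2 * (inn A L).card := by
    rw [card_union_of_disjoint, card_union_of_disjoint, card_union_of_disjoint, hJ1, diag_card,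
      hJ2, card_biUnion, hJ3, hJ4, card_product, card_product, card_singleton]
    · simp only [offDiag_card]
      ring
    · intro d _ d' _ hdd
      rw [Function.onFun, disjoint_left]
      rintro ⟨x, y⟩ h1 h2
      rw [mem_offDiag] at h1 h2
      simp only [am, mem_filter] at h1 h2
      exact hdd (h1.1.2.1.symm.trans h2.1.2.1)
    · rw [disjoint_left]
      rintro ⟨x, y⟩ h1 h2
      rw [hJ3, mem_product, mem_singleton] at h1
      rw [hJ4, mem_product, mem_singleton] at h2
      have := hi1 x h1.1
      simp only at h2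
      rw [h2.1] at this
      exact this Rat.den_zero
    · rw [disjoint_left]
      rintro ⟨x, y⟩ h1 h2
      rw [hJ1, mem_diag] at h1
      rw [hJ2, mem_biUnion] at h2
      obtain ⟨d, -, h2⟩ := h2
      rw [mem_offDiag] at h2
      exact h2.2.2 h1.2
    · rw [disjoint_left]
      rintro ⟨x, y⟩ h1 h2
      have h3 := hsame _ h1
      simp only at h3
      rw [mem_union, hJ3, hJ4, mem_product, mem_product, mem_singleton, mem_singleton] at h2
      simp only at h2
      rcases h2 with h2 | h2
      · rw [h2.2, Rat.den_zero] at h3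
        exact hi1 x h2.1 h3
      · rw [h2.1, Rat.den_zero] at h3
        exact hi1 y h2.2 h3.symm
  have h4 := card_le_card h1
  have h5 := card_le_card h2
  have h6 := card_union_add_card_inter O T
  have h7 := card_union_le (O ∪ T) (sml A L ×ˢ sml A L)
  rw [card_product] at h4 h7
  rw [h3] at h5
  rw [hTc] at h6
  omega

/-- the pairs with small multipliers -/
theorem Sel.card_ks (h : Sel A q L) : (sml A L).card * A.card ≤ 2 * (ks A L).card := by
  classical
  have h1 : ((sml A L).filter (fun b => b - 1 ∈ A)).card ≤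
      ((sml A L).filter (fun b => b - 1 ∉ A)).card := by
    refine card_le_card_of_injOn (fun b => b - 1) ?_ ?_
    · intro b hb
      rw [mem_coe, mem_filter, mem_sml] at hb
      obtain ⟨⟨hb, hbL⟩, hb1⟩ := hb
      have h2 := h.le b hb
      rw [mem_coe, mem_filter, mem_sml]
      refine ⟨⟨hb1, by rw [den_sub_one]; exact hbL⟩, ?_⟩
      intro h3
      have h4 := h.le _ h3
      rw [den_sub_one, den_sub_one] at h4
      have h5 : |b| < 1 := h2.trans_lt hbL
      have h6 : |b - 1 - 1| < 1 := h4.trans_lt hbL
      rw [abs_lt] at h5 h6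
      linarith [h5.2, h6.1]
    · intro b _ b' _ hbb
      simp only at hbb
      linarith
  have h2 : ((sml A L).filter (fun b => b - 1 ∈ A)).card +
      ((sml A L).filter (fun b => b - 1 ∉ A)).card = (sml A L).card :=
    card_filter_add_card_filter_not _
  rw [ks, card_product]
  have h3 : (sml A L).card ≤ 2 * ((sml A L).filter (fun b => b - 1 ∉ A)).card := by omega
  calc (sml A L).card * A.card ≤
      2 * ((sml A L).filter (fun b => b - 1 ∉ A)).card * A.card := Nat.mul_le_mul_right _ h3
    _ = _ := by ring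

end

end Pool.Agent.Helper37.RS
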