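import Pool.Agent.Helper37.RS.Full2

/-!
# The counts of the steps
-/

set_option autoImplicit false

namespace Pool.Agent.Helper37.RS

open Finset
open scoped Pointwise

section

variable {A : Finset ℚ} {q : ℕ} {L : ℕ → ℚ}

theorem mem_st {b : ℚ} {d : ℕ} : b ∈ st A d ↔ b ∈ A ∧ b.den = d ∧ b - 1 ∈ A ∧
    ¬ (b - 1 < 0 ∧ 0 < b) := by simp [st]

theorem mem_up {b : ℚ} {d : ℕ} : b ∈ up A d ↔ b ∈ A ∧ b.den = d ∧ b - 1 ∈ A ∧
    (b - 1 < 0 ∧ 0 < b) := by simp [up]

theorem mem_bo {b : ℚ} {d : ℕ} : b ∈ bo A d ↔ b ∈ A ∧ b.den = d ∧ b - 1 ∉ A := by simp [bo]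

theorem mem_dbig {d : ℕ} : d ∈ dbig A L ↔ d ∈ A.image Rat.den ∧ 1 ≤ |L d| := by simp [dbig]

theorem cls_card (d : ℕ) : (A.filter (fun a => a.den = d)).card =
    (st A d).card + (up A d).card + (bo A d).card := by
  classical
  rw [← card_union_of_disjoint, ← card_union_of_disjoint]
  · congr 1
    ext b
    simp only [mem_union, mem_st, mem_up, mem_bo, mem_filter]
    tauto
  · rw [disjoint_left]
    intro b h1 h2
    rw [mem_union, mem_st, mem_up] at h1
    rw [mem_bo] at h2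
    tauto
  · rw [disjoint_left]
    intro b h1 h2
    rw [mem_st] at h1
    rw [mem_up] at h2
    tauto

theorem le_bo (d : ℕ) (T : Finset ℚ) (hT : ∀ t ∈ T, t ∈ A ∧ t.den = d)
    (hinj : Set.InjOn (Int.fract : ℚ → ℚ) T) : T.card ≤ (bo A d).card := by
  classical
  have h1 : bot (A.filter (fun a => a.den = d)) ⊆ bo A d := by
    intro b hb
    rw [bot, mem_filter, mem_filter] at hb
    rw [mem_bo]
    refine ⟨hb.1.1, hb.1.2, ?_⟩
    intro h2
    have h3 := hb.2 (b - 1) (mem_filter.mpr ⟨h2, by rw [den_sub_one]; exact hb.1.2⟩)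
      (Int.fract_sub_one b)
    linarith
  have h2 := card_le_card h1
  rw [bot_card] at h2
  have h3 : T.image Int.fract ⊆ (A.filter (fun a => a.den = d)).image Int.fract :=
    image_subset_image (fun t ht => mem_filter.mpr (hT t ht))
  have h4 := card_le_card h3
  rw [card_image_of_injOn hinj] at h4
  omega

theorem up_le_bo (d : ℕ) : (up A d).card ≤ (bo A d).card := by
  refine le_bo d _ (fun t ht => ⟨(mem_up.mp ht).1, (mem_up.mp ht).2.1⟩) ?_
  intro x hx y hy hxy
  have h1 := (mem_up.mp (mem_coe.mp hx)).2.2.2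
  have h2 := (mem_up.mp (mem_coe.mp hy)).2.2.2
  have e1 : Int.fract x = x := Int.fract_eq_self.mpr ⟨h1.2.le, by linarith [h1.1]⟩
  have e2 : Int.fract y = y := Int.fract_eq_self.mpr ⟨h2.2.le, by linarith [h2.1]⟩
  rw [e1, e2] at hxy
  exact hxy

theorem one_le_bo (d : ℕ) (hd : d ∈ A.image Rat.den) : 1 ≤ (bo A d).card := by
  obtain ⟨b, hb, hbd⟩ := mem_image.mp hd
  have := le_bo (A := A) d {b} (fun t ht => by rw [mem_singleton] at ht; rw [ht]; exact ⟨hb, hbd⟩)
    (by simp)
  simpa using this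

theorem up_den {b : ℚ} {d : ℕ} (hb : b ∈ up A d) : d ≠ 1 := by
  rintro rfl
  rw [mem_up] at hb
  obtain ⟨-, hd, -, h1, h2⟩ := hb
  have h3 : ((b.num : ℤ) : ℚ) = b := Rat.den_eq_one_iff b |>.mp hd
  rw [← h3] at h1 h2
  have h4 : b.num < 1 := by
    have : ((b.num : ℤ) : ℚ) < 1 := by linarith
    exact_mod_cast this
  have h5 : 0 < b.num := by exact_mod_cast h2
  omega

/-- the elements next to the steps across `0` -/
def upp (A : Finset ℚ) (d : ℕ) : Finset ℚ := up A d ∪ (up A d).image (fun b => b - 1)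

theorem upp_card (d : ℕ) : (upp A d).card = 2 * (up A d).card := by
  classical
  rw [upp, card_union_of_disjoint, card_image_of_injective]
  · ring
  · intro x y hxy
    simp only at hxy
    linarith
  · rw [disjoint_left]
    intro x hx hx'
    obtain ⟨y, hy, rfl⟩ := mem_image.mp hx'
    have h1 := (mem_up.mp hx).2.2.2
    have h2 := (mem_up.mp hy).2.2.2
    linarith [h1.2, h2.1]

theorem mem_upp {x : ℚ} {d : ℕ} (hx : x ∈ upp A d) : x ∈ A ∧ x.den = d ∧ |x| < 1 ∧ d ≠ 1 := by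
  rw [upp, mem_union] at hx
  rcases hx with hx | hx
  · have h0 := up_den hx
    rw [mem_up] at hx
    refine ⟨hx.1, hx.2.1, ?_, h0⟩
    rw [abs_lt]
    constructor <;> linarith [hx.2.2.2.1, hx.2.2.2.2]
  · obtain ⟨y, hy, rfl⟩ := mem_image.mp hx
    have h0 := up_den hy
    rw [mem_up] at hy
    refine ⟨hy.2.2.1, by rw [den_sub_one]; exact hy.2.1, ?_, h0⟩
    rw [abs_lt]
    constructor <;> linarith [hy.2.2.2.1, hy.2.2.2.2]

theorem Sel.Ld (h : Sel A q L) {d : ℕ} (hd : d ∈ A.image Rat.den) : L d ∈ A ∧ (L d).den = d := by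
  obtain ⟨b, hb, rfl⟩ := mem_image.mp hd
  exact ⟨h.mem b hb, h.den b hb⟩

theorem Sel.two_up (h : Sel A q L) (d : ℕ) (hd : d ∈ dbig A L) :
    2 * (up A d).card + 1 ≤ (A.filter (fun a => a.den = d)).card := by
  classical
  rw [mem_dbig] at hd
  obtain ⟨hd, hL⟩ := hd
  have h1 := h.Ld hd
  have h2 : L d ∉ upp A d := by
    intro h3
    have := (mem_upp h3).2.2.1
    linarith
  have h3 : insert (L d) (upp A d) ⊆ A.filter (fun a => a.den = d) := by
    intro x hx
    rw [mem_insert] at hx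
    rw [mem_filter]
    rcases hx with rfl | hx
    · exact h1
    · exact ⟨(mem_upp hx).1, (mem_upp hx).2.1⟩
  have h4 := card_le_card h3
  rwa [card_insert_of_notMem h2, upp_card] at h4

theorem big_card : (big A L).card = ∑ d ∈ dbig A L, (A.filter (fun a => a.den = d)).card := by
  classical
  rw [card_eq_sum_card_fiberwise (f := Rat.den) (t := dbig A L)]
  · refine sum_congr rfl fun d hd => ?_
    congr 1
    ext b
    simp only [big, mem_filter]
    constructor
    · rintro ⟨⟨h1, -⟩, h2⟩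
      exact ⟨h1, h2⟩
    · rintro ⟨h1, h2⟩
      refine ⟨⟨h1, ?_⟩, h2⟩
      rw [h2]
      exact (mem_dbig.mp hd).2
  · intro b hb
    rw [mem_coe, mem_big] at hb
    rw [mem_coe, mem_dbig]
    exact ⟨mem_image_of_mem _ hb.1, hb.2⟩

theorem Sel.big_ge (h : Sel A q L) : 2 * ∑ d ∈ dbig A L, (up A d).card + (dbig A L).card ≤
    (big A L).card := by
  rw [big_card, mul_sum, card_eq_sum_ones, ← sum_add_distrib]
  exact sum_le_sum fun d hd => h.two_up d hd

theorem inn_ge (h0 : (0 : ℚ) ∈ big A L) :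
    2 * ∑ d ∈ dbig A L, (up A d).card ≤ (inn A L).card := by
  classical
  have h1 : ((dbig A L).biUnion (fun d => upp A d)).card =
      2 * ∑ d ∈ dbig A L, (up A d).card := by
    rw [card_biUnion, mul_sum]
    · exact sum_congr rfl fun d _ => upp_card d
    · intro d _ d' _ hdd
      rw [Function.onFun, disjoint_left]
      intro x hx hx'
      exact hdd ((mem_upp hx).2.1.symm.trans (mem_upp hx').2.1)
  rw [← h1]
  refine card_le_card ?_
  intro x hx
  rw [mem_biUnion] at hx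
  obtain ⟨d, hd, hx⟩ := hx
  obtain ⟨k1, k2, k3, k4⟩ := mem_upp hx
  rw [mem_dbig] at hd
  rw [inn, mem_filter, k2]
  exact ⟨k1, k3, k4, hd.2, h0⟩

/-- the pairs left out at the steps across `0` -/
def rbu (A : Finset ℚ) (L : ℕ → ℚ) (d : ℕ) : Finset (ℚ × ℚ) :=
  (rb A L).filter (fun x => x.1 ∈ up A d)

theorem Sel.mem_rb' (h : Sel A q L) (x : ℚ × ℚ) (hx : x ∈ rb A L) :
    x.1 ∈ stp A x.1.den ∧ x.2 ∈ win A L x.1.den ∧ x.2 + L x.1.den ∈ win A L x.1.den := by
  apply h.mem_rm
  rw [mem_rb, mem_kb, mem_kb] at hx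
  rw [rm, mem_filter]
  exact ⟨hx.1.1, hx.2.1⟩

theorem Sel.card_rb (h : Sel A q L) : (rb A L).card ≤
    ∑ d ∈ A.image Rat.den, (st A d).card * (qq A L d).card + ∑ d ∈ dbig A L, (rbu A L d).card := by
  classical
  let g : ℚ × ℚ → ℚ × ℚ × ℚ := fun x =>
    (x.1, if 0 < L x.1.den then (x.2 + L x.1.den, x.2) else (x.2, x.2 + L x.1.den))
  have h0 : rb A L ⊆ (rb A L).filter (fun x => x.1 ∈ st A x.1.den) ∪
      (dbig A L).biUnion (fun d => rbu A L d) := by
    intro x hx
    obtain ⟨h1, h2, h3⟩ := h.mem_rb' x hx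
    rw [stp, mem_filter] at h1
    rw [mem_union, mem_filter, mem_biUnion]
    by_cases h4 : x.1 - 1 < 0 ∧ 0 < x.1
    · right
      refine ⟨x.1.den, ?_, ?_⟩
      · rw [mem_rb, mem_kb, mem_big] at hx
        rw [mem_dbig]
        exact ⟨mem_image_of_mem _ h1.1, hx.1.2.1.2⟩
      · rw [rbu, mem_filter]
        exact ⟨hx, mem_up.mpr ⟨h1.1, rfl, h1.2.2, h4⟩⟩
    · left
      exact ⟨hx, mem_st.mpr ⟨h1.1, rfl, h1.2.2, h4⟩⟩
  have h1 : ((rb A L).filter (fun x => x.1 ∈ st A x.1.den)).card ≤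
      ((A.image Rat.den).biUnion (fun d => st A d ×ˢ qq A L d)).card := by
    refine card_le_card_of_injOn g ?_ ?_
    · intro x hx
      rw [mem_coe, mem_filter] at hx
      obtain ⟨hx, hst⟩ := hx
      obtain ⟨h1, h2, h3⟩ := h.mem_rb' x hx
      have h4 := (mem_filter.mp h1).1
      rw [mem_coe, mem_biUnion]
      refine ⟨x.1.den, mem_image_of_mem _ h4, ?_⟩
      rw [mem_product]
      refine ⟨hst, ?_⟩
      simp only [g]
      split_ifs with h5
      · rw [mem_qq]
        refine ⟨h3, h2, ?_⟩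
        simp only
        rw [abs_of_pos h5]
        ring
      · rw [mem_qq]
        refine ⟨h2, h3, ?_⟩
        simp only
        push Not at h5
        rw [abs_of_nonpos h5]
        ring
    · intro x hx y hy hxy
      simp only [g, Prod.mk.injEq] at hxy
      obtain ⟨h5, h6⟩ := hxy
      rw [h5] at h6
      refine Prod.ext h5 ?_
      split_ifs at h6 with h7
      · exact (Prod.mk.inj h6).2
      · exact (Prod.mk.inj h6).1
  have h2 : ((A.image Rat.den).biUnion (fun d => st A d ×ˢ qq A L d)).card ≤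
      ∑ d ∈ A.image Rat.den, (st A d).card * (qq A L d).card :=
    card_biUnion_le.trans (sum_le_sum fun d _ => (card_product _ _).le)
  have h3 : ((dbig A L).biUnion (fun d => rbu A L d)).card ≤
      ∑ d ∈ dbig A L, (rbu A L d).card := card_biUnion_le
  have h4 := card_le_card h0
  have h5 := card_union_le ((rb A L).filter (fun x => x.1 ∈ st A x.1.den))
    ((dbig A L).biUnion (fun d => rbu A L d))
  omega

end

end Pool.Agent.Helper37.RS
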