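import Pool.Agent.Helper37.RS.Full3

/-!
# The pairs left out at the steps across `0`
-/

set_option autoImplicit false

namespace Pool.Agent.Helper37.RS

open Finset
open scoped Pointwise

/-- the elements that may be second components -/
def gset (A : Finset ℚ) (L : ℕ → ℚ) (d : ℕ) : Finset ℚ :=
  if L d < 0 then (A.filter (fun a => a.den = d)).erase (L d)
  else if d = 2 then ∅ else (am A L d).filter (fun a => a < 0)

/-- `0`, if it has a large multiplier -/
def zset (A : Finset ℚ) (L : ℕ → ℚ) : Finset ℚ := (big A L).filter (fun a => a = 0)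

theorem half_add (a b : ℚ) (ha : a.den = 2) (hb : b.den = 2) : ∃ z : ℤ, a + b = z := by
  have h1 : ∀ a : ℚ, a.den = 2 → Odd a.num := by
    intro a ha
    have h2 := a.reduced
    rw [ha] at h2
    rw [← Int.natAbs_odd]
    exact Nat.coprime_two_right.mp h2
  obtain ⟨k, hk⟩ := (h1 a ha).add_odd (h1 b hb)
  refine ⟨k, ?_⟩
  have h3 : a = a.num / 2 := by
    have := Rat.num_div_den a
    rw [ha] at this
    exact_mod_cast this.symm
  have h4 : b = b.num / 2 := by
    have := Rat.num_div_den b
    rw [hb] at this
    exact_mod_cast this.symm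
  have h5 : ((a.num : ℚ) + b.num) = k + k := by exact_mod_cast hk
  rw [h3, h4]
  linarith

section

variable {A : Finset ℚ} {q : ℕ} {L : ℕ → ℚ}

theorem mem_zset {a : ℚ} : a ∈ zset A L ↔ (0 : ℚ) ∈ big A L ∧ a = 0 := by
  rw [zset, mem_filter]
  constructor
  · rintro ⟨h1, rfl⟩
    exact ⟨h1, rfl⟩
  · rintro ⟨h1, rfl⟩
    exact ⟨h1, rfl⟩

theorem Sel.rbu_data (h : Sel A q L) (d : ℕ) (x : ℚ × ℚ) (hx : x ∈ rbu A L d) :
    x.1 ∈ up A d ∧ x.2 ∈ win A L d ∧ x.2 + L d ∈ win A L d ∧ ¬ drp A L x.1 x.2 ∧
      ¬ drp A L (x.1 - 1) (x.2 + L d) := by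
  rw [rbu, mem_filter] at hx
  obtain ⟨hx, hu⟩ := hx
  have hd := (mem_up.mp hu).2.1
  obtain ⟨h1, h2, h3⟩ := h.mem_rb' x hx
  rw [hd] at h2 h3
  rw [mem_rb, mem_kb, mem_kb] at hx
  have h4 := hx.2.2.2
  simp only [hd] at h4
  exact ⟨hu, h2, h3, hx.1.2.2, h4⟩

theorem Sel.card_rbu (h : Sel A q L) (d : ℕ) (hd : d ∈ dbig A L) : (rbu A L d).card ≤
    (up A d).card * ((sml A L).card + (gset A L d).card + (zset A L).card) := by
  classical
  have hd' := mem_dbig.mp hd
  have hLd := h.Ld hd'.1
  rcases Finset.eq_empty_or_nonempty (rbu A L d) with he | ⟨x₀, hx₀⟩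
  · rw [he, card_empty]
    exact Nat.zero_le _
  have hd1 : d ≠ 1 := up_den (h.rbu_data d x₀ hx₀).1
  have hgoal : (rbu A L d).card ≤ (up A d ×ˢ (sml A L ∪ gset A L d ∪ zset A L)).card := by
    have hzero : (0 : ℚ) ∈ A → (0 : ℚ) ∈ sml A L ∪ gset A L d ∪ zset A L := by
      intro h0
      rw [mem_union, mem_union, mem_zset]
      rcases big_or_sml (L := L) h0 with h1 | h1
      · exact Or.inr ⟨h1, rfl⟩
      · exact Or.inl (Or.inl h1)
    rcases lt_or_ge (L d) 0 with hneg | hpos
    · have habs : |L d| = -L d := abs_of_neg hneg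
      have hg : gset A L d = (A.filter (fun a => a.den = d)).erase (L d) := by
        rw [gset, if_pos hneg]
      have hL1 : L d < -1 := by
        have h1 := hd'.2
        rw [habs] at h1
        by_contra hcon
        push Not at hcon
        have h2 : L d = -1 := by linarith
        have h3 := hLd.2
        rw [h2] at h3
        have h4 : d = 1 := by rw [← h3]; rfl
        exact hd1 h4
      let φ : ℚ → ℚ := fun a => if a ∈ sml A L ∨ a = 0 then a else if a + L d ∈ sml A L then
        a + L d else if a.den = d then a else a + L d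
      have hφ : ∀ x ∈ rbu A L d, φ x.2 ∈ sml A L ∪ gset A L d ∪ zset A L ∧
          ((φ x.2 = x.2 ∧ 0 ≤ x.2) ∨ (φ x.2 = x.2 + L d ∧ x.2 + L d < 0)) := by
        intro x hx
        obtain ⟨h1, h2, h3, h4, h5⟩ := h.rbu_data d x hx
        rw [mem_win, habs] at h2 h3
        have k1 := abs_le.mp h2.2.1
        have k2 := abs_le.mp h3.2.1
        have k3 : 0 ≤ x.2 := by linarith [k2.1]
        have k4 : x.2 < -L d := lt_of_le_of_ne k1.2 h2.2.2
        have k5 : x.2 + L d < 0 := by linarith
        have hu := mem_up.mp h1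
        simp only [φ]
        split_ifs with c1 c2 c3
        · refine ⟨?_, Or.inl ⟨rfl, k3⟩⟩
          rcases c1 with c1 | c1
          · rw [mem_union, mem_union]; exact Or.inl (Or.inl c1)
          · rw [c1] at h2 ⊢
            exact hzero h2.1
        · refine ⟨?_, Or.inr ⟨rfl, k5⟩⟩
          rw [mem_union, mem_union]; exact Or.inl (Or.inl c2)
        · refine ⟨?_, Or.inl ⟨rfl, k3⟩⟩
          rw [mem_union, mem_union, hg, mem_erase, mem_filter]
          refine Or.inl (Or.inr ⟨by linarith, h2.1, c3⟩)
        · refine ⟨?_, Or.inr ⟨rfl, k5⟩⟩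
          push Not at c1
          have k6 : 0 < x.2 := lt_of_le_of_ne k3 (Ne.symm c1.2)
          rw [mem_union, mem_union, hg, mem_erase, mem_filter]
          refine Or.inl (Or.inr ⟨by linarith, h3.1, ?_⟩)
          by_contra c4
          have hb1 := (big_or_sml h2.1).resolve_right c1.1
          have hb2 := (big_or_sml h3.1).resolve_right c2
          have m1 : |x.2| ≤ |x.1| := by
            by_contra hcon
            push Not at hcon
            apply h4
            refine ⟨?_, hb1, by rw [hu.2.1]; exact c3, Or.inr (Or.inr ⟨mul_pos k6 hu.2.2.2.2, hcon⟩)⟩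
            rw [abs_lt]
            constructor <;> linarith [hu.2.2.2.1, hu.2.2.2.2]
          have m2 : |x.2 + L d| ≤ |x.1 - 1| := by
            by_contra hcon
            push Not at hcon
            apply h5
            refine ⟨?_, hb2, by rw [den_sub_one, hu.2.1]; exact c4,
              Or.inr (Or.inr ⟨mul_pos_of_neg_of_neg k5 hu.2.2.2.1, hcon⟩)⟩
            rw [abs_lt]
            constructor <;> linarith [hu.2.2.2.1, hu.2.2.2.2]
          rw [abs_of_pos k6, abs_of_pos hu.2.2.2.2] at m1
          rw [abs_of_neg k5, abs_of_neg hu.2.2.2.1] at m2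
          linarith
      refine card_le_card_of_injOn (fun x => (x.1, φ x.2)) ?_ ?_
      · intro x hx
        rw [mem_coe, mem_product]
        exact ⟨(h.rbu_data d x hx).1, (hφ x hx).1⟩
      · intro x hx y hy hxy
        have e1 := (hφ x hx).2
        have e2 := (hφ y hy).2
        simp only [Prod.mk.injEq] at hxy
        refine Prod.ext hxy.1 ?_
        rcases e1 with e1 | e1 <;> rcases e2 with e2 | e2
        · rw [← e1.1, ← e2.1]; exact hxy.2
        · exfalso; linarith [hxy.2, e1.1, e1.2, e2.1, e2.2]
        · exfalso; linarith [hxy.2, e1.1, e1.2, e2.1, e2.2]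
        · linarith [hxy.2, e1.1, e2.1]
    · have habs : |L d| = L d := abs_of_nonneg hpos
      have hL1 : 1 ≤ L d := by rw [← habs]; exact hd'.2
      refine card_le_card ?_
      intro x hx
      obtain ⟨h1, h2, h3, h4, h5⟩ := h.rbu_data d x hx
      rw [mem_win, habs] at h2 h3
      have k1 := abs_le.mp h2.2.1
      have k2 := abs_le.mp h3.2.1
      have k3 : x.2 ≤ 0 := by linarith [k2.2]
      have hu := mem_up.mp h1
      rw [mem_product]
      refine ⟨h1, ?_⟩
      rcases k3.eq_or_lt with k4 | k4
      · rw [k4] at h2 ⊢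
        exact hzero h2.1
      · rcases big_or_sml (L := L) h2.1 with hb | hs
        · have k5 : x.2.den = d := by
            by_contra hcon
            apply h4
            refine ⟨?_, hb, by rw [hu.2.1]; exact hcon, Or.inr (Or.inl ⟨hu.2.2.2.2, k4⟩)⟩
            rw [abs_lt]
            constructor <;> linarith [hu.2.2.2.1, hu.2.2.2.2]
          rw [mem_union, mem_union]
          left; right
          rw [gset, if_neg (not_lt.mpr hpos)]
          by_cases hd2 : d = 2
          · exfalso
            obtain ⟨z, hz⟩ := half_add x.2 (L d) (k5.trans hd2) (hLd.2.trans hd2)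
            have hz0 : z ≠ 0 := by
              rintro rfl
              rw [Int.cast_zero] at hz
              exact h2.2.2 (by linarith)
            have hz1 : (1 : ℚ) ≤ |x.2 + L d| := by
              rw [hz]
              have : (1 : ℤ) ≤ |z| := Int.one_le_abs hz0
              exact_mod_cast this
            have hzd : (x.2 + L d).den = 1 := by rw [hz]; exact Rat.den_intCast z
            apply h5
            refine ⟨?_, mem_big.mpr ⟨h3.1, hz1.trans (h.le _ h3.1)⟩, ?_, Or.inl hz1⟩
            · rw [abs_lt]
              constructor <;> linarith [hu.2.2.2.1, hu.2.2.2.2]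
            · rw [hzd, den_sub_one, hu.2.1, hd2]
              decide
          · rw [if_neg hd2, mem_filter, am, mem_filter]
            exact ⟨⟨h2.1, k5, h2.2.2⟩, k4⟩
        · rw [mem_union, mem_union]
          exact Or.inl (Or.inl hs)
  rw [card_product] at hgoal
  refine hgoal.trans (Nat.mul_le_mul_left _ ?_)
  exact (card_union_le _ _).trans (Nat.add_le_add_right (card_union_le _ _) _)

end

end Pool.Agent.Helper37.RS
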