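import Pool.Agent.Helper37.RS.Full4

/-!
# The inequality for each denominator
-/

set_option autoImplicit false

namespace Pool.Agent.Helper37.RS

open Finset
open scoped Pointwise

theorem ar1 (n x y β : ℕ) (h1 : n = x + y + β) (h2 : y ≤ β) (h3 : 1 ≤ y) :
    2 * y * (n - 1) + x * (x + 1) ≤ n * n - n := by
  obtain ⟨e, rfl⟩ := Nat.exists_eq_add_of_le h2
  obtain ⟨z, rfl⟩ := Nat.exists_eq_add_of_le h3
  obtain ⟨k, hk⟩ : ∃ k, n = k + 1 := ⟨n - 1, by omega⟩
  have h4 : k = x + 2 * z + 1 + e := by omega
  have h5 : n * n - n = n * k := by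
    rw [hk, Nat.mul_succ]; simp
  rw [h5]
  have h6 : n - 1 = k := by omega
  rw [h6, h1, h4]
  have : (x + (1 + z) + (1 + z + e)) * (x + 2 * z + 1 + e) =
      2 * (1 + z) * (x + 2 * z + 1 + e) + x * (x + 1) +
      (x * (2 * z + e) + e * (x + 2 * z + 1 + e)) := by ring
  omega

theorem ar2 (m g x y : ℕ) (h1 : g + y + 1 ≤ m) (h2 : x + 1 + y ≤ m) :
    2 * y * g + x * (x + 1) ≤ m * m - m := by
  obtain ⟨t, ht⟩ : ∃ t, m = y + t + 1 := ⟨m - y - 1, by omega⟩
  have h5 : m * m - m = m * (y + t) := by
    rw [ht, Nat.mul_succ]; simp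
  have h6 : g ≤ t := by omega
  have h7 : x ≤ t := by omega
  rw [h5, ht]
  calc 2 * y * g + x * (x + 1) ≤ 2 * y * t + t * (t + 1) :=
        Nat.add_le_add (Nat.mul_le_mul_left _ h6) (Nat.mul_le_mul h7 (by omega))
    _ ≤ 2 * y * t + t * (t + 1) + y * (y + 1) := Nat.le_add_right _ _
    _ = (y + t + 1) * (y + t) := by ring

theorem ar3 (m x : ℕ) (h : x + 1 ≤ m) : x * (x + 1) ≤ m * m - m := by
  have := ar2 m 0 x 0 (by omega) (by omega)
  omega

section

variable {A : Finset ℚ} {q : ℕ} {L : ℕ → ℚ}

theorem am_eq (d : ℕ) : am A L d = (A.filter (fun a => a.den = d)).erase (-L d) := by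
  ext a
  simp only [am, mem_erase, mem_filter]
  tauto

theorem Sel.neg_bo (h : Sel A q L) {d : ℕ} (hd : d ∈ dbig A L) (hm : -L d ∈ A) :
    -L d ∈ bo A d ∧ 0 < L d := by
  have hd' := mem_dbig.mp hd
  have hLd := h.Ld hd'.1
  obtain ⟨b, hb, rfl⟩ := mem_image.mp hd'.1
  have hpos : 0 < L b.den := by
    rcases lt_trichotomy (L b.den) 0 with h1 | h1 | h1
    · exact absurd hm (h.neg b hb h1)
    · have h2 := hd'.2
      rw [h1, abs_zero] at h2
      linarith
    · exact h1
  refine ⟨mem_bo.mpr ⟨hm, by rw [Rat.neg_den, hLd.2], ?_⟩, hpos⟩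
  intro h2
  have h3 := h.le _ h2
  rw [den_sub_one, Rat.neg_den, hLd.2, abs_of_pos hpos, abs_of_neg (by linarith)] at h3
  linarith

/-- the number of elements without a step, if minus the multiplier is in the set -/
theorem Sel.two_le (h : Sel A q L) {d : ℕ} (hd : d ∈ dbig A L) (hm : -L d ∈ A)
    (hZ : d = 1 → ∃ b ∈ bo A 1, b ≠ -L 1) : 2 ≤ (up A d).card + (bo A d).card := by
  classical
  have hd' := mem_dbig.mp hd
  have hLd := h.Ld hd'.1
  obtain ⟨hn, hpos⟩ := h.neg_bo hd hm
  have key : ∀ b ∈ up A d ∪ bo A d, b ≠ -L d → 2 ≤ (up A d).card + (bo A d).card := by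
    intro b hb hne
    have h1 : ({b, -L d} : Finset ℚ) ⊆ up A d ∪ bo A d := by
      intro t ht
      rw [mem_insert, mem_singleton] at ht
      rcases ht with rfl | rfl
      · exact hb
      · exact mem_union_right _ hn
    have h2 := card_le_card h1
    rw [card_pair hne] at h2
    exact h2.trans (card_union_le _ _)
  by_cases hd1 : d = 1
  · obtain ⟨b, hb, hne⟩ := hZ hd1
    rw [← hd1] at hb hne
    exact key b (mem_union_right _ hb) hne
  · obtain ⟨b₀, hb₀, hmin⟩ := exists_min_image (A.filter (fun a => a.den = d ∧ 0 < a)) id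
      ⟨L d, mem_filter.mpr ⟨hLd.1, hLd.2, hpos⟩⟩
    rw [mem_filter] at hb₀
    obtain ⟨hb₀, hd₀, hp₀⟩ := hb₀
    refine key b₀ ?_ (by linarith)
    rw [mem_union, mem_up, mem_bo]
    by_cases hs : b₀ - 1 ∈ A
    · left
      refine ⟨hb₀, hd₀, hs, ?_, hp₀⟩
      by_contra hcon
      push Not at hcon
      rcases hcon.eq_or_lt with h4 | h4
      · apply hd1
        rw [← hd₀, ← den_sub_one, ← h4]
        rfl
      · have := hmin (b₀ - 1) (mem_filter.mpr ⟨hs, by rw [den_sub_one]; exact hd₀, h4⟩)
        simp only [id] at this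
        linarith
    · right
      exact ⟨hb₀, hd₀, hs⟩

theorem Sel.am_ge (h : Sel A q L) {d : ℕ} (hd : d ∈ dbig A L)
    (hZ : d = 1 → -L 1 ∈ A → 0 < L 1 → ∃ b ∈ bo A 1, b ≠ -L 1) :
    (st A d).card + 1 ≤ (am A L d).card := by
  classical
  have hd' := mem_dbig.mp hd
  have hLd := h.Ld hd'.1
  have h1 := cls_card (A := A) d
  have h2 := one_le_bo (A := A) d hd'.1
  by_cases hm : -L d ∈ A
  · have h3 := h.neg_bo hd hm
    have h4 := h.two_le hd hm (fun hd1 => by rw [hd1] at hm h3; exact hZ hd1 hm h3.2)
    rw [am_eq, card_erase_of_mem (mem_filter.mpr ⟨hm, by rw [Rat.neg_den, hLd.2]⟩)]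
    omega
  · rw [am_eq, erase_eq_of_notMem (fun h3 => hm (mem_filter.mp h3).1)]
    omega

theorem Sel.per (h : Sel A q L) {d : ℕ} (hd : d ∈ dbig A L)
    (hZ : d = 1 → -L 1 ∈ A → 0 < L 1 → ∃ b ∈ bo A 1, b ≠ -L 1) :
    2 * (up A d).card * (gset A L d).card + (st A d).card * ((st A d).card + 1) ≤
      (am A L d).card * (am A L d).card - (am A L d).card := by
  classical
  have hd' := mem_dbig.mp hd
  have hLd := h.Ld hd'.1
  have h1 := cls_card (A := A) d
  have h2 := one_le_bo (A := A) d hd'.1
  have h3 := up_le_bo (A := A) d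
  have h4 := h.am_ge hd hZ
  rcases Nat.eq_zero_or_pos (up A d).card with h0 | h0
  · rw [h0]
    have := ar3 _ _ h4
    omega
  obtain ⟨u, hu⟩ := card_pos.mp h0
  have hd1 := up_den hu
  rcases lt_or_ge (L d) 0 with hneg | hpos
  · obtain ⟨b, hb, hbd⟩ := mem_image.mp hd'.1
    have hm : -L d ∉ A := by
      have := h.neg b hb
      rw [hbd] at this
      exact this hneg
    have h5 : am A L d = A.filter (fun a => a.den = d) := by
      rw [am_eq, erase_eq_of_notMem (fun h3 => hm (mem_filter.mp h3).1)]
    have h6 : (gset A L d).card = (A.filter (fun a => a.den = d)).card - 1 := by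
      rw [gset, if_pos hneg, card_erase_of_mem (mem_filter.mpr hLd)]
    rw [h5, h6]
    exact ar1 _ _ _ _ h1 h3 h0
  · have habs : |L d| = L d := abs_of_nonneg hpos
    have hL1 : 1 ≤ L d := by rw [← habs]; exact hd'.2
    by_cases hd2 : d = 2
    · rw [gset, if_neg (not_lt.mpr hpos), if_pos hd2, card_empty]
      have := ar3 _ _ h4
      omega
    · rw [gset, if_neg (not_lt.mpr hpos), if_neg hd2]
      apply ar2
      · have h5 : insert (L d) (up A d) ⊆ (am A L d).filter (fun a => ¬ a < 0) := by
          intro t ht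
          rw [mem_insert] at ht
          rw [mem_filter, am, mem_filter]
          rcases ht with rfl | ht
          · exact ⟨⟨hLd.1, hLd.2, by linarith⟩, by linarith⟩
          · rw [mem_up] at ht
            have := ht.2.2.2.2
            exact ⟨⟨ht.1, ht.2.1, by linarith⟩, by linarith⟩
        have h6 := card_le_card h5
        rw [card_insert_of_notMem] at h6
        · have h7 : ((am A L d).filter (fun a => a < 0)).card +
              ((am A L d).filter (fun a => ¬ a < 0)).card = (am A L d).card :=
            card_filter_add_card_filter_not _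
          omega
        · intro h7
          rw [mem_up] at h7
          linarith [h7.2.2.2.1]
      · by_cases hm : -L d ∈ A
        · have h5 : 2 ≤ (bo A d).card := by
            have h6 := le_bo (A := A) d {L d, -L d} (by
              intro t ht
              rw [mem_insert, mem_singleton] at ht
              rcases ht with rfl | rfl
              · exact hLd
              · exact ⟨hm, by rw [Rat.neg_den, hLd.2]⟩) (by
              intro s hs t ht hst
              rw [mem_coe, mem_insert, mem_singleton] at hs ht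
              have hne : Int.fract (L d) ≠ Int.fract (-L d) := by
                intro h7
                obtain ⟨z, hz⟩ := Int.fract_eq_fract.mp h7
                have h8 : L d = z / 2 := by linarith
                have h9 : (L d).den ∣ 2 := by
                  rw [h8]
                  have := Rat.den_dvd z 2
                  exact_mod_cast this
                rw [hLd.2] at h9
                rcases (Nat.dvd_prime Nat.prime_two).mp h9 with h10 | h10
                · exact hd1 h10
                · exact hd2 h10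
              rcases hs with rfl | rfl <;> rcases ht with rfl | rfl
              · rfl
              · exact absurd hst hne
              · exact absurd hst.symm hne
              · rfl)
            rwa [card_pair (by linarith)] at h6
          rw [am_eq, card_erase_of_mem (mem_filter.mpr ⟨hm, by rw [Rat.neg_den, hLd.2]⟩)]
          omega
        · rw [am_eq, erase_eq_of_notMem (fun h3 => hm (mem_filter.mp h3).1)]
          omega

end

end Pool.Agent.Helper37.RS
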