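import Pool.Agent.Helper37.RS.Full5

/-!
# Sets of rational numbers of both signs: the inequality
-/

set_option autoImplicit false

namespace Pool.Agent.Helper37.RS

open Finset
open scoped Pointwise

/-- the sums, split by the signs, with steps at `0` -/
theorem sums_le' (A : Finset ℚ) (P M : Finset ℚ) (hP : ∀ b ∈ P, 0 ≤ b ∧ b ∈ A ∧ b + 1 ∈ A)
    (hM : ∀ b ∈ M, b + 1 ≤ 0 ∧ b ∈ A ∧ b + 1 ∈ A) :
    2 * ((A + A).card : ℚ) + ((P.card : ℚ) ^ 2 - P.card) + ((M.card : ℚ) ^ 2 - M.card) +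
      2 * ((mx A).card - (A.filter (fun a => 0 ≤ a) + A.filter (fun a => a ≤ 0)).card)
      ≤ (A.card : ℚ) * (A.card + 1) := by
  classical
  set Ap := A.filter (fun a => 0 < a) with hAp
  set Am := A.filter (fun a => a < 0) with hAm
  set Az := A.filter (fun a => a = 0) with hAz
  set P' := P.erase 0 with hP'
  set M' := M.erase (-1) with hM'
  have hPm : ∀ b ∈ P', 0 < b ∧ b ∈ A ∧ b + 1 ∈ A := by
    intro b hb
    rw [hP', mem_erase] at hb
    have := hP b hb.2
    exact ⟨lt_of_le_of_ne this.1 (Ne.symm hb.1), this.2⟩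
  have hMm : ∀ b ∈ M', b + 1 < 0 ∧ b ∈ A ∧ b + 1 ∈ A := by
    intro b hb
    rw [hM', mem_erase] at hb
    have := hM b hb.2
    refine ⟨lt_of_le_of_ne this.1 ?_, this.2⟩
    intro h1
    exact hb.1 (by linarith)
  have h1 := card_add_steps Ap P' (fun b hb => ⟨mem_filter.mpr ⟨(hPm b hb).2.1, (hPm b hb).1⟩,
    mem_filter.mpr ⟨(hPm b hb).2.2, by linarith [(hPm b hb).1]⟩⟩)
  have h2 := card_add_steps Am M' (fun b hb => ⟨mem_filter.mpr ⟨(hMm b hb).2.1,
    by linarith [(hMm b hb).1]⟩, mem_filter.mpr ⟨(hMm b hb).2.2, (hMm b hb).1⟩⟩)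
  set X := Ap + Ap with hX
  set Y := Am + Am with hY
  set Z := A.filter (fun a => 0 ≤ a) + A.filter (fun a => a ≤ 0) with hZ
  have h3 : A + A ⊆ (X ∪ Y) ∪ Z := by
    intro w hw
    obtain ⟨x, hx, y, hy, rfl⟩ := mem_add.mp hw
    rw [mem_union, mem_union]
    rcases lt_or_ge 0 x with h4 | h4
    · rcases lt_or_ge 0 y with h5 | h5
      · left; left
        exact add_mem_add (mem_filter.mpr ⟨hx, h4⟩) (mem_filter.mpr ⟨hy, h5⟩)
      · right
        exact add_mem_add (mem_filter.mpr ⟨hx, h4.le⟩) (mem_filter.mpr ⟨hy, h5⟩)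
    · rcases le_or_gt 0 y with h5 | h5
      · right
        rw [add_comm x y]
        exact add_mem_add (mem_filter.mpr ⟨hy, h5⟩) (mem_filter.mpr ⟨hx, h4⟩)
      · rcases h4.eq_or_lt with h6 | h6
        · right
          exact add_mem_add (mem_filter.mpr ⟨hx, h6.ge⟩) (mem_filter.mpr ⟨hy, h5.le⟩)
        · left; right
          exact add_mem_add (mem_filter.mpr ⟨hx, h6⟩) (mem_filter.mpr ⟨hy, h5⟩)
  have hXpos : ∀ w ∈ X, 0 < w := by
    intro w hw
    obtain ⟨x, hx, y, hy, rfl⟩ := mem_add.mp hw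
    have h4 := (mem_filter.mp hx).2
    have h5 := (mem_filter.mp hy).2
    linarith
  have hYneg : ∀ w ∈ Y, w < 0 := by
    intro w hw
    obtain ⟨x, hx, y, hy, rfl⟩ := mem_add.mp hw
    have h4 := (mem_filter.mp hx).2
    have h5 := (mem_filter.mp hy).2
    linarith
  have hk1 : (0 : ℚ) ∈ P → P'.card ≤ (X ∩ Z).card := by
    intro h0
    have h0' := hP 0 h0
    rw [zero_add] at h0'
    refine card_le_card_of_injOn (fun b => b + 1) ?_ ?_
    · intro b hb
      have hb' := hPm b (mem_coe.mp hb)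
      rw [mem_coe, mem_inter]
      constructor
      · exact add_mem_add (mem_filter.mpr ⟨hb'.2.1, hb'.1⟩) (mem_filter.mpr ⟨h0'.2.2, one_pos⟩)
      · refine mem_add.mpr ⟨b + 1, mem_filter.mpr ⟨hb'.2.2, by linarith [hb'.1]⟩, 0,
          mem_filter.mpr ⟨h0'.2.1, le_refl _⟩, add_zero _⟩
    · intro b _ b' _ hbb
      simp only at hbb
      linarith
  have hk2 : (-1 : ℚ) ∈ M → M'.card ≤ (Y ∩ Z).card := by
    intro h0
    have h0' := hM (-1) h0
    have e0 : (-1 : ℚ) + 1 = 0 := by norm_num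
    rw [e0] at h0'
    refine card_le_card_of_injOn (fun b => b) ?_ ?_
    · intro b hb
      have hb' := hMm b (mem_coe.mp hb)
      rw [mem_coe, mem_inter]
      constructor
      · refine mem_add.mpr ⟨b + 1, mem_filter.mpr ⟨hb'.2.2, hb'.1⟩, -1,
          mem_filter.mpr ⟨h0'.2.1, by norm_num⟩, by ring⟩
      · refine mem_add.mpr ⟨0, mem_filter.mpr ⟨h0'.2.2, le_refl _⟩, b,
          mem_filter.mpr ⟨hb'.2.1, by linarith [hb'.1]⟩, zero_add _⟩
    · intro b _ b' _ hbb
      exact hbb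
  have h4 : (A + A).card + ((X ∩ Z).card + (Y ∩ Z).card) ≤ X.card + Y.card + Z.card := by
    have e1 := card_le_card h3
    have e2 := card_union_add_card_inter (X ∪ Y) Z
    have e3 := card_union_le X Y
    have e4 : (X ∩ Z) ∪ (Y ∩ Z) ⊆ (X ∪ Y) ∩ Z := by
      intro w hw
      rw [mem_union, mem_inter, mem_inter] at hw
      rw [mem_inter, mem_union]
      tauto
    have e5 := card_le_card e4
    rw [card_union_of_disjoint] at e5
    · omega
    · rw [disjoint_left]
      intro w hw hw'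
      have := hXpos w (mem_inter.mp hw).1
      have := hYneg w (mem_inter.mp hw').1
      linarith
  have h5 : (A.filter (fun a => 0 ≤ a)).card = Ap.card + Az.card := by
    rw [← card_union_of_disjoint]
    · congr 1
      ext a
      simp only [hAp, hAz, mem_union, mem_filter]
      constructor
      · rintro ⟨h6, h7⟩
        rcases h7.eq_or_lt with h8 | h8
        · exact Or.inr ⟨h6, h8.symm⟩
        · exact Or.inl ⟨h6, h8⟩
      · rintro (⟨h6, h7⟩ | ⟨h6, h7⟩)
        · exact ⟨h6, h7.le⟩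
        · exact ⟨h6, h7.ge⟩
    · rw [disjoint_left]
      intro a h6 h7
      simp only [hAp, hAz, mem_filter] at h6 h7
      linarith [h6.2, h7.2]
  have h6 : (A.filter (fun a => a ≤ 0)).card = Am.card + Az.card := by
    rw [← card_union_of_disjoint]
    · congr 1
      ext a
      simp only [hAm, hAz, mem_union, mem_filter]
      constructor
      · rintro ⟨h6, h7⟩
        rcases h7.eq_or_lt with h8 | h8
        · exact Or.inr ⟨h6, h8⟩
        · exact Or.inl ⟨h6, h8⟩
      · rintro (⟨h6, h7⟩ | ⟨h6, h7⟩)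
        · exact ⟨h6, h7.le⟩
        · exact ⟨h6, h7.le⟩
    · rw [disjoint_left]
      intro a h6 h7
      simp only [hAm, hAz, mem_filter] at h6 h7
      linarith [h6.2, h7.2]
  have h7 : A.card = Ap.card + Am.card + Az.card := by
    have h8 : A = Ap ∪ A.filter (fun a => a ≤ 0) := by
      ext a
      simp only [hAp, mem_union, mem_filter]
      constructor
      · intro h6
        rcases lt_or_ge 0 a with h9 | h9
        · exact Or.inl ⟨h6, h9⟩
        · exact Or.inr ⟨h6, h9⟩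
      · rintro (h6 | h6)
        · exact h6.1
        · exact h6.1
    rw [add_assoc, ← h6, ← card_union_of_disjoint, ← h8]
    rw [disjoint_left]
    intro a h6 h7
    simp only [hAp, mem_filter] at h6 h7
    linarith [h6.2, h7.2]
  have h8 : (Az.card : ℚ) ^ 2 = Az.card := by
    have h9 : Az.card ≤ 1 := zero_card A
    rcases Nat.le_one_iff_eq_zero_or_eq_one.mp h9 with h10 | h10
    · rw [h10]; simp
    · rw [h10]; simp
  have h9 : (mx A).card = (Ap.card + Az.card) * (Am.card + Az.card) := by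
    rw [mx, card_product, h5, h6]
  have e1 : 2 * (X.card : ℚ) + ((P'.card : ℚ) ^ 2 - P'.card) ≤
      (Ap.card : ℚ) * (Ap.card + 1) := by
    rw [← cast_pred]
    exact_mod_cast h1
  have e2 : 2 * (Y.card : ℚ) + ((M'.card : ℚ) ^ 2 - M'.card) ≤
      (Am.card : ℚ) * (Am.card + 1) := by
    rw [← cast_pred]
    exact_mod_cast h2
  have e3 : ((A + A).card : ℚ) + ((X ∩ Z).card + (Y ∩ Z).card) ≤
      X.card + Y.card + Z.card := by exact_mod_cast h4
  have e4 : (P.card : ℚ) ^ 2 - P.card ≤ (P'.card : ℚ) ^ 2 - P'.card + 2 * (X ∩ Z).card := by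
    by_cases h0 : (0 : ℚ) ∈ P
    · have e5 : ((P'.card : ℚ)) ≤ (X ∩ Z).card := by exact_mod_cast hk1 h0
      have e6 : (P.card : ℚ) = P'.card + 1 := by
        rw [hP']
        have := card_erase_add_one h0
        exact_mod_cast this.symm
      rw [e6]
      nlinarith
    · have e6 : P' = P := by rw [hP', erase_eq_of_notMem h0]
      rw [e6]
      have : (0 : ℚ) ≤ (X ∩ Z).card := Nat.cast_nonneg _
      linarith
  have e5 : (M.card : ℚ) ^ 2 - M.card ≤ (M'.card : ℚ) ^ 2 - M'.card + 2 * (Y ∩ Z).card := by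
    by_cases h0 : (-1 : ℚ) ∈ M
    · have e5 : ((M'.card : ℚ)) ≤ (Y ∩ Z).card := by exact_mod_cast hk2 h0
      have e6 : (M.card : ℚ) = M'.card + 1 := by
        rw [hM']
        have := card_erase_add_one h0
        exact_mod_cast this.symm
      rw [e6]
      nlinarith
    · have e6 : M' = M := by rw [hM', erase_eq_of_notMem h0]
      rw [e6]
      have : (0 : ℚ) ≤ (Y ∩ Z).card := Nat.cast_nonneg _
      linarith
  rw [h7, h9]
  push_cast
  nlinarith

section

variable {A : Finset ℚ} {q : ℕ} {L : ℕ → ℚ}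

/-- the last step -/
theorem Sel.finish (h : Sel A q L) (σ : ℕ → ℕ) (E S : ℕ) (P M : Finset ℚ)
    (hP : ∀ b ∈ P, 0 ≤ b ∧ b ∈ A ∧ b + 1 ∈ A) (hM : ∀ b ∈ M, b + 1 ≤ 0 ∧ b ∈ A ∧ b + 1 ∈ A)
    (huv : P.card + M.card = ∑ d ∈ A.image Rat.den, σ d)
    (hE : ((A.image Rat.den).filter (fun d => 0 < σ d)).card ≤ E + 1)
    (hS : (A.card : ℚ) * A.card + (A.card + ∑ d ∈ A.image Rat.den, (σ d : ℚ) * (σ d + 1)) + 2 * E
      ≤ 2 * S + 2 * ∑ d ∈ A.image Rat.den, (σ d : ℚ) * (qq A L d).card) :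
    (A + A).card ≤ S := by
  classical
  set D := A.image Rat.den with hD
  rcases Nat.eq_zero_or_pos (∑ d ∈ D, σ d) with h0 | h0
  · have h1 : ∑ d ∈ D, (σ d : ℚ) * (qq A L d).card = 0 := by
      rw [sum_eq_zero_iff] at h0
      exact sum_eq_zero fun d hd => by rw [h0 d hd]; simp
    have h1' : ∑ d ∈ D, (σ d : ℚ) * (σ d + 1) = 0 := by
      rw [sum_eq_zero_iff] at h0
      exact sum_eq_zero fun d hd => by rw [h0 d hd]; simp
    have h2 : 2 * ((A + A).card : ℚ) ≤ (A.card : ℚ) * (A.card + 1) := by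
      exact_mod_cast card_add_self A
    rw [h1, h1'] at hS
    have h3 : (0 : ℚ) ≤ E := Nat.cast_nonneg E
    have h4 : ((A + A).card : ℚ) ≤ S := by linarith
    exact_mod_cast h4
  · have hmix := h.mixed (fun d => 2 * (σ d : ℚ) / (∑ d ∈ D, (σ d : ℚ) + σ d))
      (fun C hC m hm => weight_le D (fun d => (σ d : ℚ)) (fun d => Nat.cast_nonneg _)
          (by exact_mod_cast h0) C hC m hm)
    have har := arith D σ (fun d => (qq A L d).card) P.card M.card E huv h0 hE
    have hsum := sums_le' A P M hP hM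
    have g4 : ((P.card : ℚ) + M.card) = ∑ d ∈ D, (σ d : ℚ) := by exact_mod_cast huv
    have g5 : ∑ d ∈ D, (σ d : ℚ) * (σ d + 1) =
        ∑ d ∈ D, (σ d : ℚ) ^ 2 + ∑ d ∈ D, (σ d : ℚ) := by
      rw [← sum_add_distrib]
      exact sum_congr rfl fun d _ => by ring
    have g6 : ∑ d ∈ D, ((σ d : ℚ) ^ 2 - 2 * σ d * (qq A L d).card +
      2 * (σ d : ℚ) / (∑ d ∈ D, (σ d : ℚ) + σ d) *
        (((qq A L d).card : ℚ) * ((qq A L d).card - 1))) =
        ∑ d ∈ D, (σ d : ℚ) ^ 2 -
        2 * ∑ d ∈ D, (σ d : ℚ) * (qq A L d).card +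
        ∑ d ∈ D, 2 * (σ d : ℚ) /
          (∑ d ∈ D, (σ d : ℚ) + σ d) *
          (((qq A L d).card : ℚ) * ((qq A L d).card - 1)) := by
      rw [sum_add_distrib, sum_sub_distrib, mul_sum]
      congr 2
      exact sum_congr rfl fun d _ => by ring
    rw [g6] at har
    rw [g5] at hS
    have g7 : ((A + A).card : ℚ) ≤ S := by linarith
    exact_mod_cast g7

/-- the steps, counted by the signs -/
theorem st_sum (A : Finset ℚ) : (A.filter (fun b => 0 ≤ b ∧ b + 1 ∈ A)).card +
    (A.filter (fun b => b + 1 ≤ 0 ∧ b + 1 ∈ A)).card =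
      ∑ d ∈ A.image Rat.den, (st A d).card := by
  classical
  have h1 : ∑ d ∈ A.image Rat.den, (st A d).card =
      (A.filter (fun b => b - 1 ∈ A ∧ ¬ (b - 1 < 0 ∧ 0 < b))).card := by
    rw [card_eq_sum_card_fiberwise (f := Rat.den) (t := A.image Rat.den)
      (fun x hx => mem_image_of_mem _ (mem_filter.mp hx).1)]
    refine sum_congr rfl fun d _ => ?_
    congr 1
    ext b
    simp only [st, mem_filter]
    tauto
  rw [h1, ← card_union_of_disjoint]
  · refine card_bij (fun b _ => b + 1) ?_ ?_ ?_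
    · intro b hb
      rw [mem_union, mem_filter, mem_filter] at hb
      rw [mem_filter, add_sub_cancel_right]
      rcases hb with hb | hb
      · exact ⟨hb.2.2, hb.1, fun h => by linarith [h.1, hb.2.1]⟩
      · exact ⟨hb.2.2, hb.1, fun h => by linarith [h.2, hb.2.1]⟩
    · intro b _ b' _ hbb
      linarith
    · intro b hb
      rw [mem_filter] at hb
      refine ⟨b - 1, ?_, by ring⟩
      rw [mem_union, mem_filter, mem_filter, sub_add_cancel]
      by_cases h5 : 0 ≤ b - 1
      · exact Or.inl ⟨hb.2.1, h5, hb.1⟩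
      · right
        refine ⟨hb.2.1, ?_, hb.1⟩
        by_contra h6
        push Not at h5 h6
        exact hb.2.2 ⟨h5, h6⟩
  · rw [disjoint_left]
    intro b h5 h6
    rw [mem_filter] at h5 h6
    linarith [h5.2.1, h6.2.1]

/-- the denominators with steps are large -/
theorem Sel.st_big (h : Sel A q L) {d : ℕ} (hd : 0 < (st A d).card) : 1 ≤ |L d| := by
  obtain ⟨b, hb⟩ := card_pos.mp hd
  rw [mem_st] at hb
  obtain ⟨hb, hbd, hb1, hb2⟩ := hb
  have h1 := h.le b hb
  have h2 := h.le _ hb1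
  rw [den_sub_one] at h2
  rw [hbd] at h1 h2
  by_cases h3 : b - 1 < 0
  · have h4 : b ≤ 0 := by
      by_contra hcon
      push Not at hcon
      exact hb2 ⟨h3, hcon⟩
    rw [abs_of_neg h3] at h2
    linarith
  · push Not at h3
    rw [abs_of_nonneg (by linarith)] at h1
    linarith

end

end Pool.Agent.Helper37.RS
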