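import Pool.Agent.Helper37.RS.Full6

/-!
# Sets of rational numbers of both signs: the count of the values
-/

set_option autoImplicit false

namespace Pool.Agent.Helper37.RS

open Finset
open scoped Pointwise

section

variable {A : Finset ℚ} {q : ℕ} {L : ℕ → ℚ}

theorem zset_card : (zset A L).card ≤ 1 := by
  refine card_le_one.mpr ?_
  intro a ha b hb
  rw [(mem_zset.mp ha).2, (mem_zset.mp hb).2]

/-- the number of sums over the steps across `0` -/
def yy (A : Finset ℚ) (L : ℕ → ℚ) : ℕ := ∑ d ∈ dbig A L, (up A d).card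

theorem zset_inn : (zset A L).card * (2 * yy A L) ≤ (inn A L).card := by
  rcases Nat.eq_zero_or_pos (zset A L).card with h0 | h0
  · rw [h0]; simp
  · obtain ⟨z, hz⟩ := card_pos.mp h0
    have h1 := inn_ge (mem_zset.mp hz).1
    have h2 : (zset A L).card = 1 := le_antisymm zset_card h0
    rw [h2, one_mul]
    exact h1

theorem card_split : A.card = (big A L).card + (sml A L).card := by
  classical
  rw [← card_union_of_disjoint]
  · congr 1
    ext a
    rw [mem_union]
    exact ⟨fun ha => big_or_sml ha, fun ha => ha.elim (fun h => (mem_big.mp h).1)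
      (fun h => (mem_sml.mp h).1)⟩
  · rw [disjoint_left]
    intro a h1 h2
    linarith [(mem_big.mp h1).2, (mem_sml.mp h2).2]

/-- the count of the values -/
theorem Sel.count (h : Sel A q L) (δ : ℕ)
    (hδ : ∑ d ∈ dbig A L, (2 * (up A d).card * (gset A L d).card +
      (st A d).card * ((st A d).card + 1)) ≤
      ∑ d ∈ dbig A L, ((am A L d).card * (am A L d).card - (am A L d).card) + δ)
    (a₀ : ℚ) (ha₀ : a₀ ∈ A) :
    (A.card : ℚ) * A.card + (A.card + ∑ d ∈ A.image Rat.den, ((st A d).card : ℚ) *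
      ((st A d).card + 1)) + 2 * ((dbig A L).filter (fun d => |L d| < |a₀|)).card +
      (2 * (inn A L).card - 2 * ((zset A L).card * yy A L)) +
      (sml A L).card * ((big A L).card - 2 * yy A L - 1) +
      (2 * (ks A L).card - (sml A L).card * A.card) ≤
      2 * (A * A + A).card + 2 * ∑ d ∈ A.image Rat.den, ((st A d).card : ℚ) * (qq A L d).card
      + δ := by
  classical
  set D := A.image Rat.den with hD
  set P₀ := (kb A L \ rb A L) ∪ ks A L with hP₀
  set E := (dbig A L).filter (fun d => |L d| < |a₀|) with hE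
  have hrk : rb A L ⊆ kb A L := filter_subset _ _
  have hdis : Disjoint (kb A L \ rb A L) (ks A L) := by
    rw [disjoint_left]
    intro x hx hx'
    rw [mem_sdiff, mem_kb, mem_big] at hx
    rw [ks, mem_product, mem_filter, mem_sml] at hx'
    linarith [hx.1.2.1.2, hx'.1.1.2]
  have hP₀c : P₀.card + (rb A L).card = (kb A L).card + (ks A L).card := by
    rw [hP₀, card_union_of_disjoint hdis]
    have := card_sdiff_add_card_eq_card hrk
    omega
  have hv := h.values_gen P₀ (by
    intro x hx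
    rw [hP₀, mem_union, mem_sdiff, mem_kb, mem_od, ks, mem_product, mem_filter, mem_sml] at hx
    rcases hx with hx | hx
    · exact ⟨hx.1.1.1, hx.1.1.2.1⟩
    · exact ⟨hx.1.1.1, hx.2⟩) (fun x hx y hy => h.inj_full x y hx hy) a₀ ha₀ E (by
    intro d hd
    rw [hE, mem_filter, mem_dbig] at hd
    exact hd.1.1) (by
    intro d hd
    rw [hE, mem_filter, mem_dbig] at hd
    refine ⟨hd.2, ?_⟩
    intro x hx hxd
    rw [hP₀, mem_union, mem_sdiff, mem_kb, mem_od, ks, mem_product, mem_filter, mem_sml] at hx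
    rcases hx with hx | hx
    · rcases hx.1.1.2.2 with h3 | ⟨h3, -⟩
      · rw [hxd] at h3
        exact (mem_win.mp h3).2.1
      · rw [← h3, ← hxd]; exact h.le _ hx.1.1.1
    · exfalso
      rw [hxd] at hx
      linarith [hx.1.1.2, hd.1.2])
  have hσ : ∀ d, d ∉ dbig A L → d ∈ D → (st A d).card = 0 := by
    intro d hd hdD
    by_contra hcon
    exact hd (mem_dbig.mpr ⟨hdD, h.st_big (Nat.pos_of_ne_zero hcon)⟩)
  have hsub : dbig A L ⊆ D := filter_subset _ _
  have n1 := h.card_kb
  have n3 := h.card_rb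
  have n4 : ∑ d ∈ dbig A L, (rbu A L d).card ≤ ∑ d ∈ dbig A L,
      (up A d).card * ((sml A L).card + (gset A L d).card + (zset A L).card) :=
    sum_le_sum fun d hd => h.card_rbu d hd
  have n8 := card_split (A := A) (L := L)
  have n9 : ∑ d ∈ D, ((st A d).card : ℚ) * ((st A d).card + 1) =
      ∑ d ∈ dbig A L, ((st A d).card : ℚ) * ((st A d).card + 1) := by
    symm
    apply sum_subset hsub
    intro d hd hd'
    rw [hσ d hd' hd]
    simp
  have c0 : (P₀.card : ℚ) + (rb A L).card = (kb A L).card + (ks A L).card := by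
    exact_mod_cast hP₀c
  have c1 : (A.card : ℚ) * A.card + ((big A L).card + ∑ d ∈ dbig A L,
      (((am A L d).card * (am A L d).card - (am A L d).card : ℕ) : ℚ) + 2 * (inn A L).card)
      ≤ 2 * (kb A L).card + (sml A L).card * (sml A L).card := by exact_mod_cast n1
  have c3 : ((rb A L).card : ℚ) ≤ ∑ d ∈ D, ((st A d).card : ℚ) * (qq A L d).card +
      ∑ d ∈ dbig A L, ((rbu A L d).card : ℚ) := by exact_mod_cast n3
  have c4 : ∑ d ∈ dbig A L, ((rbu A L d).card : ℚ) ≤ ∑ d ∈ dbig A L,
      ((up A d).card : ℚ) * ((sml A L).card + (gset A L d).card + (zset A L).card) := by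
    exact_mod_cast n4
  have c5 : ∑ d ∈ dbig A L, (2 * ((up A d).card : ℚ) * (gset A L d).card +
      (st A d).card * ((st A d).card + 1)) ≤ ∑ d ∈ dbig A L,
      (((am A L d).card * (am A L d).card - (am A L d).card : ℕ) : ℚ) + δ := by
    exact_mod_cast hδ
  have c8 : (A.card : ℚ) = (big A L).card + (sml A L).card := by exact_mod_cast n8
  have c10 : (P₀.card : ℚ) + E.card ≤ (A * A + A).card := by exact_mod_cast hv
  have d1 : ∑ d ∈ dbig A L,
      ((up A d).card : ℚ) * ((sml A L).card + (gset A L d).card + (zset A L).card) =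
      (∑ d ∈ dbig A L, ((up A d).card : ℚ)) * (sml A L).card +
      ∑ d ∈ dbig A L, ((up A d).card : ℚ) * (gset A L d).card +
      (∑ d ∈ dbig A L, ((up A d).card : ℚ)) * (zset A L).card := by
    rw [sum_mul, sum_mul, ← sum_add_distrib, ← sum_add_distrib]
    exact sum_congr rfl fun d _ => by ring
  have d2 : ∑ d ∈ dbig A L, (2 * ((up A d).card : ℚ) * (gset A L d).card +
      (st A d).card * ((st A d).card + 1)) =
      2 * ∑ d ∈ dbig A L, ((up A d).card : ℚ) * (gset A L d).card +
      ∑ d ∈ dbig A L, ((st A d).card : ℚ) * ((st A d).card + 1) := by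
    rw [mul_sum, ← sum_add_distrib]
    exact sum_congr rfl fun d _ => by ring
  rw [d1] at c4
  rw [d2] at c5
  rw [n9]
  have hY : ((yy A L : ℕ) : ℚ) = ∑ d ∈ dbig A L, ((up A d).card : ℚ) := by
    rw [yy]; push_cast; rfl
  rw [hY]
  set Y : ℚ := ∑ d ∈ dbig A L, ((up A d).card : ℚ) with hY'
  have p1 : ((sml A L).card : ℚ) * A.card =
      (sml A L).card * (big A L).card + (sml A L).card * (sml A L).card := by
    rw [c8]; ring
  rw [p1]
  have p2 : ((sml A L).card : ℚ) * ((big A L).card - 2 * Y - 1) =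
      (sml A L).card * (big A L).card - 2 * (Y * (sml A L).card) - (sml A L).card := by ring
  rw [p2]
  have p3 : ((zset A L).card : ℚ) * Y = Y * (zset A L).card := by ring
  rw [p3]
  linarith

/-- the denominators with steps -/
theorem Sel.den_E (h : Sel A q L) (a₀ : ℚ) (hmax : ∀ a ∈ A, |a| ≤ |a₀|) (T : Finset ℕ)
    (hT : T ⊆ dbig A L) : T.card ≤ ((dbig A L).filter (fun d => |L d| < |a₀|)).card + 1 := by
  classical
  have h5 : T ⊆ insert a₀.den ((dbig A L).filter (fun d => |L d| < |a₀|)) := by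
    intro d hd
    have hd := hT hd
    rw [mem_insert, mem_filter]
    by_cases h6 : |L d| < |a₀|
    · exact Or.inr ⟨hd, h6⟩
    · left
      obtain ⟨b, hb, hbd⟩ := mem_image.mp (mem_dbig.mp hd).1
      have h7 := hmax (L b.den) (h.mem b hb)
      rw [hbd] at h7
      have h8 : |L d| = |a₀| := le_antisymm h7 (not_lt.mp h6)
      have h9 := h.den b hb
      rw [hbd] at h9
      rw [← h9]
      rcases abs_eq_abs.mp h8 with h10 | h10
      · rw [h10]
      · rw [h10, Rat.neg_den]
  exact (card_le_card h5).trans (card_insert_le _ _)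

theorem Sel.st_dbig (h : Sel A q L) :
    (A.image Rat.den).filter (fun d => 0 < (st A d).card) ⊆ dbig A L := by
  intro d hd
  rw [mem_filter] at hd
  exact mem_dbig.mpr ⟨hd.1, h.st_big hd.2⟩

/-- the set has a small multiplier or there is enough to compensate -/
theorem Sel.gain (h : Sel A q L) (hne : (big A L).Nonempty) :
    (0 : ℚ) ≤ (2 * (inn A L).card - 2 * ((zset A L).card * yy A L)) ∧
    (0 : ℚ) ≤ (sml A L).card * ((big A L).card - 2 * yy A L - 1) ∧
    (0 : ℚ) ≤ (2 * (ks A L).card - (sml A L).card * A.card) := by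
  refine ⟨?_, ?_, ?_⟩
  · have h1 := zset_inn (A := A) (L := L)
    have h2 : ((zset A L).card : ℚ) * (2 * yy A L) ≤ (inn A L).card := by exact_mod_cast h1
    have h3 : (0 : ℚ) ≤ (inn A L).card := Nat.cast_nonneg _
    linarith
  · have n6 := h.big_ge
    have n6' : 1 ≤ (dbig A L).card := by
      obtain ⟨b, hb⟩ := hne
      rw [mem_big] at hb
      exact card_pos.mpr ⟨b.den, mem_dbig.mpr ⟨mem_image_of_mem _ hb.1, hb.2⟩⟩
    have h1 : 2 * yy A L + 1 ≤ (big A L).card := by rw [yy]; omega
    have h2 : 2 * (yy A L : ℚ) + 1 ≤ (big A L).card := by exact_mod_cast h1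
    exact mul_nonneg (Nat.cast_nonneg _) (by linarith)
  · have h1 := h.card_ks
    have h2 : ((sml A L).card : ℚ) * A.card ≤ 2 * (ks A L).card := by exact_mod_cast h1
    linarith

/-- **Both signs.** -/
theorem Sel.full (h : Sel A q L) (hne : (big A L).Nonempty)
    (hZ : 1 ∈ dbig A L → -L 1 ∈ A → 0 < L 1 → ∃ b ∈ bo A 1, b ≠ -L 1) :
    (A + A).card ≤ (A * A + A).card := by
  classical
  have hneA : A.Nonempty := by
    obtain ⟨b, hb⟩ := hne
    exact ⟨b, (mem_big.mp hb).1⟩
  obtain ⟨a₀, ha₀, hmax⟩ := exists_max_image A (fun a => |a|) hneA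
  have n5 : ∑ d ∈ dbig A L, (2 * (up A d).card * (gset A L d).card +
      (st A d).card * ((st A d).card + 1)) ≤
      ∑ d ∈ dbig A L, ((am A L d).card * (am A L d).card - (am A L d).card) + 0 :=
    sum_le_sum fun d hd => h.per hd (fun h1 => hZ (h1 ▸ hd))
  have hc := h.count 0 n5 a₀ ha₀
  obtain ⟨g1, g2, g3⟩ := h.gain hne
  refine h.finish (fun d => (st A d).card) _ _ (A.filter (fun b => 0 ≤ b ∧ b + 1 ∈ A))
    (A.filter (fun b => b + 1 ≤ 0 ∧ b + 1 ∈ A))
    (fun b hb => ⟨(mem_filter.mp hb).2.1, (mem_filter.mp hb).1, (mem_filter.mp hb).2.2⟩)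
    (fun b hb => ⟨(mem_filter.mp hb).2.1, (mem_filter.mp hb).1, (mem_filter.mp hb).2.2⟩)
    (st_sum A) (h.den_E a₀ hmax _ h.st_dbig) ?_
  rw [Nat.cast_zero] at hc
  linarith

end

end Pool.Agent.Helper37.RS
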