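import Pool.Agent.Helper37.RS.Full7

/-!
# The arithmetic, if the integers in the set are `-n, …, n`
-/

set_option autoImplicit false

namespace Pool.Agent.Helper37.RS

open Finset
open scoped Pointwise

/-- the remaining terms -/
def RR (D : Finset ℕ) (σ π : ℕ → ℕ) (u v E : ℕ) : ℚ :=
  ∑ d ∈ D, ((σ d : ℚ) ^ 2 - 2 * σ d * π d +
      2 * (σ d : ℚ) / (∑ d ∈ D, (σ d : ℚ) + σ d) * ((π d : ℚ) * (π d - 1)))
      + (u : ℚ) ^ 2 + (v : ℚ) ^ 2 + 2 * E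

theorem nat_sub_one (p : ℕ) : (0 : ℚ) ≤ (p : ℚ) * (p - 1) := by
  rcases Nat.eq_zero_or_pos p with h | h
  · rw [h]; simp
  · have : (1 : ℚ) ≤ p := by exact_mod_cast h
    exact mul_nonneg (by linarith) (by linarith)

theorem arith2 (D : Finset ℕ) (σ π : ℕ → ℕ) (u v E n : ℕ) (huv : u + v = ∑ d ∈ D, σ d)
    (h1D : 1 ∈ D) (hσ1 : σ 1 = 2 * n) (hn : 0 < n)
    (hE : (D.filter (fun d => 0 < σ d)).card ≤ E + 1) :
    2 * (n : ℚ) ^ 2 - 2 * n ≤ RR D σ π u v E ∧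
    (1 ≤ E → 2 * (n : ℚ) ^ 2 - 2 * n + 1 ≤ RR D σ π u v E) ∧
    (π 1 ≤ n → 2 * (n : ℚ) ^ 2 + 2 * E ≤ RR D σ π u v E) := by
  classical
  rw [RR]
  set T := D.filter (fun d => 0 < σ d) with hT
  set s : ℚ := ∑ d ∈ D, (σ d : ℚ) with hsd
  have huv' : (u : ℚ) + v = s := by rw [hsd]; exact_mod_cast huv
  have hTD : T ⊆ D := filter_subset _ _
  have h1 : ∑ d ∈ D, ((σ d : ℚ) ^ 2 - 2 * σ d * π d +
      2 * (σ d : ℚ) / (s + σ d) * ((π d : ℚ) * (π d - 1))) =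
      ∑ d ∈ T, ((σ d : ℚ) ^ 2 - 2 * σ d * π d +
      2 * (σ d : ℚ) / (s + σ d) * ((π d : ℚ) * (π d - 1))) := by
    symm
    apply sum_subset hTD
    intro d hd hdT
    have : σ d = 0 := by
      by_contra hcon
      exact hdT (mem_filter.mpr ⟨hd, Nat.pos_of_ne_zero hcon⟩)
    rw [this]
    simp
  have hsT : s = ∑ d ∈ T, (σ d : ℚ) := by
    rw [hsd]
    symm
    apply sum_subset hTD
    intro d hd hdT
    have : σ d = 0 := by
      by_contra hcon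
      exact hdT (mem_filter.mpr ⟨hd, Nat.pos_of_ne_zero hcon⟩)
    rw [this]
    simp
  rw [h1]
  have hle : ∀ d ∈ T, (σ d : ℚ) ≤ s := fun d hd => by
    rw [hsT]
    exact single_le_sum (f := fun d => (σ d : ℚ)) (fun _ _ => Nat.cast_nonneg _) hd
  have hpos : ∀ d ∈ T, (1 : ℚ) ≤ σ d := fun d hd => by
    exact_mod_cast (mem_filter.mp hd).2
  have h1T : 1 ∈ T := mem_filter.mpr ⟨h1D, by rw [hσ1]; omega⟩
  have hn1 : (1 : ℚ) ≤ n := by exact_mod_cast hn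
  have hσ1' : (σ 1 : ℚ) = 2 * n := by rw [hσ1]; push_cast; ring
  have hs0 : 0 < s := by linarith [hle 1 h1T, hpos 1 h1T]
  have huv2 : 1 / 2 * s * s ≤ (u : ℚ) ^ 2 + (v : ℚ) ^ 2 := by
    rw [← huv']
    nlinarith [sq_nonneg ((u : ℚ) - v)]
  have hE' : (T.card : ℚ) ≤ E + 1 := by exact_mod_cast hE
  have hE0 : (0 : ℚ) ≤ E := Nat.cast_nonneg E
  have hper : ∀ d ∈ T, (1 / 2 * (σ d : ℚ) ^ 2 - 1 / 2 * s * σ d - σ d - 1 / 4) ≤
      ((σ d : ℚ) ^ 2 - 2 * σ d * π d +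
        2 * (σ d : ℚ) / (s + σ d) * ((π d : ℚ) * (π d - 1))) :=
    fun d hd => per_d _ _ _ (by linarith [hpos d hd]) (hle d hd)
  have hT' := card_erase_add_one h1T
  set T' := T.erase 1 with hT'd
  have hT'c : (T'.card : ℚ) + 1 = T.card := by exact_mod_cast hT'
  have hT'T : T' ⊆ T := erase_subset _ _
  have hsplit : ∀ f : ℕ → ℚ, ∑ d ∈ T, f d = f 1 + ∑ d ∈ T', f d := fun f =>
    (add_sum_erase T f h1T).symm
  have hs' : s = 2 * n + ∑ d ∈ T', (σ d : ℚ) := by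
    rw [← hσ1', hsT]
    exact hsplit _
  have key : T'.card = 0 ∨ 1 ≤ T'.card := by omega
  have hgen : 1 ≤ T'.card → 2 * (n : ℚ) ^ 2 - 2 * n + 1 ≤
      ∑ d ∈ T, ((σ d : ℚ) ^ 2 - 2 * σ d * π d +
        2 * (σ d : ℚ) / (s + σ d) * ((π d : ℚ) * (π d - 1))) +
        (u : ℚ) ^ 2 + (v : ℚ) ^ 2 + 2 * E := by
    intro h2
    have h3 := sum_le_sum hper
    have h4 : ∑ d ∈ T, (1 / 2 * (σ d : ℚ) ^ 2 - 1 / 2 * s * σ d - σ d - 1 / 4) =
        ∑ d ∈ T, (1 / 2 * (σ d : ℚ) ^ 2 - σ d - 1 / 4) - 1 / 2 * s * s := by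
      have : 1 / 2 * s * s = ∑ d ∈ T, 1 / 2 * s * (σ d : ℚ) := by
        rw [← mul_sum, ← hsT]
      rw [this, ← sum_sub_distrib]
      exact sum_congr rfl fun d _ => by ring
    have h5 : ∑ d ∈ T', (-(3 / 4) : ℚ) ≤ ∑ d ∈ T', (1 / 2 * (σ d : ℚ) ^ 2 - σ d - 1 / 4) :=
      sum_le_sum fun d _ => by nlinarith [sq_nonneg ((σ d : ℚ) - 1)]
    rw [sum_const, nsmul_eq_mul] at h5
    rw [h4, hsplit (fun d => 1 / 2 * (σ d : ℚ) ^ 2 - σ d - 1 / 4)] at h3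
    simp only [hσ1'] at h3
    have h6 : (1 : ℚ) ≤ T'.card := by exact_mod_cast h2
    nlinarith
  have hone : T'.card = 0 → 2 * (n : ℚ) ^ 2 - 2 * n + 2 * E ≤
      ∑ d ∈ T, ((σ d : ℚ) ^ 2 - 2 * σ d * π d +
        2 * (σ d : ℚ) / (s + σ d) * ((π d : ℚ) * (π d - 1))) +
        (u : ℚ) ^ 2 + (v : ℚ) ^ 2 + 2 * E := by
    intro h2
    rw [card_eq_zero] at h2
    rw [hsplit, h2, sum_empty, add_zero]
    rw [h2, sum_empty, add_zero] at hs'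
    rw [hσ1', hs']
    have h4 : 2 * (2 * (n : ℚ)) / (2 * n + 2 * n) = 1 := by
      field_simp
      ring
    rw [h4]
    rw [hs'] at huv2
    have h7 : (0 : ℚ) ≤ ((π 1 : ℤ) - 2 * n : ℤ) * (((π 1 : ℤ) - 2 * n : ℤ) - 1) := by
      have : (0 : ℤ) ≤ ((π 1 : ℤ) - 2 * n) * (((π 1 : ℤ) - 2 * n) - 1) := by
        rcases le_or_gt ((π 1 : ℤ) - 2 * n) 0 with h | h
        · exact mul_nonneg_of_nonpos_of_nonpos h (by linarith)
        · exact mul_nonneg h.le (by linarith)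
      exact_mod_cast this
    push_cast at h7
    nlinarith
  refine ⟨?_, ?_, ?_⟩
  · rcases key with h2 | h2
    · have := hone h2
      linarith
    · have := hgen h2
      linarith
  · intro hE1
    have hE1' : (1 : ℚ) ≤ E := by exact_mod_cast hE1
    rcases key with h2 | h2
    · have := hone h2
      linarith
    · exact hgen h2
  · intro hπ
    have hπ' : (π 1 : ℚ) ≤ n := by exact_mod_cast hπ
    have h3 : ∑ d ∈ T', (1 / 2 * (σ d : ℚ) ^ 2 - 1 / 2 * s * σ d - σ d - 1 / 4) ≤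
        ∑ d ∈ T', ((σ d : ℚ) ^ 2 - 2 * σ d * π d +
        2 * (σ d : ℚ) / (s + σ d) * ((π d : ℚ) * (π d - 1))) :=
      sum_le_sum fun d hd => hper d (hT'T hd)
    have h4 : ∑ d ∈ T', (1 / 2 * (σ d : ℚ) ^ 2 - 1 / 2 * s * σ d - σ d - 1 / 4) =
        ∑ d ∈ T', (1 / 2 * (σ d : ℚ) ^ 2 + n * σ d - σ d - 1 / 4) -
        (1 / 2 * s + n) * ∑ d ∈ T', (σ d : ℚ) := by
      have : (1 / 2 * s + n) * ∑ d ∈ T', (σ d : ℚ) =
          ∑ d ∈ T', (1 / 2 * s + n) * (σ d : ℚ) := mul_sum _ _ _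
      rw [this, ← sum_sub_distrib]
      exact sum_congr rfl fun d _ => by ring
    have h5 : (0 : ℚ) ≤ ∑ d ∈ T', (1 / 2 * (σ d : ℚ) ^ 2 + n * σ d - σ d - 1 / 4) :=
      sum_nonneg fun d hd => by nlinarith [hpos d (hT'T hd)]
    have h6 : (0 : ℚ) ≤ (2 * (n : ℚ)) ^ 2 - 2 * (2 * n) * π 1 +
        2 * (2 * (n : ℚ)) / (s + 2 * n) * ((π 1 : ℚ) * (π 1 - 1)) := by
      have e1 := nat_sub_one (π 1)
      have e2 : 0 ≤ 2 * (2 * (n : ℚ)) / (s + 2 * n) := by positivity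
      have e3 := mul_nonneg e2 e1
      nlinarith
    rw [hsplit]
    rw [hσ1']
    rw [h4] at h3
    have e4 : ∑ d ∈ T', (σ d : ℚ) = s - 2 * n := by linarith
    rw [e4] at h3
    nlinarith

section

variable {A : Finset ℚ} {q : ℕ} {L : ℕ → ℚ}

/-- the last step, with a deficit -/
theorem Sel.finish' (h : Sel A q L) (σ : ℕ → ℕ) (E S : ℕ) (G δ : ℚ) (P M : Finset ℚ)
    (hP : ∀ b ∈ P, 0 ≤ b ∧ b ∈ A ∧ b + 1 ∈ A) (hM : ∀ b ∈ M, b + 1 ≤ 0 ∧ b ∈ A ∧ b + 1 ∈ A)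
    (huv : P.card + M.card = ∑ d ∈ A.image Rat.den, σ d)
    (h0 : 0 < ∑ d ∈ A.image Rat.den, σ d)
    (hS : (A.card : ℚ) * A.card + (A.card + ∑ d ∈ A.image Rat.den, (σ d : ℚ) * (σ d + 1)) + 2 * E
      + G ≤ 2 * S + 2 * ∑ d ∈ A.image Rat.den, (σ d : ℚ) * (qq A L d).card + δ)
    (hR : δ - 2 < RR (A.image Rat.den) σ (fun d => (qq A L d).card) P.card M.card E + G) :
    (A + A).card ≤ S := by
  classical
  rw [RR] at hR
  set D := A.image Rat.den with hD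
  have hmix := h.mixed (fun d => 2 * (σ d : ℚ) / (∑ d ∈ D, (σ d : ℚ) + σ d))
    (fun C hC m hm => weight_le D (fun d => (σ d : ℚ)) (fun d => Nat.cast_nonneg _)
        (by exact_mod_cast h0) C hC m hm)
  have hsum := sums_le' A P M hP hM
  have g4 : ((P.card : ℚ) + M.card) = ∑ d ∈ D, (σ d : ℚ) := by exact_mod_cast huv
  have g5 : ∑ d ∈ D, (σ d : ℚ) * (σ d + 1) =
      ∑ d ∈ D, (σ d : ℚ) ^ 2 + ∑ d ∈ D, (σ d : ℚ) := by
    rw [← sum_add_distrib]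
    exact sum_congr rfl fun d _ => by ring
  have g6 : ∑ d ∈ D, ((σ d : ℚ) ^ 2 - 2 * σ d * (qq A L d).card +
    2 * (σ d : ℚ) / (∑ d ∈ D, (σ d : ℚ) + σ d) *
      (((qq A L d).card : ℚ) * ((qq A L d).card - 1))) =
      ∑ d ∈ D, (σ d : ℚ) ^ 2 -
      2 * ∑ d ∈ D, (σ d : ℚ) * (qq A L d).card +
      ∑ d ∈ D, 2 * (σ d : ℚ) /
        (∑ d ∈ D, (σ d : ℚ) + σ d) *
        (((qq A L d).card : ℚ) * ((qq A L d).card - 1)) := by
    rw [sum_add_distrib, sum_sub_distrib, mul_sum]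
    congr 2
    exact sum_congr rfl fun d _ => by ring
  rw [g6] at hR
  rw [g5] at hS
  have g7 : ((A + A).card : ℚ) < S + 1 := by linarith
  have g8 : (A + A).card < S + 1 := by exact_mod_cast g7
  omega

end

end Pool.Agent.Helper37.RS
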