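import Pool.Agent.Helper37.RS.Base

/-!
# Sets of rational numbers of both signs
-/

set_option autoImplicit false

namespace Pool.Agent.Helper37.RS

open Finset
open scoped Pointwise

/-- the elements of `A` at most the multiplier, without minus the multiplier -/
def win (A : Finset ℚ) (L : ℕ → ℚ) (d : ℕ) : Finset ℚ :=
  A.filter (fun a => |a| ≤ |L d| ∧ a ≠ -L d)

/-- the pairs of elements -/
def od (A : Finset ℚ) (L : ℕ → ℚ) : Finset (ℚ × ℚ) :=
  (A ×ˢ A).filter (fun x => x.2 ∈ win A L x.1.den ∨ (x.1 = x.2 ∧ x.1 = -L x.1.den))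

/-- the pairs left out -/
def rm (A : Finset ℚ) (L : ℕ → ℚ) : Finset (ℚ × ℚ) :=
  (od A L).filter (fun x => (x.1 - 1, x.2 + L x.1.den) ∈ od A L)

/-- the steps -/
def stp (A : Finset ℚ) (d : ℕ) : Finset ℚ := A.filter (fun b => b.den = d ∧ b - 1 ∈ A)

/-- the pairs with difference the absolute value of the multiplier -/
def qq (A : Finset ℚ) (L : ℕ → ℚ) (d : ℕ) : Finset (ℚ × ℚ) :=
  (win A L d ×ˢ win A L d).filter (fun x => x.1 - x.2 = |L d|)

/-- the properties of the multipliers -/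
structure Sel (A : Finset ℚ) (q : ℕ) (L : ℕ → ℚ) : Prop where
  dvd : ∀ a ∈ A, a.den ∣ q
  mem : ∀ b ∈ A, L b.den ∈ A
  den : ∀ b ∈ A, (L b.den).den = b.den
  le : ∀ b ∈ A, |b| ≤ |L b.den|
  cop : ∀ b ∈ A, Nat.Coprime b.den (q / b.den)
  neg : ∀ b ∈ A, L b.den < 0 → -L b.den ∉ A

theorem exists_Sel (A : Finset ℚ) (q : ℕ) (hA : ∀ a ∈ A, a.den ∣ q)
    (hc : ∀ b ∈ A, Nat.Coprime b.den (q / b.den)) : ∃ L, Sel A q L := by
  classical
  obtain ⟨L₀, hL₀⟩ := exists_sel A (fun d c => c.den = d)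
  refine ⟨fun d => if -L₀ d ∈ A ∧ L₀ d < 0 then -L₀ d else L₀ d, hA, ?_, ?_, ?_, hc, ?_⟩
  · intro b hb
    obtain ⟨h1, h2, h3⟩ := hL₀ b.den ⟨b, hb, rfl⟩
    split_ifs with h
    · exact h.1
    · exact h1
  · intro b hb
    obtain ⟨h1, h2, h3⟩ := hL₀ b.den ⟨b, hb, rfl⟩
    split_ifs with h
    · rw [Rat.neg_den]; exact h2
    · exact h2
  · intro b hb
    obtain ⟨h1, h2, h3⟩ := hL₀ b.den ⟨b, hb, rfl⟩
    split_ifs with h
    · rw [abs_neg]; exact h3 b hb rfl
    · exact h3 b hb rfl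
  · intro b hb
    split_ifs with h
    · intro h'
      linarith [h.2]
    · intro h' h''
      exact h ⟨h'', h'⟩

section

variable {A : Finset ℚ} {q : ℕ} {L : ℕ → ℚ}

theorem Sel.eq (h : Sel A q L) (b a b' a' : ℚ) (hb : b ∈ A) (ha : a ∈ A) (hb' : b' ∈ A)
    (ha' : a' ∈ A) (hv : L b.den * b + a = L b'.den * b' + a') :
    b.den = b'.den ∧ ∃ z : ℤ, b = b' + z ∧ L b.den * z = a' - a := by
  have c1 : Nat.Coprime b.den (q / (L b.den).den) := by rw [h.den b hb]; exact h.cop b hb
  have c2 : Nat.Coprime b'.den (q / (L b'.den).den) := by rw [h.den b' hb']; exact h.cop b' hb'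
  have d1 := den_dvd q (L b.den) b a (L b'.den) b' a' (h.dvd _ (h.mem b hb))
    (h.dvd _ (h.mem b' hb')) (h.dvd _ hb) (h.dvd _ ha) (h.dvd _ ha') c1 hv
  have d2 := den_dvd q (L b'.den) b' a' (L b.den) b a (h.dvd _ (h.mem b' hb'))
    (h.dvd _ (h.mem b hb)) (h.dvd _ hb') (h.dvd _ ha') (h.dvd _ ha) c2 hv.symm
  have d : b.den = b'.den := Nat.dvd_antisymm d1 d2
  rw [← d] at hv
  obtain ⟨z, hz⟩ := int_sub q (L b.den) b a b' a' (h.dvd _ (h.mem b hb)) (h.dvd _ hb)
    (h.dvd _ ha) (h.dvd _ ha') d c1 hv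
  refine ⟨d, z, hz, ?_⟩
  rw [hz] at hv
  rw [hz]
  linear_combination hv

theorem den_sub_one (b : ℚ) : (b - 1).den = b.den := by
  simp

theorem mem_win {a : ℚ} {d : ℕ} : a ∈ win A L d ↔ a ∈ A ∧ |a| ≤ |L d| ∧ a ≠ -L d := by
  simp [win]

theorem win_ne {a : ℚ} {d : ℕ} (ha : a ∈ win A L d) : L d ≠ 0 := by
  intro h0
  rw [mem_win, h0] at ha
  obtain ⟨-, h1, h2⟩ := ha
  rw [abs_zero] at h1
  have := abs_eq_zero.mp (le_antisymm h1 (abs_nonneg a))
  simp [this] at h2

theorem mem_od {x : ℚ × ℚ} : x ∈ od A L ↔ x.1 ∈ A ∧ x.2 ∈ A ∧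
    (x.2 ∈ win A L x.1.den ∨ (x.1 = x.2 ∧ x.1 = -L x.1.den)) := by
  simp [od, and_assoc]

/-- a special pair has no partner -/
theorem Sel.special (h : Sel A q L) (b a b' a' l : ℚ) (hb : b ∈ A) (ha' : |a'| ≤ |l|)
    (hlb : L b.den = l) (hle : |b'| ≤ |l|) (h1 : b = a) (h2 : b = -l) (z : ℤ)
    (hz : b = b' + z) (hL : l * z = a' - a) : z = 0 := by
  have hl0 : 0 ≤ l := by
    by_contra hcon
    push Not at hcon
    have := h.neg b hb (by rw [hlb]; exact hcon)
    rw [hlb, ← h2] at this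
    exact this hb
  rw [abs_of_nonneg hl0] at hle ha'
  rw [abs_le] at hle ha'
  rcases hl0.eq_or_lt with h0 | h0
  · rw [← h0] at hle h2
    have h3 : (z : ℚ) = 0 := by
      have := hle.1
      have := hle.2
      rw [h2] at hz
      linarith
    exact_mod_cast h3
  · have h3 : (z : ℚ) ≤ 0 := by
      have := hle.1
      rw [h2] at hz
      linarith
    have h4 : (0 : ℚ) ≤ z := by
      by_contra hcon
      push Not at hcon
      have : l * z < 0 := mul_neg_of_pos_of_neg h0 hcon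
      have := ha'.1
      linarith
    exact_mod_cast le_antisymm h3 h4

theorem small_z (l a a' : ℚ) (z : ℤ) (h1 : |a| ≤ |l|) (h2 : |a'| ≤ |l|) (h3 : a ≠ -l)
    (h4 : a' ≠ -l) (hL : l * z = a' - a) (hl : l ≠ 0) : z = 0 ∨ z = 1 ∨ z = -1 := by
  have key : ∀ (l a a' : ℚ) (z : ℤ), 0 < l → |a| ≤ l → |a'| ≤ l → a ≠ -l → a' ≠ -l →
      l * z = a' - a → z = 0 ∨ z = 1 ∨ z = -1 := by
    intro l a a' z hl h1 h2 h3 h4 hL
    rw [abs_le] at h1 h2
    have h5 : -l < a := lt_of_le_of_ne h1.1 (Ne.symm h3)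
    have h6 : -l < a' := lt_of_le_of_ne h2.1 (Ne.symm h4)
    have h7 : (z : ℚ) < 2 := by
      by_contra hcon
      push Not at hcon
      have : l * 2 ≤ l * z := mul_le_mul_of_nonneg_left hcon hl.le
      linarith
    have h8 : (-2 : ℚ) < z := by
      by_contra hcon
      push Not at hcon
      have : l * z ≤ l * (-2) := mul_le_mul_of_nonneg_left hcon hl.le
      linarith
    have h9 : z < 2 := by exact_mod_cast h7
    have h10 : -2 < z := by exact_mod_cast h8
    omega
  rcases lt_or_gt_of_ne hl with h0 | h0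
  · rw [abs_of_neg h0] at h1 h2
    exact key (-l) (-a) (-a') z (by linarith) (by rw [abs_neg]; exact h1)
      (by rw [abs_neg]; exact h2) (fun hh => h3 (by linarith)) (fun hh => h4 (by linarith))
      (by linear_combination -hL)
  · rw [abs_of_pos h0] at h1 h2
    exact key l a a' z h0 h1 h2 h3 h4 hL

/-- the collisions of the values -/
theorem Sel.coll (h : Sel A q L) (x y : ℚ × ℚ) (hx : x ∈ od A L) (hy : y ∈ od A L)
    (hv : val L x = val L y) : x = y ∨ (x.1 - 1, x.2 + L x.1.den) = y ∨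
      (y.1 - 1, y.2 + L y.1.den) = x := by
  obtain ⟨b, a⟩ := x
  obtain ⟨b', a'⟩ := y
  rw [mem_od] at hx hy
  simp only at hx hy
  obtain ⟨hb, ha, hx⟩ := hx
  obtain ⟨hb', ha', hy⟩ := hy
  simp only [val] at hv
  obtain ⟨hd, z, hz, hL⟩ := h.eq b a b' a' hb ha hb' ha' hv
  have hle := h.le b hb
  have hle' := h.le b' hb'
  rw [← hd] at hy hle'
  have hneg := h.neg b hb
  have h0 : z = 0 ∨ z = 1 ∨ z = -1 := by
    rcases hx with hx | ⟨h1, h2⟩
    · rcases hy with hy | ⟨h1, h2⟩
      · exact small_z (L b.den) a a' z (mem_win.mp hx).2.1 (mem_win.mp hy).2.1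
          (mem_win.mp hx).2.2 (mem_win.mp hy).2.2 hL (win_ne hx)
      · left
        have h3 := h.special b' a' b a (L b.den) hb' (mem_win.mp hx).2.1 (by rw [hd]) hle h1 h2
          (-z) (by push_cast; linear_combination -hz) (by push_cast; linear_combination -hL)
        omega
    · left
      have h3 : |a'| ≤ |L b.den| := by
        rcases hy with hy | ⟨h4, -⟩
        · exact (mem_win.mp hy).2.1
        · rw [← h4]; exact hle'
      exact h.special b a b' a' (L b.den) hb h3 rfl hle' h1 h2 z hz hL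
  rcases h0 with rfl | rfl | rfl
  · left
    simp only [Int.cast_zero, add_zero, mul_zero] at hz hL
    rw [hz]
    congr 1
    linarith
  · right; left
    simp only [Int.cast_one, mul_one] at hz hL
    rw [Prod.mk.injEq]
    exact ⟨by linarith, by linarith⟩
  · right; right
    simp only [Int.cast_neg, Int.cast_one, mul_neg, mul_one] at hz hL
    rw [Prod.mk.injEq]
    simp only
    rw [← hd]
    exact ⟨by linarith, by linarith⟩

/-- the values are distinct on the pairs not left out -/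
theorem Sel.inj (h : Sel A q L) (x y : ℚ × ℚ) (hx : x ∈ od A L \ rm A L)
    (hy : y ∈ od A L \ rm A L) (hv : val L x = val L y) : x = y := by
  rw [mem_sdiff] at hx hy
  rcases h.coll x y hx.1 hy.1 hv with h1 | h1 | h1
  · exact h1
  · exfalso
    exact hx.2 (mem_filter.mpr ⟨hx.1, by rw [h1]; exact hy.1⟩)
  · exfalso
    exact hy.2 (mem_filter.mpr ⟨hy.1, by rw [h1]; exact hx.1⟩)

/-- what is left out -/
theorem Sel.mem_rm (h : Sel A q L) (x : ℚ × ℚ) (hx : x ∈ rm A L) :
    x.1 ∈ stp A x.1.den ∧ x.2 ∈ win A L x.1.den ∧ x.2 + L x.1.den ∈ win A L x.1.den := by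
  obtain ⟨b, a⟩ := x
  rw [rm, mem_filter, mem_od, mem_od] at hx
  simp only at hx ⊢
  obtain ⟨⟨hb, ha, h1⟩, hb', ha', h2⟩ := hx
  rw [den_sub_one] at h2
  have hle := h.le (b - 1) hb'
  rw [den_sub_one] at hle
  have h3 : a ∈ win A L b.den := by
    rcases h1 with h1 | ⟨-, h1⟩
    · exact h1
    · exfalso
      have hl0 : 0 ≤ L b.den := by
        by_contra hcon
        push Not at hcon
        have := h.neg b hb hcon
        rw [← h1] at this
        exact this hb
      rw [abs_of_nonneg hl0, abs_le] at hle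
      linarith [hle.1]
  refine ⟨mem_filter.mpr ⟨hb, rfl, hb'⟩, h3, ?_⟩
  rcases h2 with h2 | ⟨h4, h5⟩
  · exact h2
  · exfalso
    have h6 : a = -2 * L b.den := by linarith
    have h7 := (mem_win.mp h3).2.1
    have h8 := win_ne h3
    rw [h6, abs_mul] at h7
    have h9 : 0 < |L b.den| := abs_pos.mpr h8
    norm_num at h7
    linarith

theorem mem_qq {x : ℚ × ℚ} {d : ℕ} : x ∈ qq A L d ↔ x.1 ∈ win A L d ∧ x.2 ∈ win A L d ∧
    x.1 - x.2 = |L d| := by
  simp [qq, and_assoc]

theorem Sel.card_rm (h : Sel A q L) :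
    (rm A L).card ≤ ∑ d ∈ A.image Rat.den, (stp A d).card * (qq A L d).card := by
  classical
  let g : ℚ × ℚ → ℚ × ℚ × ℚ := fun x =>
    (x.1, if 0 < L x.1.den then (x.2 + L x.1.den, x.2) else (x.2, x.2 + L x.1.den))
  have h1 : (rm A L).card ≤
      ((A.image Rat.den).biUnion (fun d => stp A d ×ˢ qq A L d)).card := by
    refine card_le_card_of_injOn g ?_ ?_
    · intro x hx
      obtain ⟨h1, h2, h3⟩ := h.mem_rm x hx
      have h4 := (mem_filter.mp h1).1
      rw [mem_coe, mem_biUnion]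
      refine ⟨x.1.den, mem_image_of_mem _ h4, ?_⟩
      rw [mem_product]
      refine ⟨h1, ?_⟩
      simp only [g]
      split_ifs with h5
      · rw [mem_qq]
        refine ⟨h3, h2, ?_⟩
        simp only
        rw [abs_of_pos h5]
        ring
      · rw [mem_qq]
        refine ⟨h2, h3, ?_⟩
        simp only
        push Not at h5
        rw [abs_of_nonpos h5]
        ring
    · intro x hx y hy hxy
      simp only [g, Prod.mk.injEq] at hxy
      obtain ⟨h5, h6⟩ := hxy
      rw [h5] at h6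
      refine Prod.ext h5 ?_
      split_ifs at h6 with h7
      · exact (Prod.mk.inj h6).2
      · exact (Prod.mk.inj h6).1
  refine h1.trans (card_biUnion_le.trans ?_)
  refine sum_le_sum fun d _ => ?_
  rw [card_product]

/-- the elements with denominator `d` except minus the multiplier -/
def am (A : Finset ℚ) (L : ℕ → ℚ) (d : ℕ) : Finset ℚ := A.filter (fun a => a.den = d ∧ a ≠ -L d)

theorem Sel.card_od (h : Sel A q L) : A.card * A.card + (A.card +
    ∑ d ∈ A.image Rat.den, ((am A L d).card * (am A L d).card - (am A L d).card))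
      ≤ 2 * (od A L).card := by
  classical
  set O := od A L with hO
  set T := O.image Prod.swap with hT
  have hTc : T.card = O.card := card_image_of_injective _ Prod.swap_injective
  have hmT : ∀ x : ℚ × ℚ, x ∈ T ↔ x.swap ∈ O := by
    intro x
    rw [hT, mem_image]
    constructor
    · rintro ⟨y, hy, rfl⟩
      rwa [Prod.swap_swap]
    · intro hx
      exact ⟨x.swap, hx, Prod.swap_swap x⟩
  have h1 : A ×ˢ A ⊆ O ∪ T := by
    rintro ⟨x, y⟩ hxy
    rw [mem_product] at hxy
    obtain ⟨hx, hy⟩ := hxy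
    simp only at hx hy
    rw [mem_union, hmT, Prod.swap_prod_mk, hO, mem_od, mem_od]
    simp only
    have key : ∀ x y : ℚ, x ∈ A → y ∈ A → |x| ≤ |y| →
        (x ∈ win A L y.den ∨ (y = x ∧ y = -L y.den)) ∨
        (y ∈ win A L x.den ∨ (x = y ∧ x = -L x.den)) := by
      intro x y hx hy hxy
      by_cases h2 : x = -L y.den
      · by_cases h3 : x = y
        · left; right
          exact ⟨h3.symm, by rw [← h3] at h2 ⊢; exact h2⟩
        · right; left
          have h4 : x.den = y.den := by rw [h2, Rat.neg_den, h.den y hy]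
          have h5 := h.le y hy
          have h6 : |x| = |L y.den| := by rw [h2, abs_neg]
          rw [mem_win, h4]
          refine ⟨hy, h5, ?_⟩
          intro h7
          exact h3 (h2.trans h7.symm)
      · left; left
        exact mem_win.mpr ⟨hx, hxy.trans (h.le y hy), h2⟩
    rcases le_total |x| |y| with h2 | h2
    · rcases key x y hx hy h2 with h3 | h3
      · exact Or.inr ⟨hy, hx, h3⟩
      · exact Or.inl ⟨hx, hy, h3⟩
    · rcases key y x hy hx h2 with h3 | h3
      · exact Or.inl ⟨hx, hy, h3⟩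
      · exact Or.inr ⟨hy, hx, h3⟩
  have h2 : A.diag ∪ (A.image Rat.den).biUnion (fun d => (am A L d).offDiag) ⊆ O ∩ T := by
    rintro ⟨x, y⟩ hxy
    rw [mem_inter, hmT, Prod.swap_prod_mk, hO, mem_od, mem_od]
    simp only
    rw [mem_union, mem_diag, mem_biUnion] at hxy
    rcases hxy with ⟨hx, hxy⟩ | ⟨d, -, hxy⟩
    · simp only at hx hxy
      subst hxy
      have h3 : x ∈ win A L x.den ∨ (x = x ∧ x = -L x.den) := by
        by_cases h4 : x = -L x.den
        · exact Or.inr ⟨rfl, h4⟩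
        · exact Or.inl (mem_win.mpr ⟨hx, h.le x hx, h4⟩)
      exact ⟨⟨hx, hx, h3⟩, hx, hx, h3⟩
    · rw [mem_offDiag] at hxy
      obtain ⟨hx, hy, -⟩ := hxy
      simp only [am, mem_filter] at hx hy
      obtain ⟨hx, hxd, hx'⟩ := hx
      obtain ⟨hy, hyd, hy'⟩ := hy
      have h5 := h.le x hx
      have h6 := h.le y hy
      rw [hxd] at h5 ⊢
      rw [hyd] at h6 ⊢
      exact ⟨⟨hx, hy, Or.inl (mem_win.mpr ⟨hy, h6, hy'⟩)⟩, hy, hx,
        Or.inl (mem_win.mpr ⟨hx, h5, hx'⟩)⟩
  have h3 : (A.diag ∪ (A.image Rat.den).biUnion (fun d => (am A L d).offDiag)).card =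
      A.card + ∑ d ∈ A.image Rat.den, ((am A L d).card * (am A L d).card - (am A L d).card) := by
    rw [card_union_of_disjoint, diag_card, card_biUnion]
    · simp only [offDiag_card]
    · intro d _ d' _ hdd
      rw [Function.onFun, disjoint_left]
      rintro ⟨x, y⟩ h1 h2
      rw [mem_offDiag] at h1 h2
      simp only [am, mem_filter] at h1 h2
      exact hdd (h1.1.2.1.symm.trans h2.1.2.1)
    · rw [disjoint_left]
      rintro ⟨x, y⟩ h1 h2
      rw [mem_diag] at h1
      rw [mem_biUnion] at h2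
      obtain ⟨d, -, h2⟩ := h2
      rw [mem_offDiag] at h2
      exact h2.2.2 h1.2
  have h4 := card_le_card h1
  have h5 := card_le_card h2
  have h6 := card_union_add_card_inter O T
  rw [card_product] at h4
  rw [h3] at h5
  rw [hTc] at h6
  omega

/-- no steps across `0` -/
theorem Sel.am_card (h : Sel A q L) (hn : ∀ b ∈ A, -1 ≤ b → b ≤ 0 → b + 1 ∉ A) (d : ℕ)
    (hs : 0 < (stp A d).card) : (stp A d).card + 1 ≤ (am A L d).card := by
  classical
  obtain ⟨b₁, hb₁⟩ := card_pos.mp hs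
  rw [stp, mem_filter] at hb₁
  obtain ⟨hb₁, hd₁, hb₁'⟩ := hb₁
  have hL0 : 0 < |L d| := by
    have e1 := h.le b₁ hb₁
    have e2 := h.le (b₁ - 1) hb₁'
    rw [den_sub_one] at e2
    rw [hd₁] at e1 e2
    by_contra hcon
    push Not at hcon
    have e3 := abs_eq_zero.mp (le_antisymm (e1.trans hcon) (abs_nonneg _))
    have e4 := abs_eq_zero.mp (le_antisymm (e2.trans hcon) (abs_nonneg _))
    linarith
  have hneg : ∀ b ∈ stp A d, b ≠ -L d := by
    intro b hb hbL
    rw [stp, mem_filter] at hb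
    obtain ⟨hb, hdb, hb'⟩ := hb
    have e2 := h.le (b - 1) hb'
    have e3 := h.neg b hb
    rw [den_sub_one] at e2
    rw [hdb] at e2 e3
    have hl0 : 0 ≤ L d := by
      by_contra hcon
      push Not at hcon
      have := e3 hcon
      rw [← hbL] at this
      exact this hb
    rw [abs_of_nonneg hl0, abs_le] at e2
    linarith [e2.1]
  have hsub : stp A d ⊆ am A L d := by
    intro b hb
    have h1 := hneg b hb
    rw [stp, mem_filter] at hb
    exact mem_filter.mpr ⟨hb.1, hb.2.1, h1⟩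
  have hex : ∃ b ∈ am A L d, b ∉ stp A d := by
    by_cases hm : -L d ∈ A
    · have hLp : 0 < L d := by
        rcases lt_trichotomy (L d) 0 with h1 | h1 | h1
        · have := h.neg b₁ hb₁ (by rw [hd₁]; exact h1)
          rw [hd₁] at this
          exact absurd hm this
        · rw [h1, abs_zero] at hL0
          exact absurd hL0 (lt_irrefl _)
        · exact h1
      have hne : (A.filter (fun a => a.den = d ∧ 0 < a)).Nonempty := by
        refine ⟨L d, mem_filter.mpr ⟨?_, ?_, hLp⟩⟩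
        · rw [← hd₁]; exact h.mem b₁ hb₁
        · have := h.den b₁ hb₁
          rw [hd₁] at this
          exact this
      obtain ⟨b₀, hb₀, hmin⟩ := exists_min_image _ id hne
      rw [mem_filter] at hb₀
      obtain ⟨hb₀, hd₀, hp₀⟩ := hb₀
      refine ⟨b₀, mem_filter.mpr ⟨hb₀, hd₀, by linarith⟩, ?_⟩
      intro hst
      rw [stp, mem_filter] at hst
      have h4 : b₀ - 1 ≤ 0 := by
        by_contra hcon
        push Not at hcon
        have := hmin (b₀ - 1) (mem_filter.mpr ⟨hst.2.2, by rw [den_sub_one]; exact hd₀, hcon⟩)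
        simp only [id] at this
        linarith
      exact hn (b₀ - 1) hst.2.2 (by linarith) h4 (by rw [sub_add_cancel]; exact hb₀)
    · obtain ⟨b₀, hb₀, hmin⟩ := exists_min_image (A.filter (fun a => a.den = d)) id
        ⟨b₁, mem_filter.mpr ⟨hb₁, hd₁⟩⟩
      rw [mem_filter] at hb₀
      refine ⟨b₀, mem_filter.mpr ⟨hb₀.1, hb₀.2, ?_⟩, ?_⟩
      · intro h5
        rw [h5] at hb₀
        exact hm hb₀.1
      · intro hst
        rw [stp, mem_filter] at hst
        have := hmin (b₀ - 1) (mem_filter.mpr ⟨hst.2.2, by rw [den_sub_one]; exact hb₀.2⟩)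
        simp only [id] at this
        linarith
  obtain ⟨b₀, h5, h6⟩ := hex
  have h7 : insert b₀ (stp A d) ⊆ am A L d := insert_subset h5 hsub
  have h8 := card_le_card h7
  rwa [card_insert_of_notMem h6] at h8

theorem Sel.am_card' (h : Sel A q L) (hn : ∀ b ∈ A, -1 ≤ b → b ≤ 0 → b + 1 ∉ A) (d : ℕ) :
    (stp A d).card * ((stp A d).card + 1) ≤
      (am A L d).card * (am A L d).card - (am A L d).card := by
  rcases Nat.eq_zero_or_pos (stp A d).card with h0 | h0
  · rw [h0]; simp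
  · have h1 := h.am_card hn d h0
    have h2 : (am A L d).card * (am A L d).card - (am A L d).card
        = (am A L d).card * ((am A L d).card - 1) := by
      rw [Nat.mul_sub, mul_one]
    rw [h2, mul_comm]
    exact Nat.mul_le_mul h1 (by omega)

/-- the additional pairs -/
theorem Sel.values (h : Sel A q L) : (od A L).card ≤ (A * A + A).card + (rm A L).card ∧
    ∀ a₀ ∈ A, (od A L).card + ((A.image Rat.den).filter (fun d => |L d| < |a₀|)).card
      ≤ (A * A + A).card + (rm A L).card := by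
  classical
  have hrm : rm A L ⊆ od A L := filter_subset _ _
  have hcard : (od A L \ rm A L).card + (rm A L).card = (od A L).card :=
    card_sdiff_add_card_eq_card hrm
  have hmem : ∀ x ∈ od A L \ rm A L, x.1 ∈ A ∧ x.2 ∈ A ∧ L x.1.den ∈ A := by
    intro x hx
    rw [mem_sdiff, mem_od] at hx
    exact ⟨hx.1.1, hx.1.2.1, h.mem _ hx.1.1⟩
  constructor
  · have h1 := card_le A L _ hmem (fun x hx y hy => h.inj x y hx hy)
    omega
  · intro a₀ ha₀
    rcases (abs_nonneg a₀).eq_or_lt with h0 | h0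
    · have h1 := card_le A L _ hmem (fun x hx y hy => h.inj x y hx hy)
      have h2 : (A.image Rat.den).filter (fun d => |L d| < |a₀|) = ∅ := by
        rw [filter_eq_empty_iff]
        intro d _ hd
        rw [← h0] at hd
        exact absurd hd (not_lt.mpr (abs_nonneg _))
      rw [h2, card_empty]
      omega
    · have hsel : ∀ d : ℕ, ∃ b : ℚ, d ∈ A.image Rat.den → b ∈ A ∧ b.den = d ∧
          ∀ b' ∈ A, b'.den = d → 0 ≤ a₀ * (L d * b - L d * b') := by
        intro d
        by_cases hd : d ∈ A.image Rat.den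
        · obtain ⟨b₁, hb₁, hd₁⟩ := mem_image.mp hd
          obtain ⟨b, hb, hmax⟩ := exists_max_image (A.filter (fun a => a.den = d))
            (fun b => a₀ * (L d * b)) ⟨b₁, mem_filter.mpr ⟨hb₁, hd₁⟩⟩
          rw [mem_filter] at hb
          refine ⟨b, fun _ => ⟨hb.1, hb.2, fun b' hb' hd' => ?_⟩⟩
          have := hmax b' (mem_filter.mpr ⟨hb', hd'⟩)
          rw [mul_sub]
          linarith
        · exact ⟨0, fun h' => absurd h' hd⟩
      choose β hβ using hsel
      set E := (A.image Rat.den).filter (fun d => |L d| < |a₀|) with hE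
      set X := E.image (fun d => (β d, a₀)) with hX
      have hXm : ∀ x ∈ X, x.1 ∈ A ∧ x.2 = a₀ ∧ |L x.1.den| < |a₀| ∧
          β x.1.den = x.1 := by
        intro x hx
        rw [hX, mem_image] at hx
        obtain ⟨d, hd, rfl⟩ := hx
        rw [hE, mem_filter] at hd
        obtain ⟨h1, h2, h3⟩ := hβ d hd.1
        refine ⟨h1, rfl, ?_, ?_⟩
        · simp only; rw [h2]; exact hd.2
        · simp only; rw [h2]
      have hXc : X.card = E.card := by
        rw [hX]
        apply card_image_of_injOn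
        intro d hd d' hd' hdd
        simp only [Prod.mk.injEq, and_true] at hdd
        rw [mem_coe, hE, mem_filter] at hd hd'
        rw [← (hβ d hd.1).2.1, ← (hβ d' hd'.1).2.1, hdd]
      have hdist : ∀ x ∈ od A L \ rm A L, ∀ y ∈ X, val L x ≠ val L y := by
        intro x hx y hy hv
        obtain ⟨k1, k2, k3, k4⟩ := hXm y hy
        rw [mem_sdiff, mem_od] at hx
        obtain ⟨⟨hx1, hx2, hx3⟩, -⟩ := hx
        simp only [val] at hv
        obtain ⟨hd, z, hz, hL⟩ := h.eq x.1 x.2 y.1 y.2 hx1 hx2 k1 (by rw [k2]; exact ha₀) hv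
        have hx4 : |x.2| ≤ |L x.1.den| := by
          rcases hx3 with h3 | ⟨h3, -⟩
          · exact (mem_win.mp h3).2.1
          · rw [← h3]; exact h.le _ hx1
        have h5 := (hβ y.1.den (mem_image_of_mem _ k1)).2.2 x.1 hx1 hd
        rw [k4] at h5
        rw [← hd] at h5 k3 hv
        rw [k2] at hv
        have h6 : L x.1.den * y.1 - L x.1.den * x.1 = x.2 - a₀ := by linarith
        rw [h6] at h5
        have h7 : |x.2| < |a₀| := hx4.trans_lt k3
        rcases abs_cases a₀ with ⟨h8, h9⟩ | ⟨h8, h9⟩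
        · rw [h8] at h7 h0
          rw [abs_lt] at h7
          nlinarith [h7.1, h7.2]
        · rw [h8] at h7 h0
          rw [abs_lt] at h7
          nlinarith [h7.1, h7.2]
      have hXinj : ∀ x ∈ X, ∀ y ∈ X, val L x = val L y → x = y := by
        intro x hx y hy hv
        obtain ⟨k1, k2, k3, k4⟩ := hXm x hx
        obtain ⟨k1', k2', k3', k4'⟩ := hXm y hy
        simp only [val] at hv
        obtain ⟨hd, -⟩ := h.eq x.1 x.2 y.1 y.2 k1 (by rw [k2]; exact ha₀) k1'
          (by rw [k2']; exact ha₀) hv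
        refine Prod.ext ?_ (k2.trans k2'.symm)
        rw [← k4, ← k4', hd]
      have hdisj : Disjoint (od A L \ rm A L) X := by
        rw [disjoint_left]
        intro x hx hx'
        exact hdist x hx x hx' rfl
      have h1 := card_le A L ((od A L \ rm A L) ∪ X) (by
        intro x hx
        rcases mem_union.mp hx with hx | hx
        · exact hmem x hx
        · obtain ⟨k1, k2, k3, k4⟩ := hXm x hx
          exact ⟨k1, by rw [k2]; exact ha₀, h.mem _ k1⟩) (by
        intro x hx y hy hv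
        rcases mem_union.mp hx with hx | hx
        · rcases mem_union.mp hy with hy | hy
          · exact h.inj x y hx hy hv
          · exact absurd hv (hdist x hx y hy)
        · rcases mem_union.mp hy with hy | hy
          · exact absurd hv.symm (hdist y hy x hx)
          · exact hXinj x hx y hy hv)
      rw [card_union_of_disjoint hdisj, hXc] at h1
      omega

/-- the pairs of an element `≥ 0` and an element `≤ 0` -/
def mx (A : Finset ℚ) : Finset (ℚ × ℚ) := (A.filter (fun a => 0 ≤ a)) ×ˢ (A.filter (fun a => a ≤ 0))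

/-- the pairs with the same sum -/
def fib (A : Finset ℚ) (x : ℚ × ℚ) : Finset (ℚ × ℚ) :=
  (mx A).filter (fun y => y.1 + y.2 = x.1 + x.2)

theorem mem_mx {x : ℚ × ℚ} : x ∈ mx A ↔ (x.1 ∈ A ∧ 0 ≤ x.1) ∧ x.2 ∈ A ∧ x.2 ≤ 0 := by
  simp [mx]

theorem mem_fib {x y : ℚ × ℚ} : y ∈ fib A x ↔ y ∈ mx A ∧ y.1 + y.2 = x.1 + x.2 := by
  simp [fib]

theorem sum_inv (A : Finset ℚ) : ∑ x ∈ mx A, (1 : ℚ) / (fib A x).card =
    (A.filter (fun a => 0 ≤ a) + A.filter (fun a => a ≤ 0)).card := by
  classical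
  have h1 : A.filter (fun a => 0 ≤ a) + A.filter (fun a => a ≤ 0)
      = (mx A).image (fun x => x.1 + x.2) := rfl
  have h2 : ∀ x ∈ mx A, (fun x : ℚ × ℚ => x.1 + x.2) x ∈ (mx A).image (fun x => x.1 + x.2) :=
    fun x hx => mem_image_of_mem _ hx
  rw [← sum_fiberwise_of_maps_to h2, h1, card_eq_sum_ones, Nat.cast_sum]
  refine sum_congr rfl fun w hw => ?_
  have h3 : ∀ x ∈ (mx A).filter (fun x => x.1 + x.2 = w),
      (1 : ℚ) / (fib A x).card = 1 / ((mx A).filter (fun x => x.1 + x.2 = w)).card := by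
    intro x hx
    rw [mem_filter] at hx
    have : fib A x = (mx A).filter (fun x => x.1 + x.2 = w) := by
      ext y
      rw [mem_fib, mem_filter, hx.2]
    rw [this]
  rw [sum_congr rfl h3, sum_const, nsmul_eq_mul]
  have h4 : 0 < ((mx A).filter (fun x => x.1 + x.2 = w)).card := by
    obtain ⟨x, hx, hxw⟩ := mem_image.mp hw
    exact card_pos.mpr ⟨x, mem_filter.mpr ⟨hx, hxw⟩⟩
  have h5 : (((mx A).filter (fun x => x.1 + x.2 = w)).card : ℚ) ≠ 0 :=
    Nat.cast_ne_zero.mpr h4.ne'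
  rw [mul_one_div_cancel h5]
  norm_num

theorem qq_sub {x : ℚ × ℚ} {d : ℕ} (hx : x ∈ qq A L d) : x ∈ mx A := by
  rw [mem_qq, mem_win, mem_win] at hx
  obtain ⟨⟨h1, h2, -⟩, ⟨h3, h4, -⟩, h5⟩ := hx
  rw [abs_le] at h2 h4
  rw [mem_mx]
  exact ⟨⟨h1, by linarith [h4.1]⟩, h3, by linarith [h2.2]⟩

/-- the multipliers that reflect the pair `m` -/
def cl (A : Finset ℚ) (L : ℕ → ℚ) (m : ℚ × ℚ) : Finset ℕ :=
  (A.image Rat.den).filter (fun d => (m.1, m.1 - |L d|) ∈ qq A L d ∧
    (m.2 + |L d|, m.2) ∈ qq A L d ∧ m.1 ≠ m.2 + |L d|)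

theorem Sel.cl_card (h : Sel A q L) (m : ℚ × ℚ) (hm : m ∈ mx A) :
    (cl A L m).card + 1 ≤ (fib A m).card := by
  classical
  have h1 : (cl A L m).card ≤ ((fib A m).erase m).card := by
    refine card_le_card_of_injOn (fun d => (m.2 + |L d|, m.1 - |L d|)) ?_ ?_
    · intro d hd
      rw [mem_coe, cl, mem_filter] at hd
      obtain ⟨-, h1, h2, h3⟩ := hd
      have k1 := qq_sub h1
      have k2 := qq_sub h2
      rw [mem_mx] at k1 k2
      rw [mem_coe, mem_erase, mem_fib, mem_mx]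
      refine ⟨?_, ⟨k2.1, k1.2⟩, by ring⟩
      intro h4
      apply h3
      rw [← h4]
      simp only
      have h5 : m.1 = m.2 + |L d| := by
        have := congrArg Prod.fst h4
        exact this.symm
      linarith
    · intro d hd d' hd' hdd
      rw [mem_coe, cl, mem_filter] at hd hd'
      simp only [Prod.mk.injEq] at hdd
      have h2 : |L d| = |L d'| := by linarith [hdd.1]
      obtain ⟨b, hb, hbd⟩ := mem_image.mp hd.1
      obtain ⟨b', hb', hbd'⟩ := mem_image.mp hd'.1
      have e1 := h.den b hb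
      have e2 := h.den b' hb'
      rw [hbd] at e1
      rw [hbd'] at e2
      have e3 : ∀ a : ℚ, |a|.den = a.den := by
        intro a
        rcases abs_choice a with h4 | h4
        · rw [h4]
        · rw [h4, Rat.neg_den]
      rw [← e1, ← e2, ← e3 (L d), ← e3 (L d'), h2]
  have h2 : m ∈ fib A m := mem_fib.mpr ⟨hm, rfl⟩
  rw [card_erase_of_mem h2] at h1
  have h3 : 0 < (fib A m).card := card_pos.mpr ⟨m, h2⟩
  omega

theorem qq_off (d : ℕ) : ((qq A L d).offDiag).card =
    ((mx A).filter (fun m => (m.1, m.1 - |L d|) ∈ qq A L d ∧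
    (m.2 + |L d|, m.2) ∈ qq A L d ∧ m.1 ≠ m.2 + |L d|)).card := by
  classical
  refine card_bij (fun p _ => (p.1.1, p.2.2)) ?_ ?_ ?_
  · rintro ⟨x, y⟩ hxy
    rw [mem_offDiag] at hxy
    obtain ⟨hx, hy, hne⟩ := hxy
    simp only at hx hy hne ⊢
    have k1 := (mem_qq.mp hx).2.2
    have k2 := (mem_qq.mp hy).2.2
    have e1 : (x.1, x.1 - |L d|) = x := Prod.ext rfl (by simp only; linarith)
    have e2 : (y.2 + |L d|, y.2) = y := Prod.ext (by simp only; linarith) rfl
    rw [mem_filter]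
    simp only
    rw [e1, e2]
    refine ⟨mem_mx.mpr ⟨(mem_mx.mp (qq_sub hx)).1, (mem_mx.mp (qq_sub hy)).2⟩, hx, hy, ?_⟩
    intro h4
    apply hne
    refine Prod.ext ?_ ?_
    · linarith
    · linarith
  · rintro ⟨x, y⟩ hxy ⟨x', y'⟩ hxy' h1
    rw [mem_offDiag] at hxy hxy'
    obtain ⟨hx, hy, -⟩ := hxy
    obtain ⟨hx', hy', -⟩ := hxy'
    simp only [Prod.mk.injEq] at hx hy hx' hy' h1
    have k1 := (mem_qq.mp hx).2.2
    have k2 := (mem_qq.mp hy).2.2
    have k1' := (mem_qq.mp hx').2.2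
    have k2' := (mem_qq.mp hy').2.2
    refine Prod.ext (Prod.ext h1.1 ?_) (Prod.ext ?_ h1.2)
    · simp only; linarith [h1.1]
    · simp only; linarith [h1.2]
  · intro m hm
    rw [mem_filter] at hm
    obtain ⟨-, h1, h2, h3⟩ := hm
    refine ⟨((m.1, m.1 - |L d|), (m.2 + |L d|, m.2)), ?_, rfl⟩
    rw [mem_offDiag]
    refine ⟨h1, h2, ?_⟩
    intro h4
    exact h3 (Prod.mk.inj h4).1

/-- the reflections give coincidences of the sums -/
theorem Sel.mixed (h : Sel A q L) (w : ℕ → ℚ)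
    (hw : ∀ C ⊆ A.image Rat.den, ∀ m : ℕ, C.card + 1 ≤ m → ∑ d ∈ C, w d ≤ 2 * (1 - 1 / m)) :
    ∑ d ∈ A.image Rat.den, w d * (((qq A L d).card : ℚ) * ((qq A L d).card - 1)) ≤
      2 * ((mx A).card - (A.filter (fun a => 0 ≤ a) + A.filter (fun a => a ≤ 0)).card) := by
  classical
  have h1 : ∀ d, ((qq A L d).card : ℚ) * ((qq A L d).card - 1) =
      ∑ m ∈ mx A, if (m.1, m.1 - |L d|) ∈ qq A L d ∧
        (m.2 + |L d|, m.2) ∈ qq A L d ∧ m.1 ≠ m.2 + |L d| then (1 : ℚ) else 0 := by
    intro d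
    have h2 := qq_off (A := A) (L := L) d
    rw [offDiag_card] at h2
    rw [sum_boole, ← h2]
    have h3 : (qq A L d).card ≤ (qq A L d).card * (qq A L d).card := Nat.le_mul_self _
    push_cast [Nat.cast_sub h3]
    ring
  have h2 : ∑ d ∈ A.image Rat.den, w d * (((qq A L d).card : ℚ) * ((qq A L d).card - 1)) =
      ∑ m ∈ mx A, ∑ d ∈ cl A L m, w d := by
    simp_rw [h1, mul_sum]
    rw [sum_comm]
    refine sum_congr rfl fun m _ => ?_
    rw [cl, sum_filter]
    refine sum_congr rfl fun d _ => ?_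
    split_ifs <;> simp
  rw [h2, ← sum_inv A]
  have h3 : ((mx A).card : ℚ) = ∑ x ∈ mx A, (1 : ℚ) := by simp
  rw [h3, ← sum_sub_distrib, mul_sum]
  refine sum_le_sum fun m hm => ?_
  exact hw _ (filter_subset _ _) _ (h.cl_card m hm)

theorem weight_le (D : Finset ℕ) (σ : ℕ → ℚ) (hσ : ∀ d, 0 ≤ σ d) (hs : 0 < ∑ d ∈ D, σ d)
    (C : Finset ℕ) (hC : C ⊆ D) (m : ℕ) (hm : C.card + 1 ≤ m) :
    ∑ d ∈ C, 2 * σ d / (∑ d ∈ D, σ d + σ d) ≤ 2 * (1 - 1 / m) := by
  set s := ∑ d ∈ D, σ d with hsdef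
  have hm1 : (1 : ℚ) ≤ m := by exact_mod_cast (by omega : 1 ≤ m)
  have hm0 : (0 : ℚ) < m := by linarith
  have hCm : (C.card : ℚ) ≤ m - 1 := by
    have : (C.card : ℚ) + 1 ≤ m := by exact_mod_cast hm
    linarith
  have hCs : ∑ d ∈ C, σ d ≤ s := sum_le_sum_of_subset_of_nonneg hC fun d _ _ => hσ d
  have h1 : ∀ d ∈ C, 2 * σ d / (s + σ d) ≤ 2 / m ^ 2 + 2 * (m - 1) ^ 2 / (m ^ 2 * s) * σ d := by
    intro d _
    have h2 := hσ d
    have h3 : 0 < s + σ d := by linarith
    rw [div_le_iff₀ h3]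
    have h4 : (2 / m ^ 2 + 2 * (m - 1) ^ 2 / (m ^ 2 * s) * σ d) * (s + σ d) - 2 * σ d
        = 2 / (m ^ 2 * s) * (s - (m - 1) * σ d) ^ 2 := by
      field_simp
      ring
    have h5 : 0 ≤ 2 / (m ^ 2 * s) * (s - (m - 1) * σ d) ^ 2 := by positivity
    linarith
  refine (sum_le_sum h1).trans ?_
  rw [sum_add_distrib, ← mul_sum, sum_const, nsmul_eq_mul]
  have h6 : (C.card : ℚ) * (2 / m ^ 2) ≤ (m - 1) * (2 / m ^ 2) :=
    mul_le_mul_of_nonneg_right hCm (by positivity)
  have h7 : 2 * (m - 1) ^ 2 / (m ^ 2 * s) * ∑ d ∈ C, σ d ≤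
      2 * (m - 1) ^ 2 / (m ^ 2 * s) * s :=
    mul_le_mul_of_nonneg_left hCs (by positivity)
  have h8 : (m - 1) * (2 / m ^ 2) + 2 * (m - 1) ^ 2 / (m ^ 2 * s) * s
      = 2 * (1 - 1 / (m : ℚ)) := by
    field_simp
    ring
  linarith

theorem per_d (x s p : ℚ) (hx : 0 < x) (hs : x ≤ s) :
    1 / 2 * x ^ 2 - 1 / 2 * s * x - x - 1 / 4 ≤
      x ^ 2 - 2 * x * p + 2 * x / (s + x) * (p * (p - 1)) := by
  have h1 : 0 < s + x := by linarith
  set w := 2 * x / (s + x) with hw
  have h2 : w * (s + x) = 2 * x := by rw [hw]; field_simp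
  have h3 : w ≤ 1 := by
    rw [hw, div_le_one h1]
    linarith
  have h4 : 0 ≤ w := by rw [hw]; positivity
  have h5 : x ^ 2 - 2 * x * p + w * (p * (p - 1)) -
      (1 / 2 * x ^ 2 - 1 / 2 * s * x - x - 1 / 4) =
      w * (p - (s + x + 1) / 2) ^ 2 + (1 - w) / 4 := by
    linear_combination (p - 1 / 2 - (s + x) / 4) * h2
  have h6 : 0 ≤ w * (p - (s + x + 1) / 2) ^ 2 := by positivity
  linarith

/-- the arithmetic -/
theorem arith (D : Finset ℕ) (σ π : ℕ → ℕ) (u v E : ℕ) (huv : u + v = ∑ d ∈ D, σ d)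
    (hs : 0 < ∑ d ∈ D, σ d) (hE : (D.filter (fun d => 0 < σ d)).card ≤ E + 1) :
    0 ≤ ∑ d ∈ D, ((σ d : ℚ) ^ 2 - 2 * σ d * π d +
      2 * (σ d : ℚ) / (∑ d ∈ D, (σ d : ℚ) + σ d) * ((π d : ℚ) * (π d - 1)))
      + (u : ℚ) ^ 2 + (v : ℚ) ^ 2 + 2 * E := by
  classical
  set T := D.filter (fun d => 0 < σ d) with hT
  set s : ℚ := ∑ d ∈ D, (σ d : ℚ) with hsd
  have hs' : 0 < s := by rw [hsd]; exact_mod_cast hs
  have huv' : (u : ℚ) + v = s := by rw [hsd]; exact_mod_cast huv
  have hTD : T ⊆ D := filter_subset _ _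
  have h1 : ∑ d ∈ D, ((σ d : ℚ) ^ 2 - 2 * σ d * π d +
      2 * (σ d : ℚ) / (s + σ d) * ((π d : ℚ) * (π d - 1))) =
      ∑ d ∈ T, ((σ d : ℚ) ^ 2 - 2 * σ d * π d +
      2 * (σ d : ℚ) / (s + σ d) * ((π d : ℚ) * (π d - 1))) := by
    symm
    apply sum_subset hTD
    intro d hd hdT
    have : σ d = 0 := by
      by_contra hcon
      exact hdT (mem_filter.mpr ⟨hd, Nat.pos_of_ne_zero hcon⟩)
    rw [this]
    simp
  have hsT : s = ∑ d ∈ T, (σ d : ℚ) := by
    rw [hsd]
    symm
    apply sum_subset hTD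
    intro d hd hdT
    have : σ d = 0 := by
      by_contra hcon
      exact hdT (mem_filter.mpr ⟨hd, Nat.pos_of_ne_zero hcon⟩)
    rw [this]
    simp
  rw [h1]
  have hle : ∀ d ∈ T, (σ d : ℚ) ≤ s := fun d hd => by
    rw [hsT]
    exact single_le_sum (f := fun d => (σ d : ℚ)) (fun _ _ => Nat.cast_nonneg _) hd
  have hpos : ∀ d ∈ T, (1 : ℚ) ≤ σ d := fun d hd => by
    exact_mod_cast (mem_filter.mp hd).2
  rcases Nat.lt_or_ge 1 T.card with h2 | h2
  · have h3 : ∑ d ∈ T, (1 / 2 * (σ d : ℚ) ^ 2 - 1 / 2 * s * σ d - σ d - 1 / 4) ≤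
        ∑ d ∈ T, ((σ d : ℚ) ^ 2 - 2 * σ d * π d +
        2 * (σ d : ℚ) / (s + σ d) * ((π d : ℚ) * (π d - 1))) :=
      sum_le_sum fun d hd => per_d _ _ _ (by linarith [hpos d hd]) (hle d hd)
    have h4 : ∑ d ∈ T, (-(1 / 2 * s * σ d) - 3 / 4) ≤
        ∑ d ∈ T, (1 / 2 * (σ d : ℚ) ^ 2 - 1 / 2 * s * σ d - σ d - 1 / 4) :=
      sum_le_sum fun d _ => by nlinarith [sq_nonneg ((σ d : ℚ) - 1)]
    have h5 : ∑ d ∈ T, (-(1 / 2 * s * (σ d : ℚ)) - 3 / 4) =
        -(1 / 2 * s * s) - 3 / 4 * T.card := by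
      rw [sum_sub_distrib, sum_neg_distrib, ← mul_sum, ← hsT, sum_const, nsmul_eq_mul]
      ring
    have h6 : (T.card : ℚ) ≤ E + 1 := by exact_mod_cast hE
    have h7 : (2 : ℚ) ≤ T.card := by exact_mod_cast h2
    have h8 : 1 / 2 * s * s ≤ (u : ℚ) ^ 2 + (v : ℚ) ^ 2 := by
      rw [← huv']
      nlinarith [sq_nonneg ((u : ℚ) - v)]
    linarith
  · have h3 : T.card = 1 := by
      apply le_antisymm h2
      rw [Nat.one_le_iff_ne_zero]
      intro h0
      rw [card_eq_zero] at h0
      rw [h0, sum_empty] at hsT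
      linarith
    obtain ⟨d₀, hd₀⟩ := card_eq_one.mp h3
    rw [hd₀, sum_singleton] at hsT ⊢
    have h4 : 2 * (σ d₀ : ℚ) / (s + σ d₀) = 1 := by
      rw [← hsT]
      field_simp
      ring
    rw [h4, ← hsT]
    have h5 : (u : ℚ) ≤ u ^ 2 := by exact_mod_cast Nat.le_self_pow two_ne_zero u
    have h6 : (v : ℚ) ≤ v ^ 2 := by exact_mod_cast Nat.le_self_pow two_ne_zero v
    have h7 : (0 : ℚ) ≤ ((π d₀ : ℤ) - σ d₀ : ℤ) * (((π d₀ : ℤ) - σ d₀ : ℤ) - 1) := by
      have : (0 : ℤ) ≤ ((π d₀ : ℤ) - σ d₀) * (((π d₀ : ℤ) - σ d₀) - 1) := by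
        rcases le_or_gt ((π d₀ : ℤ) - σ d₀) 0 with h | h
        · exact mul_nonneg_of_nonpos_of_nonpos h (by linarith)
        · exact mul_nonneg h.le (by linarith)
      exact_mod_cast this
    push_cast at h7
    rw [← hsT] at h7
    have h8 : (0 : ℚ) ≤ E := Nat.cast_nonneg E
    nlinarith

theorem cast_pred (n : ℕ) : ((n * (n - 1) : ℕ) : ℚ) = n ^ 2 - n := by
  rcases Nat.eq_zero_or_pos n with h | h
  · rw [h]; simp
  · push_cast [Nat.cast_sub h]
    ring

/-- the sums, split by the signs -/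
theorem sums_le (A : Finset ℚ) (P M : Finset ℚ) (hP : ∀ b ∈ P, 0 < b ∧ b ∈ A ∧ b + 1 ∈ A)
    (hM : ∀ b ∈ M, b + 1 < 0 ∧ b ∈ A ∧ b + 1 ∈ A) :
    2 * ((A + A).card : ℚ) + ((P.card : ℚ) ^ 2 - P.card) + ((M.card : ℚ) ^ 2 - M.card) +
      2 * ((mx A).card - (A.filter (fun a => 0 ≤ a) + A.filter (fun a => a ≤ 0)).card)
      ≤ (A.card : ℚ) * (A.card + 1) := by
  classical
  set Ap := A.filter (fun a => 0 < a) with hAp
  set Am := A.filter (fun a => a < 0) with hAm
  set Az := A.filter (fun a => a = 0) with hAz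
  have h1 := card_add_steps Ap P (fun b hb => ⟨mem_filter.mpr ⟨(hP b hb).2.1, (hP b hb).1⟩,
    mem_filter.mpr ⟨(hP b hb).2.2, by linarith [(hP b hb).1]⟩⟩)
  have h2 := card_add_steps Am M (fun b hb => ⟨mem_filter.mpr ⟨(hM b hb).2.1,
    by linarith [(hM b hb).1]⟩, mem_filter.mpr ⟨(hM b hb).2.2, (hM b hb).1⟩⟩)
  have h3 : A + A ⊆ (Ap + Ap) ∪ (Am + Am) ∪
      (A.filter (fun a => 0 ≤ a) + A.filter (fun a => a ≤ 0)) := by
    intro w hw
    obtain ⟨x, hx, y, hy, rfl⟩ := mem_add.mp hw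
    rw [mem_union, mem_union]
    rcases lt_or_ge 0 x with h4 | h4
    · rcases lt_or_ge 0 y with h5 | h5
      · left; left
        exact add_mem_add (mem_filter.mpr ⟨hx, h4⟩) (mem_filter.mpr ⟨hy, h5⟩)
      · right
        exact add_mem_add (mem_filter.mpr ⟨hx, h4.le⟩) (mem_filter.mpr ⟨hy, h5⟩)
    · rcases le_or_gt 0 y with h5 | h5
      · right
        rw [add_comm x y]
        exact add_mem_add (mem_filter.mpr ⟨hy, h5⟩) (mem_filter.mpr ⟨hx, h4⟩)
      · rcases h4.eq_or_lt with h6 | h6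
        · right
          exact add_mem_add (mem_filter.mpr ⟨hx, h6.ge⟩) (mem_filter.mpr ⟨hy, h5.le⟩)
        · left; right
          exact add_mem_add (mem_filter.mpr ⟨hx, h6⟩) (mem_filter.mpr ⟨hy, h5⟩)
  have h4 : (A + A).card ≤ (Ap + Ap).card + (Am + Am).card +
      (A.filter (fun a => 0 ≤ a) + A.filter (fun a => a ≤ 0)).card :=
    (card_le_card h3).trans ((card_union_le _ _).trans (Nat.add_le_add_right (card_union_le _ _) _))
  have h5 : (A.filter (fun a => 0 ≤ a)).card = Ap.card + Az.card := by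
    rw [← card_union_of_disjoint]
    · congr 1
      ext a
      simp only [hAp, hAz, mem_union, mem_filter]
      constructor
      · rintro ⟨h6, h7⟩
        rcases h7.eq_or_lt with h8 | h8
        · exact Or.inr ⟨h6, h8.symm⟩
        · exact Or.inl ⟨h6, h8⟩
      · rintro (⟨h6, h7⟩ | ⟨h6, h7⟩)
        · exact ⟨h6, h7.le⟩
        · exact ⟨h6, h7.ge⟩
    · rw [disjoint_left]
      intro a h6 h7
      simp only [hAp, hAz, mem_filter] at h6 h7
      linarith [h6.2, h7.2]
  have h6 : (A.filter (fun a => a ≤ 0)).card = Am.card + Az.card := by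
    rw [← card_union_of_disjoint]
    · congr 1
      ext a
      simp only [hAm, hAz, mem_union, mem_filter]
      constructor
      · rintro ⟨h6, h7⟩
        rcases h7.eq_or_lt with h8 | h8
        · exact Or.inr ⟨h6, h8⟩
        · exact Or.inl ⟨h6, h8⟩
      · rintro (⟨h6, h7⟩ | ⟨h6, h7⟩)
        · exact ⟨h6, h7.le⟩
        · exact ⟨h6, h7.le⟩
    · rw [disjoint_left]
      intro a h6 h7
      simp only [hAm, hAz, mem_filter] at h6 h7
      linarith [h6.2, h7.2]
  have h7 : A.card = Ap.card + Am.card + Az.card := by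
    have h8 : A = Ap ∪ A.filter (fun a => a ≤ 0) := by
      ext a
      simp only [hAp, mem_union, mem_filter]
      constructor
      · intro h6
        rcases lt_or_ge 0 a with h9 | h9
        · exact Or.inl ⟨h6, h9⟩
        · exact Or.inr ⟨h6, h9⟩
      · rintro (h6 | h6)
        · exact h6.1
        · exact h6.1
    rw [add_assoc, ← h6, ← card_union_of_disjoint, ← h8]
    rw [disjoint_left]
    intro a h6 h7
    simp only [hAp, mem_filter] at h6 h7
    linarith [h6.2, h7.2]
  have h8 : (Az.card : ℚ) ^ 2 = Az.card := by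
    have h9 : Az.card ≤ 1 := zero_card A
    rcases Nat.le_one_iff_eq_zero_or_eq_one.mp h9 with h10 | h10
    · rw [h10]; simp
    · rw [h10]; simp
  have h9 : (mx A).card = (Ap.card + Az.card) * (Am.card + Az.card) := by
    rw [mx, card_product, h5, h6]
  have e1 : 2 * ((Ap + Ap).card : ℚ) + ((P.card : ℚ) ^ 2 - P.card) ≤
      (Ap.card : ℚ) * (Ap.card + 1) := by
    rw [← cast_pred]
    exact_mod_cast h1
  have e2 : 2 * ((Am + Am).card : ℚ) + ((M.card : ℚ) ^ 2 - M.card) ≤
      (Am.card : ℚ) * (Am.card + 1) := by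
    rw [← cast_pred]
    exact_mod_cast h2
  have e3 : ((A + A).card : ℚ) ≤ (Ap + Ap).card + (Am + Am).card +
      (A.filter (fun a => 0 ≤ a) + A.filter (fun a => a ≤ 0)).card := by exact_mod_cast h4
  rw [h7, h9]
  push_cast
  nlinarith

/-- the steps, counted by the denominators -/
theorem stp_sum (A : Finset ℚ) : ∑ d ∈ A.image Rat.den, (stp A d).card =
    (A.filter (fun b => b - 1 ∈ A)).card := by
  classical
  rw [card_eq_sum_card_fiberwise (f := Rat.den) (t := A.image Rat.den)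
    (fun x hx => mem_image_of_mem _ (mem_filter.mp hx).1)]
  refine sum_congr rfl fun d _ => ?_
  congr 1
  ext b
  simp only [stp, mem_filter]
  tauto

/-- **Both signs, no steps across `0`.** -/
theorem Sel.main (h : Sel A q L) (hn : ∀ b ∈ A, -1 ≤ b → b ≤ 0 → b + 1 ∉ A) :
    (A + A).card ≤ (A * A + A).card := by
  classical
  rcases A.eq_empty_or_nonempty with rfl | hne
  · simp
  obtain ⟨a₀, ha₀, hmax⟩ := exists_max_image A (fun a => |a|) hne
  have hv := h.values
  have hod := h.card_od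
  have hrm := h.card_rm
  set D := A.image Rat.den with hD
  have hod2 : A.card * A.card + (A.card + ∑ d ∈ D, (stp A d).card * ((stp A d).card + 1)) ≤
      2 * (od A L).card := by
    refine le_trans ?_ hod
    have := sum_le_sum (fun d (_ : d ∈ D) => h.am_card' hn d)
    omega
  rcases Nat.eq_zero_or_pos (∑ d ∈ D, (stp A d).card) with h0 | h0
  · have h1 : ∑ d ∈ D, (stp A d).card * (qq A L d).card = 0 := by
      rw [sum_eq_zero_iff] at h0
      exact sum_eq_zero fun d hd => by rw [h0 d hd, zero_mul]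
    have h2 := card_add_self A
    have h3 := hv.1
    have h4 : A.card * (A.card + 1) = A.card * A.card + A.card := by ring
    omega
  · set P := A.filter (fun b => 0 < b ∧ b + 1 ∈ A) with hP
    set M := A.filter (fun b => b + 1 < 0 ∧ b + 1 ∈ A) with hM
    have huv : P.card + M.card = ∑ d ∈ D, (stp A d).card := by
      rw [hD, stp_sum, ← card_union_of_disjoint]
      · refine card_bij (fun b _ => b + 1) ?_ ?_ ?_
        · intro b hb
          rw [mem_union, hP, hM, mem_filter, mem_filter] at hb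
          rw [mem_filter, add_sub_cancel_right]
          rcases hb with hb | hb
          · exact ⟨hb.2.2, hb.1⟩
          · exact ⟨hb.2.2, hb.1⟩
        · intro b _ b' _ hbb
          linarith
        · intro b hb
          rw [mem_filter] at hb
          refine ⟨b - 1, ?_, by ring⟩
          rw [mem_union, hP, hM, mem_filter, mem_filter, sub_add_cancel]
          by_cases h5 : 0 < b - 1
          · exact Or.inl ⟨hb.2, h5, hb.1⟩
          · right
            refine ⟨hb.2, ?_, hb.1⟩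
            by_contra h6
            exact hn (b - 1) hb.2 (by linarith) (by linarith) (by rw [sub_add_cancel]; exact hb.1)
      · rw [disjoint_left]
        intro b h5 h6
        rw [hP, mem_filter] at h5
        rw [hM, mem_filter] at h6
        linarith [h5.2.1, h6.2.1]
    have hE : (D.filter (fun d => 0 < (stp A d).card)).card ≤
        (D.filter (fun d => |L d| < |a₀|)).card + 1 := by
      have h5 : D.filter (fun d => 0 < (stp A d).card) ⊆
          insert a₀.den (D.filter (fun d => |L d| < |a₀|)) := by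
        intro d hd
        rw [mem_filter] at hd
        rw [mem_insert, mem_filter]
        by_cases h6 : |L d| < |a₀|
        · exact Or.inr ⟨hd.1, h6⟩
        · left
          obtain ⟨b, hb, hbd⟩ := mem_image.mp hd.1
          have h7 := hmax (L b.den) (h.mem b hb)
          rw [hbd] at h7
          have h8 : |L d| = |a₀| := le_antisymm h7 (not_lt.mp h6)
          have h9 := h.den b hb
          rw [hbd] at h9
          rw [← h9]
          rcases abs_eq_abs.mp h8 with h10 | h10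
          · rw [h10]
          · rw [h10, Rat.neg_den]
      exact (card_le_card h5).trans (card_insert_le _ _)
    have hmix := h.mixed (fun d => 2 * ((stp A d).card : ℚ) /
      (∑ d ∈ D, ((stp A d).card : ℚ) + (stp A d).card)) (fun C hC m hm =>
        weight_le D (fun d => ((stp A d).card : ℚ)) (fun d => Nat.cast_nonneg _)
          (by exact_mod_cast h0) C hC m hm)
    have har := arith D (fun d => (stp A d).card) (fun d => (qq A L d).card) P.card M.card
      (D.filter (fun d => |L d| < |a₀|)).card huv h0 hE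
    have hsum := sums_le A P M
      (fun b hb => ⟨(mem_filter.mp hb).2.1, (mem_filter.mp hb).1, (mem_filter.mp hb).2.2⟩)
      (fun b hb => ⟨(mem_filter.mp hb).2.1, (mem_filter.mp hb).1, (mem_filter.mp hb).2.2⟩)
    have hv2 := hv.2 a₀ ha₀
    have g1 : (A.card : ℚ) * A.card + (A.card + ∑ d ∈ D, ((stp A d).card : ℚ) *
        ((stp A d).card + 1)) ≤ 2 * (od A L).card := by exact_mod_cast hod2
    have g2 : ((od A L).card : ℚ) + (D.filter (fun d => |L d| < |a₀|)).card ≤
        (A * A + A).card + (rm A L).card := by exact_mod_cast hv2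
    have g3 : ((rm A L).card : ℚ) ≤ ∑ d ∈ D, ((stp A d).card : ℚ) * (qq A L d).card := by
      exact_mod_cast hrm
    have g4 : ((P.card : ℚ) + M.card) = ∑ d ∈ D, ((stp A d).card : ℚ) := by exact_mod_cast huv
    have g5 : ∑ d ∈ D, ((stp A d).card : ℚ) * ((stp A d).card + 1) =
        ∑ d ∈ D, ((stp A d).card : ℚ) ^ 2 + ∑ d ∈ D, ((stp A d).card : ℚ) := by
      rw [← sum_add_distrib]
      exact sum_congr rfl fun d _ => by ring
    have g6 : ∑ d ∈ D, (((stp A d).card : ℚ) ^ 2 - 2 * (stp A d).card * (qq A L d).card +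
      2 * ((stp A d).card : ℚ) / (∑ d ∈ D, ((stp A d).card : ℚ) + (stp A d).card) *
        (((qq A L d).card : ℚ) * ((qq A L d).card - 1))) =
        ∑ d ∈ D, ((stp A d).card : ℚ) ^ 2 -
        2 * ∑ d ∈ D, ((stp A d).card : ℚ) * (qq A L d).card +
        ∑ d ∈ D, 2 * ((stp A d).card : ℚ) /
          (∑ d ∈ D, ((stp A d).card : ℚ) + (stp A d).card) *
          (((qq A L d).card : ℚ) * ((qq A L d).card - 1)) := by
      rw [sum_add_distrib, sum_sub_distrib, mul_sum]
      congr 2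
      exact sum_congr rfl fun d _ => by ring
    rw [g6] at har
    have g7 : ((A + A).card : ℚ) ≤ (A * A + A).card := by linarith
    exact_mod_cast g7

end

end Pool.Agent.Helper37.RS
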