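import Pool.Agent.Helper37.RS.Full9

/-!
# Sets of real numbers: polynomials in algebraically independent numbers
-/

set_option autoImplicit false

namespace Pool.Agent.Helper37.RS

open Finset
open scoped Pointwise

theorem hom_le {R S : Type*} [CommRing R] [CommRing S] [DecidableEq R] [DecidableEq S]
    (f : R →+* S) (B : Finset R) :
    (B.image f * B.image f + B.image f).card ≤ (B * B + B).card := by
  have h : B.image f * B.image f + B.image f = (B * B + B).image f := by
    rw [image_add, image_mul]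
  rw [h]
  exact card_image_le

theorem hom_add {R S : Type*} [CommRing R] [CommRing S] [DecidableEq R] [DecidableEq S]
    (f : R →+* S) (B : Finset R) (h : Set.InjOn f (B + B : Finset R)) :
    (B.image f + B.image f).card = (B + B).card := by
  have h1 : B.image f + B.image f = (B + B).image f := (image_add f).symm
  rw [h1]
  exact card_image_of_injOn h

/-- the transfer along a ring homomorphism -/
theorem transfer {R : Type*} [CommRing R] [DecidableEq R] (f : R →+* ℚ) (B : Finset R)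
    (h : Set.InjOn f (B + B : Finset R)) (q : ℕ) (hA : ∀ b ∈ B, (f b).den ∣ q)
    (hc : ∀ b ∈ B, Nat.Coprime (f b).den (q / (f b).den)) :
    (B + B).card ≤ (B * B + B).card := by
  have h1 := unitary (B.image f) q
    (by
      intro a ha
      obtain ⟨b, hb, rfl⟩ := mem_image.mp ha
      exact hA b hb)
    (by
      intro a ha
      obtain ⟨b, hb, rfl⟩ := mem_image.mp ha
      exact hc b hb)
  rw [hom_add f B h] at h1
  exact h1.trans (hom_le f B)

/-- the values of a polynomial at points divisible by a suitable number -/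
theorem eval_int {ι : Type*} (P : MvPolynomial ι ℚ) : ∃ Q : ℕ, 0 < Q ∧ ∀ k : ℕ, ∀ z : ι → ℤ,
    ∃ w : ℤ, MvPolynomial.eval (fun i => ((Q * k : ℕ) : ℚ) * z i) P =
      MvPolynomial.constantCoeff P + w := by
  induction P using MvPolynomial.induction_on with
  | C c =>
    refine ⟨1, one_pos, fun k z => ⟨0, ?_⟩⟩
    simp
  | add p₁ p₂ h₁ h₂ =>
    obtain ⟨Q₁, hQ₁, h₁⟩ := h₁
    obtain ⟨Q₂, hQ₂, h₂⟩ := h₂
    refine ⟨Q₁ * Q₂, Nat.mul_pos hQ₁ hQ₂, fun k z => ?_⟩
    obtain ⟨w₁, hw₁⟩ := h₁ (Q₂ * k) z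
    obtain ⟨w₂, hw₂⟩ := h₂ (Q₁ * k) z
    refine ⟨w₁ + w₂, ?_⟩
    have e1 : Q₁ * Q₂ * k = Q₁ * (Q₂ * k) := by ring
    have e2 : Q₁ * Q₂ * k = Q₂ * (Q₁ * k) := by ring
    rw [map_add, map_add, e1, hw₁, ← e1, e2, hw₂]
    push_cast
    ring
  | mul_X p i h =>
    obtain ⟨Q, hQ, h⟩ := h
    set c := MvPolynomial.constantCoeff p with hc
    refine ⟨Q * c.den, Nat.mul_pos hQ c.den_pos, fun k z => ?_⟩
    obtain ⟨w, hw⟩ := h (c.den * k) z
    refine ⟨c.num * (Q * k) * z i + w * (Q * c.den * k) * z i, ?_⟩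
    have e1 : Q * c.den * k = Q * (c.den * k) := by ring
    rw [map_mul, map_mul, MvPolynomial.constantCoeff_X, MvPolynomial.eval_X, e1, hw]
    have e2 : c * c.den = c.num := Rat.mul_den_eq_num c
    push_cast
    linear_combination (Q * k * z i : ℚ) * e2

/-- a point where finitely many polynomials do not vanish -/
theorem exists_point {ι : Type*} (B : Finset (MvPolynomial ι ℚ)) (Q : ℕ) (hQ : 0 < Q) :
    ∃ z : ι → ℤ, ∀ p ∈ B, ∀ r ∈ B, MvPolynomial.eval (fun i => (Q : ℚ) * z i) p =
      MvPolynomial.eval (fun i => (Q : ℚ) * z i) r → p = r := by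
  classical
  set G : MvPolynomial ι ℚ := ∏ x ∈ B.offDiag, (x.1 - x.2) with hG
  have hG0 : G ≠ 0 := by
    rw [hG, prod_ne_zero_iff]
    intro x hx
    rw [mem_offDiag] at hx
    exact sub_ne_zero.mpr hx.2.2
  have h1 : ∃ x ∈ Set.pi (Set.univ : Set ι) (fun _ => Set.range (fun z : ℤ => (Q : ℚ) * z)),
      MvPolynomial.eval x G ≠ 0 := by
    by_contra hcon
    push Not at hcon
    apply hG0
    refine MvPolynomial.funext_set (fun _ => Set.range (fun z : ℤ => (Q : ℚ) * z)) ?_ ?_
    · intro i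
      apply Set.infinite_range_of_injective
      intro z z' hzz
      simp only at hzz
      have hQ' : (Q : ℚ) ≠ 0 := by exact_mod_cast hQ.ne'
      exact_mod_cast mul_left_cancel₀ hQ' hzz
    · intro x hx
      rw [hcon x hx, map_zero]
  obtain ⟨x, hx, hxG⟩ := h1
  have h2 : ∀ i, ∃ z : ℤ, (Q : ℚ) * z = x i := fun i => hx i (Set.mem_univ i)
  choose z hz using h2
  have hxz : (fun i => (Q : ℚ) * z i) = x := funext hz
  refine ⟨z, ?_⟩
  rw [hxz]
  intro p hp r hr hpr
  by_contra hne
  apply hxG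
  rw [hG, map_prod]
  apply prod_eq_zero (mem_offDiag.mpr ⟨hp, hr, hne⟩ : (p, r) ∈ B.offDiag)
  rw [map_sub, hpr, sub_self]

/-- **Polynomials in algebraically independent real numbers.** -/
theorem real_sets {ι : Type*} (t : ι → ℝ) (ht : AlgebraicIndependent ℚ t) (A : Finset ℝ) (q : ℕ)
    (hA : ∀ a ∈ A, ∃ P : MvPolynomial ι ℚ, MvPolynomial.aeval t P = a ∧
      (MvPolynomial.constantCoeff P).den ∣ q ∧
      Nat.Coprime (MvPolynomial.constantCoeff P).den (q / (MvPolynomial.constantCoeff P).den)) :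
    (A + A).card ≤ (A * A + A).card := by
  classical
  choose! P hP using hA
  set B := A.image P with hB
  have hAB : A = B.image (MvPolynomial.aeval t : MvPolynomial ι ℚ →ₐ[ℚ] ℝ).toRingHom := by
    rw [hB, image_image]
    ext a
    rw [mem_image]
    constructor
    · intro ha
      exact ⟨a, ha, (hP a ha).1⟩
    · rintro ⟨b, hb, rfl⟩
      have := (hP b hb).1
      simp only [Function.comp_apply]
      change (MvPolynomial.aeval t) (P b) ∈ A
      rw [this]
      exact hb
  have hinj : Function.Injective (MvPolynomial.aeval t : MvPolynomial ι ℚ →ₐ[ℚ] ℝ).toRingHom := ht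
  have h1 : (A + A).card = (B + B).card := by
    rw [hAB]
    exact hom_add _ B hinj.injOn
  have h2 : (A * A + A).card = (B * B + B).card := by
    have : A * A + A = (B * B + B).image
        (MvPolynomial.aeval t : MvPolynomial ι ℚ →ₐ[ℚ] ℝ).toRingHom := by
      rw [hAB, image_add, image_mul]
    rw [this]
    exact card_image_of_injective _ hinj
  have h3 : ∃ Q : ℕ, 0 < Q ∧ ∀ p ∈ B, ∀ z : ι → ℤ, ∃ w : ℤ,
      MvPolynomial.eval (fun i => (Q : ℚ) * z i) p = MvPolynomial.constantCoeff p + w := by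
    choose Q hQ hQ' using fun p : MvPolynomial ι ℚ => eval_int p
    refine ⟨∏ p ∈ B, Q p, prod_pos fun p _ => hQ p, ?_⟩
    intro p hp z
    obtain ⟨w, hw⟩ := hQ' p (∏ r ∈ B.erase p, Q r) z
    refine ⟨w, ?_⟩
    rw [mul_prod_erase B Q hp] at hw
    exact hw
  obtain ⟨Q, hQ, h3⟩ := h3
  obtain ⟨z, hz⟩ := exists_point (B + B) Q hQ
  rw [h1, h2]
  have hden : ∀ p ∈ B, (MvPolynomial.eval (fun i => (Q : ℚ) * z i) p).den =
      (MvPolynomial.constantCoeff p).den := by
    intro p hp
    obtain ⟨w, hw⟩ := h3 p hp z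
    rw [hw, Rat.add_intCast_den]
  refine transfer (MvPolynomial.eval (fun i => (Q : ℚ) * z i)) B ?_ q ?_ ?_
  · intro p hp r hr hpr
    exact hz p hp r hr hpr
  · intro p hp
    rw [hden p hp]
    obtain ⟨a, ha, rfl⟩ := mem_image.mp hp
    exact (hP a ha).2.1
  · intro p hp
    rw [hden p hp]
    obtain ⟨a, ha, rfl⟩ := mem_image.mp hp
    exact (hP a ha).2.2

end Pool.Agent.Helper37.RS
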